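import Pool.Agent.R730.Bz.Out3

set_option autoImplicit false

/-!
Algebra of the two sums.
-/

namespace Pool.Agent.R730.Bz

open Finset

variable {K : Type*} [CommRing K]

lemma TS_rot (n : ℕ) (f : ℕ → ℕ → ℕ → K) : TS n f = TS n (fun a b c => f b c a) := by
  unfold TS
  rw [Finset.sum_sigma', Finset.sum_sigma']
  apply Finset.sum_bij (fun (r : (_ : ℕ × ℕ) × (ℕ × ℕ)) _ =>
    (⟨(r.2.2, r.1.1 + r.2.1), (r.1.1, r.2.1)⟩ : (_ : ℕ × ℕ) × (ℕ × ℕ)))
  · rintro ⟨⟨a, d⟩, ⟨b, c⟩⟩ h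
    simp only [mem_sigma, Finset.HasAntidiagonal.mem_antidiagonal, and_true] at h ⊢
    omega
  · rintro ⟨⟨a, d⟩, ⟨b, c⟩⟩ h ⟨⟨a', d'⟩, ⟨b', c'⟩⟩ h' e
    simp only [mem_sigma, Finset.HasAntidiagonal.mem_antidiagonal] at h h'
    simp only [Sigma.mk.injEq, Prod.mk.injEq, heq_eq_eq] at e ⊢
    obtain ⟨⟨e1, e2⟩, e3, e4⟩ := e
    subst e1 e3 e4
    refine ⟨⟨rfl, by omega⟩, rfl, rfl⟩
  · rintro ⟨⟨a, d⟩, ⟨b, c⟩⟩ h
    simp only [mem_sigma, Finset.HasAntidiagonal.mem_antidiagonal] at h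
    refine ⟨⟨(b, c + a), (c, a)⟩, ?_, ?_⟩
    · simp only [mem_sigma, Finset.HasAntidiagonal.mem_antidiagonal, and_true]
      omega
    · simp only [Sigma.mk.injEq, Prod.mk.injEq, heq_eq_eq, and_true, true_and]
      omega
  · rintro ⟨⟨a, d⟩, ⟨b, c⟩⟩ h
    rfl

lemma TS_swap (n : ℕ) (f : ℕ → ℕ → ℕ → K) : TS n f = TS n (fun a b c => f c b a) := by
  unfold TS
  rw [Finset.sum_sigma', Finset.sum_sigma']
  apply Finset.sum_bij (fun (r : (_ : ℕ × ℕ) × (ℕ × ℕ)) _ =>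
    (⟨(r.2.2, r.2.1 + r.1.1), (r.2.1, r.1.1)⟩ : (_ : ℕ × ℕ) × (ℕ × ℕ)))
  · rintro ⟨⟨a, d⟩, ⟨b, c⟩⟩ h
    simp only [mem_sigma, Finset.HasAntidiagonal.mem_antidiagonal, and_true] at h ⊢
    omega
  · rintro ⟨⟨a, d⟩, ⟨b, c⟩⟩ h ⟨⟨a', d'⟩, ⟨b', c'⟩⟩ h' e
    simp only [mem_sigma, Finset.HasAntidiagonal.mem_antidiagonal] at h h'
    simp only [Sigma.mk.injEq, Prod.mk.injEq, heq_eq_eq] at e ⊢
    obtain ⟨⟨e1, e2⟩, e3, e4⟩ := e
    subst e1 e3 e4
    refine ⟨⟨rfl, by omega⟩, rfl, rfl⟩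
  · rintro ⟨⟨a, d⟩, ⟨b, c⟩⟩ h
    simp only [mem_sigma, Finset.HasAntidiagonal.mem_antidiagonal] at h
    refine ⟨⟨(c, b + a), (b, a)⟩, ?_, ?_⟩
    · simp only [mem_sigma, Finset.HasAntidiagonal.mem_antidiagonal, and_true]
      omega
    · simp only [Sigma.mk.injEq, Prod.mk.injEq, heq_eq_eq, and_true, true_and]
      omega
  · rintro ⟨⟨a, d⟩, ⟨b, c⟩⟩ h
    rfl

lemma TS_add (n : ℕ) (f g : ℕ → ℕ → ℕ → K) :
    TS n (fun a b c => f a b c + g a b c) = TS n f + TS n g := by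
  unfold TS
  rw [← Finset.sum_add_distrib]
  exact Finset.sum_congr rfl (fun p _ => Finset.sum_add_distrib)

lemma TS_sub (n : ℕ) (f g : ℕ → ℕ → ℕ → K) :
    TS n (fun a b c => f a b c - g a b c) = TS n f - TS n g := by
  unfold TS
  rw [← Finset.sum_sub_distrib]
  exact Finset.sum_congr rfl (fun p _ => Finset.sum_sub_distrib _ _)

lemma TS_mul (n : ℕ) (r : K) (f : ℕ → ℕ → ℕ → K) :
    TS n (fun a b c => r * f a b c) = r * TS n f := by
  unfold TS
  rw [Finset.mul_sum]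
  exact Finset.sum_congr rfl (fun p _ => by rw [Finset.mul_sum])

lemma INs_eq (x₁ x₂ x₃ w : K) (m : ℕ) : INs x₁ x₂ x₃ w m =
    TS m (fun a b c => R x₁ w a b * R x₂ w b c * R x₃ w c a)
    - x₁ * x₂ * TS m (fun a b c => R x₁ w a b * R x₂ w b c * Rm x₃ w c a)
    - x₂ * x₃ * TS m (fun a b c => Rm x₁ w a b * R x₂ w b c * R x₃ w c a)
    - x₃ * x₁ * TS m (fun a b c => R x₁ w a b * Rm x₂ w b c * R x₃ w c a) := by
  rw [← TS_mul, ← TS_mul, ← TS_mul, ← TS_sub, ← TS_sub, ← TS_sub]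
  rfl

lemma INs_rot (x₁ x₂ x₃ w : K) (m : ℕ) : INs x₁ x₂ x₃ w m = INs x₂ x₃ x₁ w m := by
  rw [INs_eq, INs_eq]
  rw [TS_rot m (fun a b c => R x₂ w a b * R x₃ w b c * R x₁ w c a),
    TS_rot m (fun a b c => R x₂ w a b * R x₃ w b c * Rm x₁ w c a),
    TS_rot m (fun a b c => Rm x₂ w a b * R x₃ w b c * R x₁ w c a),
    TS_rot m (fun a b c => R x₂ w a b * Rm x₃ w b c * R x₁ w c a)]
  have e1 : (fun a b c => R x₂ w b c * R x₃ w c a * R x₁ w a b)
      = (fun a b c => R x₁ w a b * R x₂ w b c * R x₃ w c a) := by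
    funext a b c; ring
  have e2 : (fun a b c => R x₂ w b c * R x₃ w c a * Rm x₁ w a b)
      = (fun a b c => Rm x₁ w a b * R x₂ w b c * R x₃ w c a) := by
    funext a b c; ring
  have e3 : (fun a b c => Rm x₂ w b c * R x₃ w c a * R x₁ w a b)
      = (fun a b c => R x₁ w a b * Rm x₂ w b c * R x₃ w c a) := by
    funext a b c; ring
  have e4 : (fun a b c => R x₂ w b c * Rm x₃ w c a * R x₁ w a b)
      = (fun a b c => R x₁ w a b * R x₂ w b c * Rm x₃ w c a) := by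
    funext a b c; ring
  rw [e1, e2, e3, e4]
  ring

lemma INs_one (w : ℤ) (m : ℕ) : INs 1 1 1 w m = F w m := by
  have hF : F w m = TS m (fun a b c => R 1 w a b * R 1 w b c * R 1 w c a)
      - 3 * TS m (fun a b c => R 1 w a b * R 1 w b c * Rm 1 w c a) := by
    rw [← TS_mul, ← TS_sub]
    unfold F TS
    apply Finset.sum_congr rfl
    intro p _
    apply Finset.sum_congr rfl
    intro q _
    ring
  rw [INs_eq, hF]
  have e2 : TS m (fun a b c => R 1 w a b * R 1 w b c * Rm 1 w c a)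
      = TS m (fun a b c => Rm 1 w a b * R 1 w b c * R 1 w c a) := by
    rw [TS_rot]
    apply TS_congr
    intro a b c _
    ring
  have e3 : TS m (fun a b c => R 1 w a b * R 1 w b c * Rm 1 w c a)
      = TS m (fun a b c => R 1 w a b * Rm 1 w b c * R 1 w c a) := by
    rw [TS_rot, TS_rot]
    apply TS_congr
    intro a b c _
    ring
  rw [← e2, ← e3]
  ring

lemma OUTs_rot (x₀ x₁ x₂ w : K) (n : ℕ) : OUTs x₀ x₁ x₂ w n = OUTs x₁ x₂ x₀ w n := by
  have e0 : TS (n + 1) (fun a b c => R x₀ w c b * R x₁ w a c * R x₂ w b a)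
      = TS (n + 1) (fun a b c => R x₁ w c b * R x₂ w a c * R x₀ w b a) := by
    rw [TS_rot, TS_rot]
    exact TS_congr (fun a b c _ => by ring)
  have e1 : TS n (fun a b c => R x₀ w c (b + 1) * R x₁ w a (c + 1) * R x₂ w b (a + 1))
      = TS n (fun a b c => R x₁ w c (b + 1) * R x₂ w a (c + 1) * R x₀ w b (a + 1)) := by
    rw [TS_rot, TS_rot]
    exact TS_congr (fun a b c _ => by ring)
  have e2 : TS n (fun a b c => R x₀ w c b * R x₁ w a (c + 1) * R x₂ w b (a + 1))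
      = TS n (fun a b c => R x₁ w c (b + 1) * R x₂ w a (c + 1) * R x₀ w b a) := by
    rw [TS_rot, TS_rot]
    exact TS_congr (fun a b c _ => by ring)
  have e3 : TS n (fun a b c => R x₀ w c (b + 1) * R x₁ w a c * R x₂ w b (a + 1))
      = TS n (fun a b c => R x₁ w c b * R x₂ w a (c + 1) * R x₀ w b (a + 1)) := by
    rw [TS_rot, TS_rot]
    exact TS_congr (fun a b c _ => by ring)
  have e4 : TS n (fun a b c => R x₀ w c (b + 1) * R x₁ w a (c + 1) * R x₂ w b a)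
      = TS n (fun a b c => R x₁ w c (b + 1) * R x₂ w a c * R x₀ w b (a + 1)) := by
    rw [TS_rot, TS_rot]
    exact TS_congr (fun a b c _ => by ring)
  unfold OUTs
  rw [e0, e1, e2, e3, e4]
  ring

lemma OUTs_one (w : ℤ) (n : ℕ) : OUTs 1 1 1 w n = G w n := by
  have hG : G w n = TS (n + 1) (fun a b c => R 1 w a b * R 1 w b c * R 1 w c a)
      + (TS n (fun a b c => R 1 w a (b + 1) * R 1 w b (c + 1) * R 1 w c (a + 1))
        + 3 * TS n (fun a b c => R 1 w a b * R 1 w b (c + 1) * R 1 w c (a + 1))) := by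
    rw [← TS_mul, ← TS_add]
    rfl
  have e0 : TS (n + 1) (fun a b c => R 1 w a b * R 1 w b c * R 1 w c a)
      = TS (n + 1) (fun a b c => R 1 w c b * R 1 w a c * R 1 w b a) := by
    rw [TS_swap]
    exact TS_congr (fun a b c _ => by ring)
  have e1 : TS n (fun a b c => R 1 w a (b + 1) * R 1 w b (c + 1) * R 1 w c (a + 1))
      = TS n (fun a b c => R 1 w c (b + 1) * R 1 w a (c + 1) * R 1 w b (a + 1)) := by
    rw [TS_swap]
    exact TS_congr (fun a b c _ => by ring)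
  have e2 : TS n (fun a b c => R 1 w a b * R 1 w b (c + 1) * R 1 w c (a + 1))
      = TS n (fun a b c => R 1 w c b * R 1 w a (c + 1) * R 1 w b (a + 1)) := by
    rw [TS_swap]
    exact TS_congr (fun a b c _ => by ring)
  have e3 : TS n (fun a b c => R 1 w a b * R 1 w b (c + 1) * R 1 w c (a + 1))
      = TS n (fun a b c => R 1 w c (b + 1) * R 1 w a c * R 1 w b (a + 1)) := by
    rw [TS_swap, TS_rot]
    exact TS_congr (fun a b c _ => by ring)
  have e4 : TS n (fun a b c => R 1 w a b * R 1 w b (c + 1) * R 1 w c (a + 1))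
      = TS n (fun a b c => R 1 w c (b + 1) * R 1 w a (c + 1) * R 1 w b a) := by
    rw [TS_swap, TS_rot, TS_rot]
    exact TS_congr (fun a b c _ => by ring)
  rw [hG]
  unfold OUTs
  rw [← e0, ← e1, ← e2, ← e3, ← e4]
  ring

lemma R_scale (x w y : K) (a : ℕ) : ∀ b, R (x * y) (w * y ^ 2) a b = y ^ (2 * a + b) * R x w a b := by
  induction a with
  | zero =>
    intro b
    rw [R, R, mul_pow]
    ring
  | succ a ih =>
    intro b
    induction b with
    | zero =>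
      rw [R, R, ih, ih]
      ring
    | succ b ihb =>
      rw [R, R, ih, ih, ihb]
      ring

lemma Rm_scale (x w y : K) (a b : ℕ) :
    y ^ 2 * Rm (x * y) (w * y ^ 2) a b = y ^ (2 * a + b) * Rm x w a b := by
  rcases a with _ | a
  · rw [Rm, Rm]; ring
  · rw [Rm, Rm, R_scale]; ring

lemma INs_scale (x₁ x₂ x₃ w y : K) (m : ℕ) :
    INs (x₁ * y) (x₂ * y) (x₃ * y) (w * y ^ 2) m = y ^ (3 * m) * INs x₁ x₂ x₃ w m := by
  rw [INs_eq, INs_eq, mul_sub, mul_sub, mul_sub]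
  have h0 : TS m (fun a b c => R (x₁ * y) (w * y ^ 2) a b * R (x₂ * y) (w * y ^ 2) b c
        * R (x₃ * y) (w * y ^ 2) c a)
      = y ^ (3 * m) * TS m (fun a b c => R x₁ w a b * R x₂ w b c * R x₃ w c a) := by
    rw [← TS_mul]
    apply TS_congr
    intro a b c h
    rw [R_scale, R_scale, R_scale, ← h]
    ring
  have h1 : x₁ * y * (x₂ * y) * TS m (fun a b c => R (x₁ * y) (w * y ^ 2) a b
        * R (x₂ * y) (w * y ^ 2) b c * Rm (x₃ * y) (w * y ^ 2) c a)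
      = y ^ (3 * m) * (x₁ * x₂ * TS m (fun a b c => R x₁ w a b * R x₂ w b c * Rm x₃ w c a)) := by
    rw [← TS_mul, ← TS_mul, ← TS_mul]
    apply TS_congr
    intro a b c h
    have := Rm_scale x₃ w y c a
    rw [R_scale, R_scale, ← h]
    linear_combination (x₁ * x₂ * (y ^ (2 * a + b) * R x₁ w a b) * (y ^ (2 * b + c) * R x₂ w b c))
      * this
  have h2 : x₂ * y * (x₃ * y) * TS m (fun a b c => Rm (x₁ * y) (w * y ^ 2) a b
        * R (x₂ * y) (w * y ^ 2) b c * R (x₃ * y) (w * y ^ 2) c a)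
      = y ^ (3 * m) * (x₂ * x₃ * TS m (fun a b c => Rm x₁ w a b * R x₂ w b c * R x₃ w c a)) := by
    rw [← TS_mul, ← TS_mul, ← TS_mul]
    apply TS_congr
    intro a b c h
    have := Rm_scale x₁ w y a b
    rw [R_scale, R_scale, ← h]
    linear_combination (x₂ * x₃ * (y ^ (2 * c + a) * R x₃ w c a) * (y ^ (2 * b + c) * R x₂ w b c))
      * this
  have h3 : x₃ * y * (x₁ * y) * TS m (fun a b c => R (x₁ * y) (w * y ^ 2) a b
        * Rm (x₂ * y) (w * y ^ 2) b c * R (x₃ * y) (w * y ^ 2) c a)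
      = y ^ (3 * m) * (x₃ * x₁ * TS m (fun a b c => R x₁ w a b * Rm x₂ w b c * R x₃ w c a)) := by
    rw [← TS_mul, ← TS_mul, ← TS_mul]
    apply TS_congr
    intro a b c h
    have := Rm_scale x₂ w y b c
    rw [R_scale, R_scale, ← h]
    linear_combination (x₃ * x₁ * (y ^ (2 * c + a) * R x₃ w c a) * (y ^ (2 * a + b) * R x₁ w a b))
      * this
  rw [h0, h1, h2, h3]

lemma OUTs_scale (x₀ x₁ x₂ w y : K) (n : ℕ) :
    OUTs (x₀ * y) (x₁ * y) (x₂ * y) (w * y ^ 2) n = y ^ (3 * (n + 1)) * OUTs x₀ x₁ x₂ w n := by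
  unfold OUTs
  have h0 : TS (n + 1) (fun a b c => R (x₀ * y) (w * y ^ 2) c b * R (x₁ * y) (w * y ^ 2) a c
        * R (x₂ * y) (w * y ^ 2) b a)
      = y ^ (3 * (n + 1)) * TS (n + 1) (fun a b c => R x₀ w c b * R x₁ w a c * R x₂ w b a) := by
    rw [← TS_mul]
    apply TS_congr
    intro a b c h
    rw [R_scale, R_scale, R_scale, ← h]
    ring
  have h1 : TS n (fun a b c => R (x₀ * y) (w * y ^ 2) c (b + 1)
        * R (x₁ * y) (w * y ^ 2) a (c + 1) * R (x₂ * y) (w * y ^ 2) b (a + 1))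
      = y ^ (3 * (n + 1)) * TS n (fun a b c => R x₀ w c (b + 1) * R x₁ w a (c + 1)
        * R x₂ w b (a + 1)) := by
    rw [← TS_mul]
    apply TS_congr
    intro a b c h
    rw [R_scale, R_scale, R_scale, ← h]
    ring
  have h2 : x₂ * y * TS n (fun a b c => R (x₀ * y) (w * y ^ 2) c b
        * R (x₁ * y) (w * y ^ 2) a (c + 1) * R (x₂ * y) (w * y ^ 2) b (a + 1))
      = y ^ (3 * (n + 1)) * (x₂ * TS n (fun a b c => R x₀ w c b * R x₁ w a (c + 1)
        * R x₂ w b (a + 1))) := by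
    rw [← TS_mul, ← TS_mul, ← TS_mul]
    apply TS_congr
    intro a b c h
    rw [R_scale, R_scale, R_scale, ← h]
    ring
  have h3 : x₀ * y * TS n (fun a b c => R (x₀ * y) (w * y ^ 2) c (b + 1)
        * R (x₁ * y) (w * y ^ 2) a c * R (x₂ * y) (w * y ^ 2) b (a + 1))
      = y ^ (3 * (n + 1)) * (x₀ * TS n (fun a b c => R x₀ w c (b + 1) * R x₁ w a c
        * R x₂ w b (a + 1))) := by
    rw [← TS_mul, ← TS_mul, ← TS_mul]
    apply TS_congr
    intro a b c h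
    rw [R_scale, R_scale, R_scale, ← h]
    ring
  have h4 : x₁ * y * TS n (fun a b c => R (x₀ * y) (w * y ^ 2) c (b + 1)
        * R (x₁ * y) (w * y ^ 2) a (c + 1) * R (x₂ * y) (w * y ^ 2) b a)
      = y ^ (3 * (n + 1)) * (x₁ * TS n (fun a b c => R x₀ w c (b + 1) * R x₁ w a (c + 1)
        * R x₂ w b a)) := by
    rw [← TS_mul, ← TS_mul, ← TS_mul]
    apply TS_congr
    intro a b c h
    rw [R_scale, R_scale, R_scale, ← h]
    ring
  rw [h0, h1, h2, h3, h4]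
  ring

section maps

variable {L : Type*} [CommRing L]

lemma R_map (φ : K →+* L) (x w : K) (a : ℕ) : ∀ b, R (φ x) (φ w) a b = φ (R x w a b) := by
  induction a with
  | zero =>
    intro b
    rw [R, R, map_pow]
  | succ a ih =>
    intro b
    induction b with
    | zero => rw [R, R, ih, ih, map_add, map_mul, map_mul]
    | succ b ihb => rw [R, R, ih, ih, ihb, map_add, map_add, map_mul, map_mul, map_mul]

lemma Rm_map (φ : K →+* L) (x w : K) (a b : ℕ) : Rm (φ x) (φ w) a b = φ (Rm x w a b) := by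
  rcases a with _ | a
  · rw [Rm, Rm, map_zero]
  · rw [Rm, Rm, R_map]

lemma TS_map (φ : K →+* L) (n : ℕ) (f : ℕ → ℕ → ℕ → K) :
    φ (TS n f) = TS n (fun a b c => φ (f a b c)) := by
  unfold TS
  rw [map_sum]
  exact Finset.sum_congr rfl (fun p _ => by rw [map_sum])

lemma INs_map (φ : K →+* L) (x₁ x₂ x₃ w : K) (m : ℕ) :
    INs (φ x₁) (φ x₂) (φ x₃) (φ w) m = φ (INs x₁ x₂ x₃ w m) := by
  rw [INs_eq, INs_eq]
  simp only [map_sub, map_mul, TS_map, R_map, Rm_map]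

lemma OUTs_map (φ : K →+* L) (x₀ x₁ x₂ w : K) (n : ℕ) :
    OUTs (φ x₀) (φ x₁) (φ x₂) (φ w) n = φ (OUTs x₀ x₁ x₂ w n) := by
  unfold OUTs
  simp only [map_add, map_mul, TS_map, R_map]

end maps

end Pool.Agent.R730.Bz
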