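import Mathlib

set_option autoImplicit false

/-!
Stone-and-bone tilings near the peripheral diagonal of the benzels: internal model.

A point `(a, b)` stands for the triple `(a, b, m - a - b)`.  Every cell of the hexagonal grid is
`(t, v)` with a type `t : Fin 3` and a point `v`.  Every tile contains one cell of each type; the
shape `sh` gives the positions of the three cells relative to a base point.
-/

namespace Pool.Agent.R730.Bz

open Finset

abbrev Pt := ℤ × ℤ

/-- the steps of type `t` -/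
def stp : Fin 3 → Fin 3 → Pt
  | 0, 0 => (0, 1)
  | 0, 1 => (1, -1)
  | 0, 2 => (1, 0)
  | 1, 0 => (-1, 0)
  | 1, 1 => (0, 1)
  | 1, 2 => (-1, 1)
  | 2, 0 => (1, -1)
  | 2, 1 => (-1, 0)
  | 2, 2 => (0, -1)

/-- offsets of the three cells of the five junction tiles -/
def jo : Fin 5 → Fin 3 → Pt
  | 0, 0 => (1, 0)
  | 0, 1 => (0, 1)
  | 0, 2 => (0, 0)
  | 1, 0 => (0, 0)
  | 1, 1 => (-1, 0)
  | 1, 2 => (0, -1)
  | 2, 0 => (0, 0)
  | 2, 1 => (-2, 1)
  | 2, 2 => (-1, 0)
  | 3, 0 => (1, -1)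
  | 3, 1 => (0, 0)
  | 3, 2 => (1, -2)
  | 4, 0 => (1, 1)
  | 4, 1 => (0, 1)
  | 4, 2 => (0, 0)

/-- the fifteen shapes -/
inductive Sh
  | z : Sh
  | s : Fin 3 → Fin 3 → Sh
  | j : Fin 5 → Sh
  deriving DecidableEq, Fintype

def off : Sh → Fin 3 → Pt
  | Sh.z, _ => (0, 0)
  | Sh.s t k, t' => if t' = t then stp t k else (0, 0)
  | Sh.j k, t' => jo k t'

abbrev Tl := Sh × Pt

/-- position of the cell of type `t` of a tile -/
def X (t : Fin 3) (τ : Tl) : Pt := τ.2 + off τ.1 t

/-- the three coordinates (the third one up to the constant `m`) -/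
def co : Fin 3 → Pt → ℤ
  | 0, v => v.1
  | 1, v => v.2
  | 2, v => -v.1 - v.2

/-- exact cover of the region whose cells of type `t` are at the points of `D t` -/
def Cov (M : Finset Tl) (D : Fin 3 → Finset Pt) : Prop :=
  ∀ t, M.image (X t) = D t ∧ Set.InjOn (X t) (M : Set Tl)

/-- all tiles whose cell of type `0` is in `D 0` -/
def cand (D : Fin 3 → Finset Pt) : Finset Tl :=
  (Finset.univ : Finset Sh).biUnion (fun sh => (D 0).image (fun v => (sh, v - off sh 0)))

lemma mem_cand {D : Fin 3 → Finset Pt} {τ : Tl} : τ ∈ cand D ↔ X 0 τ ∈ D 0 := by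
  unfold cand X
  simp only [mem_biUnion, mem_univ, true_and, mem_image]
  constructor
  · rintro ⟨sh, v, hv, rfl⟩
    simpa using hv
  · intro h
    exact ⟨τ.1, τ.2 + off τ.1 0, h, by simp⟩

open Classical in
/-- all tilings of the region -/
noncomputable def tilings (D : Fin 3 → Finset Pt) : Finset (Finset Tl) :=
  (cand D).powerset.filter (fun M => Cov M D)

lemma mem_tilings {D : Fin 3 → Finset Pt} {M : Finset Tl} : M ∈ tilings D ↔ Cov M D := by
  classical
  unfold tilings
  rw [mem_filter, mem_powerset]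
  constructor
  · exact fun h => h.2
  · intro h
    refine ⟨fun τ hτ => ?_, h⟩
    rw [mem_cand, ← (h 0).1]
    exact mem_image_of_mem _ hτ

variable {K : Type*} [CommRing K]

/-- weighted number of tilings -/
noncomputable def Z (w : Tl → K) (D : Fin 3 → Finset Pt) : K :=
  ∑ M ∈ tilings D, ∏ τ ∈ M, w τ

lemma Cov.mem {M : Finset Tl} {D : Fin 3 → Finset Pt} (h : Cov M D) {τ : Tl} (hτ : τ ∈ M)
    (t : Fin 3) : X t τ ∈ D t := by
  rw [← (h t).1]; exact mem_image_of_mem _ hτ

lemma Cov.exists {M : Finset Tl} {D : Fin 3 → Finset Pt} (h : Cov M D) {t : Fin 3} {v : Pt}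
    (hv : v ∈ D t) : ∃ τ ∈ M, X t τ = v := by
  rw [← (h t).1, mem_image] at hv; exact hv

lemma Cov.uniq {M : Finset Tl} {D : Fin 3 → Finset Pt} (h : Cov M D) {t : Fin 3} {τ τ' : Tl}
    (hτ : τ ∈ M) (hτ' : τ' ∈ M) (e : X t τ = X t τ') : τ = τ' := (h t).2 hτ hτ' e

/-- removing a tile -/
lemma Cov.erase {M : Finset Tl} {D : Fin 3 → Finset Pt} (h : Cov M D) {τ : Tl} (hτ : τ ∈ M) :
    Cov (M.erase τ) (fun t => (D t).erase (X t τ)) := by
  intro t
  refine ⟨?_, (h t).2.mono (by intro x hx; exact mem_of_mem_erase hx)⟩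
  ext v
  simp only [mem_image, mem_erase]
  constructor
  · rintro ⟨σ, ⟨hne, hσ⟩, rfl⟩
    refine ⟨fun e => hne (h.uniq hσ hτ e), h.mem hσ t⟩
  · rintro ⟨hne, hv⟩
    obtain ⟨σ, hσ, rfl⟩ := h.exists hv
    exact ⟨σ, ⟨fun e => hne (by rw [e]), hσ⟩, rfl⟩

lemma Cov.insert {M : Finset Tl} {D : Fin 3 → Finset Pt} {τ : Tl} (hD : ∀ t, X t τ ∈ D t)
    (h : Cov M (fun t => (D t).erase (X t τ))) : Cov (insert τ M) D ∧ τ ∉ M := by
  have hn : ∀ t, ∀ σ ∈ M, X t σ ≠ X t τ := by
    intro t σ hσ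
    have := h.mem hσ t
    exact (mem_erase.1 this).1
  constructor
  · intro t
    constructor
    · rw [image_insert, (h t).1, insert_erase (hD t)]
    · rw [coe_insert, Set.injOn_insert]
      · refine ⟨(h t).2, ?_⟩
        rintro ⟨σ, hσ, e⟩
        exact hn t σ hσ e
      · intro hm; exact hn t τ hm rfl
  · intro hm; exact hn 0 τ hm rfl

/-- Expansion of `Z` along the tile which covers a given cell. -/
theorem Z_rec (w : Tl → K) (D : Fin 3 → Finset Pt) {t : Fin 3} {v : Pt} (hv : v ∈ D t) :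
    Z w D = ∑ sh : Sh, if (∀ t', v - off sh t + off sh t' ∈ D t') then
      w (sh, v - off sh t) * Z w (fun t' => (D t').erase (v - off sh t + off sh t')) else 0 := by
  classical
  unfold Z
  have h1 : ∀ M ∈ tilings D, ∃! sh : Sh, ((sh, v - off sh t) : Tl) ∈ M := by
    intro M hM
    rw [mem_tilings] at hM
    obtain ⟨τ, hτ, e⟩ := hM.exists hv
    have e' : τ.2 = v - off τ.1 t := by rw [← e]; simp [X]
    refine ⟨τ.1, ?_, ?_⟩
    · show ((τ.1, v - off τ.1 t) : Tl) ∈ M
      rw [← e']; exact hτ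
    · intro sh' hs
      have : ((sh', v - off sh' t) : Tl) = τ := by
        apply hM.uniq hs hτ (t := t)
        rw [e]; simp [X]
      rw [← this]
  have h2 : ∑ M ∈ tilings D, ∏ τ ∈ M, w τ
      = ∑ sh : Sh, ∑ M ∈ (tilings D).filter (fun M => ((sh, v - off sh t) : Tl) ∈ M),
          ∏ τ ∈ M, w τ := by
    rw [Finset.sum_congr rfl (fun sh _ => Finset.sum_filter _ _), Finset.sum_comm]
    apply Finset.sum_congr rfl
    intro M hM
    obtain ⟨sh, hs, hu⟩ := h1 M hM
    rw [Finset.sum_eq_single sh]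
    · rw [if_pos hs]
    · intro sh' _ hne
      rw [if_neg]
      intro h; exact hne (hu sh' h)
    · intro h; exact absurd (mem_univ _) h
  rw [h2]
  apply Finset.sum_congr rfl
  intro sh _
  split_ifs with hc
  · rw [Finset.mul_sum]
    symm
    have hX : ∀ t', X t' (sh, v - off sh t) = v - off sh t + off sh t' := fun t' => rfl
    apply Finset.sum_bij (fun M _ => insert ((sh, v - off sh t) : Tl) M)
    · intro M hM
      rw [mem_tilings] at hM
      have := Cov.insert (τ := (sh, v - off sh t)) (D := D) hc hM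
      rw [mem_filter, mem_tilings]
      exact ⟨this.1, mem_insert_self _ _⟩
    · intro M hM M' hM' e
      rw [mem_tilings] at hM hM'
      have a1 := (Cov.insert (τ := (sh, v - off sh t)) (D := D) hc hM).2
      have a2 := (Cov.insert (τ := (sh, v - off sh t)) (D := D) hc hM').2
      rw [← erase_insert a1, ← erase_insert a2, e]
    · intro M hM
      rw [mem_filter, mem_tilings] at hM
      refine ⟨M.erase (sh, v - off sh t), ?_, insert_erase hM.2⟩
      rw [mem_tilings]
      exact hM.1.erase hM.2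
    · intro M hM
      rw [mem_tilings] at hM
      rw [Finset.prod_insert (Cov.insert (τ := (sh, v - off sh t)) (D := D) hc hM).2]
  · apply Finset.sum_eq_zero
    intro M hM
    rw [mem_filter, mem_tilings] at hM
    exact absurd (fun t' => hM.1.mem hM.2 t') hc

/-- `Z` only depends on the products over tilings -/
lemma Z_congr {w w' : Tl → K} {D : Fin 3 → Finset Pt}
    (h : ∀ M, Cov M D → ∏ τ ∈ M, w τ = ∏ τ ∈ M, w' τ) : Z w D = Z w' D := by
  unfold Z
  exact Finset.sum_congr rfl (fun M hM => h M (mem_tilings.1 hM))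

lemma Z_eq_zero {w : Tl → K} {D : Fin 3 → Finset Pt}
    (h : ∀ M, Cov M D → ∃ τ ∈ M, w τ = 0) : Z w D = 0 := by
  unfold Z
  apply Finset.sum_eq_zero
  intro M hM
  obtain ⟨τ, hτ, h0⟩ := h M (mem_tilings.1 hM)
  exact Finset.prod_eq_zero hτ h0

lemma Cov.card {M : Finset Tl} {D : Fin 3 → Finset Pt} (h : Cov M D) (t : Fin 3) :
    M.card = (D t).card := by
  rw [← (h t).1, Finset.card_image_of_injOn (h t).2]

end Pool.Agent.R730.Bz
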