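import Pool.Agent.R730.Bz.RDef

set_option autoImplicit false

/-!
The closed form of the sum `F 0 m`.
-/

namespace Pool.Agent.R730.Bz

open Finset

/-- ballot numbers, extended to all integers in the second variable -/
noncomputable def Rq : ℕ → ℤ → ℤ
  | 0, _ => 1
  | a + 1, B => Ring.choose (2 * ((a : ℤ) + 1) + B) (a + 1) - Ring.choose (2 * ((a : ℤ) + 1) + B) a

theorem Rq_zero (B : ℤ) : Rq 0 B = 1 := rfl

theorem Rq_succ (a : ℕ) (B : ℤ) : Rq (a + 1) (B + 1) = Rq (a + 1) B + Rq a (B + 2) := by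
  rcases a with _ | a
  · simp only [Rq, Nat.cast_zero, zero_add, Ring.choose_one_right, Ring.choose_zero_right]
    ring
  · simp only [Rq]
    push_cast
    have e1 : 2 * ((a : ℤ) + 1 + 1) + (B + 1) = (2 * ((a : ℤ) + 1 + 1) + B) + 1 := by ring
    have e2 : 2 * ((a : ℤ) + 1) + (B + 2) = 2 * ((a : ℤ) + 1 + 1) + B := by ring
    rw [e1, e2, Ring.choose_succ_succ, Ring.choose_succ_succ]
    ring

theorem Rq_neg_one (a : ℕ) : Rq (a + 1) (-1) = 0 := by
  simp only [Rq]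
  have e1 : 2 * ((a : ℤ) + 1) + -1 = ((2 * a + 1 : ℕ) : ℤ) := by push_cast; ring
  rw [e1, Ring.choose_natCast, Ring.choose_natCast]
  have : (2 * a + 1).choose (a + 1) = (2 * a + 1).choose a := by
    apply Nat.choose_symm_of_eq_add
    ring
  rw [this]
  ring

theorem R_eq (a : ℕ) : ∀ b : ℕ, R (1 : ℤ) 0 a b = Rq a b := by
  induction a with
  | zero =>
    intro b
    rw [R, Rq_zero, one_pow]
  | succ a ih =>
    intro b
    induction b with
    | zero =>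
      rw [R, ih 1]
      have h := Rq_succ a (-1)
      rw [Rq_neg_one] at h
      norm_num at h ⊢
      rw [h]
    | succ b ihb =>
      rw [R, ihb, ih (b + 2)]
      push_cast
      rw [Rq_succ]
      ring

/-- the cyclic triple sum -/
noncomputable def T3 (n : ℕ) (s1 s2 s3 : ℤ) : ℤ :=
  ∑ p ∈ HasAntidiagonal.antidiagonal n, ∑ q ∈ HasAntidiagonal.antidiagonal p.2,
    (Rq p.1 (q.1 + s1) * Rq q.1 (q.2 + s2) * Rq q.2 (p.1 + s3))

theorem triple_rot (n : ℕ) (f : ℕ → ℕ → ℕ → ℤ) :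
    ∑ p ∈ HasAntidiagonal.antidiagonal n, ∑ q ∈ HasAntidiagonal.antidiagonal p.2, f p.1 q.1 q.2 =
    ∑ p ∈ HasAntidiagonal.antidiagonal n, ∑ q ∈ HasAntidiagonal.antidiagonal p.2, f q.2 p.1 q.1 := by
  rw [sum_sigma', sum_sigma']
  refine sum_nbij' (fun x => ⟨(x.2.1, x.2.2 + x.1.1), (x.2.2, x.1.1)⟩)
    (fun x => ⟨(x.2.2, x.1.1 + x.2.1), (x.1.1, x.2.1)⟩) ?_ ?_ ?_ ?_ ?_
  · rintro ⟨⟨a, r⟩, ⟨b, c⟩⟩ h
    simp only [mem_sigma, HasAntidiagonal.mem_antidiagonal] at h ⊢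
    obtain ⟨h1, h2⟩ := h
    exact ⟨by omega, trivial⟩
  · rintro ⟨⟨a, r⟩, ⟨b, c⟩⟩ h
    simp only [mem_sigma, HasAntidiagonal.mem_antidiagonal] at h ⊢
    obtain ⟨h1, h2⟩ := h
    exact ⟨by omega, trivial⟩
  · rintro ⟨⟨a, r⟩, ⟨b, c⟩⟩ h
    simp only [mem_sigma, HasAntidiagonal.mem_antidiagonal] at h
    obtain ⟨h1, h2⟩ := h
    subst h2
    rfl
  · rintro ⟨⟨a, r⟩, ⟨b, c⟩⟩ h
    simp only [mem_sigma, HasAntidiagonal.mem_antidiagonal] at h
    obtain ⟨h1, h2⟩ := h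
    subst h2
    rfl
  · rintro ⟨⟨a, r⟩, ⟨b, c⟩⟩ _
    rfl

theorem T3_rot (n : ℕ) (s1 s2 s3 : ℤ) : T3 n s1 s2 s3 = T3 n s2 s3 s1 := by
  unfold T3
  rw [triple_rot n (fun a b c => Rq a (b + s1) * Rq b (c + s2) * Rq c (a + s3))]
  refine sum_congr rfl fun p _ => sum_congr rfl fun q _ => ?_
  ring

theorem T3_zero (s1 s2 s3 : ℤ) : T3 0 s1 s2 s3 = 1 := by
  unfold T3
  simp [Rq_zero]

/-- the inner sum -/
noncomputable def inn (s1 s2 s3 : ℤ) (p : ℕ × ℕ) : ℤ :=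
  ∑ q ∈ HasAntidiagonal.antidiagonal p.2,
    (Rq p.1 (q.1 + s1) * Rq q.1 (q.2 + s2) * Rq q.2 (p.1 + s3))

theorem T3_inn (n : ℕ) (s1 s2 s3 : ℤ) :
    T3 n s1 s2 s3 = ∑ p ∈ HasAntidiagonal.antidiagonal n, inn s1 s2 s3 p := rfl

theorem inn_zero (s1 s2 s3 : ℤ) (r : ℕ) : inn (s1 + 1) s2 s3 (0, r) = inn s1 s2 s3 (0, r) := by
  unfold inn
  refine sum_congr rfl fun q _ => ?_
  simp only [Rq_zero]

theorem inn_succ (s1 s2 s3 : ℤ) (a r : ℕ) : inn (s1 + 1) s2 s3 (a + 1, r) =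
    inn s1 s2 s3 (a + 1, r) + inn (s1 + 2) s2 (s3 + 1) (a, r) := by
  unfold inn
  rw [← sum_add_distrib]
  refine sum_congr rfl fun q _ => ?_
  have e1 : (q.1 : ℤ) + (s1 + 1) = (q.1 + s1) + 1 := by ring
  have e2 : (q.1 : ℤ) + (s1 + 2) = (q.1 + s1) + 2 := by ring
  have e3 : ((a + 1 : ℕ) : ℤ) + s3 = a + (s3 + 1) := by push_cast; ring
  simp only
  rw [e1, Rq_succ, e2, e3]
  ring

/-- shift of the first parameter -/
theorem T3_shift (n : ℕ) (s1 s2 s3 : ℤ) :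
    T3 (n + 1) (s1 + 1) s2 s3 = T3 (n + 1) s1 s2 s3 + T3 n (s1 + 2) s2 (s3 + 1) := by
  rw [T3_inn, T3_inn, T3_inn, Finset.Nat.sum_antidiagonal_succ, Finset.Nat.sum_antidiagonal_succ,
    inn_zero, add_assoc, ← sum_add_distrib]
  congr 1
  exact sum_congr rfl fun p _ => inn_succ s1 s2 s3 p.1 p.2

theorem T3_total (n : ℕ) : ∀ s1 s2 s3 : ℤ, T3 n s1 s2 s3 = T3 n (s1 + s2 + s3) 0 0 := by
  induction n with
  | zero =>
    intro s1 s2 s3
    rw [T3_zero, T3_zero]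
  | succ n ih =>
    have h12 : ∀ s1 s2 s3 : ℤ, T3 (n + 1) (s1 + 1) s2 s3 = T3 (n + 1) s1 (s2 + 1) s3 := by
      intro s1 s2 s3
      rw [T3_rot (n + 1) s1 (s2 + 1) s3, T3_shift, T3_shift, T3_rot (n + 1) s1 s2 s3,
        ih (s1 + 2), ih (s2 + 2)]
      congr 2
      ring
    have h12' : ∀ (k : ℤ) (s1 s2 s3 : ℤ), T3 (n + 1) (s1 + k) (s2 - k) s3 = T3 (n + 1) s1 s2 s3 := by
      intro k
      induction k using Int.induction_on with
      | zero => intro s1 s2 s3; rw [add_zero, sub_zero]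
      | succ k ihk =>
        intro s1 s2 s3
        rw [← ihk s1 s2 s3, ← add_assoc, h12]
        congr 1
        ring
      | pred k ihk =>
        intro s1 s2 s3
        rw [← ihk s1 s2 s3]
        have := h12 (s1 + (-(k : ℤ) - 1)) (s2 - (-(k : ℤ))) s3
        rw [show s1 + (-(k : ℤ) - 1) + 1 = s1 + -(k : ℤ) by ring] at this
        rw [this]
        congr 1
        ring
    intro s1 s2 s3
    have h1 := h12' s2 s1 s2 s3
    rw [sub_self] at h1
    have h2 := h12' s3 0 s3 (s1 + s2)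
    rw [sub_self, zero_add] at h2
    have h3 := h12' s3 (s1 + s2) s3 0
    rw [sub_self] at h3
    rw [← h1, h3, T3_rot (n + 1) (s1 + s2) 0 s3, ← h2, T3_rot (n + 1) s3, T3_rot (n + 1) 0]

/-- the sum as a function of the total -/
noncomputable def U (n : ℕ) (s : ℤ) : ℤ := T3 n s 0 0

theorem T3_eq_U (n : ℕ) (s1 s2 s3 : ℤ) : T3 n s1 s2 s3 = U n (s1 + s2 + s3) := T3_total n s1 s2 s3

theorem U_zero (s : ℤ) : U 0 s = 1 := T3_zero _ _ _

theorem U_succ (n : ℕ) (s : ℤ) : U (n + 1) (s + 1) = U (n + 1) s + U n (s + 3) := by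
  unfold U
  rw [T3_shift, T3_total n (s + 2) 0 (0 + 1)]
  congr 2
  ring

theorem U_one (s : ℤ) : U 1 s = s + 3 := by
  have h0 : ∀ B : ℤ, Rq 1 B = B + 1 := by
    intro B
    simp only [Rq, Nat.cast_zero, zero_add, Ring.choose_one_right, Ring.choose_zero_right]
    ring
  unfold U
  rw [T3_inn, Finset.Nat.sum_antidiagonal_succ, Finset.Nat.antidiagonal_zero, sum_singleton]
  unfold inn
  simp only [Finset.Nat.antidiagonal_zero, sum_singleton, zero_add, Finset.Nat.sum_antidiagonal_succ,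
    Rq_zero, h0]
  push_cast
  ring

/-- `F 0 n` in terms of `U` -/
theorem F_eq (n : ℕ) : F 0 (n + 1) = U (n + 1) 0 - 3 * U n 1 := by
  have h1 : F 0 (n + 1) = T3 (n + 1) 0 0 0 - 3 *
      ∑ p ∈ HasAntidiagonal.antidiagonal (n + 1), ∑ q ∈ HasAntidiagonal.antidiagonal p.2,
        (R (1 : ℤ) 0 p.1 q.1 * R 1 0 q.1 q.2 * Rm 1 0 q.2 p.1) := by
    unfold F T3
    rw [mul_sum, ← sum_sub_distrib]
    refine sum_congr rfl fun p _ => ?_
    rw [mul_sum, ← sum_sub_distrib]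
    refine sum_congr rfl fun q _ => ?_
    rw [R_eq, R_eq, R_eq, add_zero, add_zero, add_zero]
    ring
  have h2 : ∑ p ∈ HasAntidiagonal.antidiagonal (n + 1), ∑ q ∈ HasAntidiagonal.antidiagonal p.2,
        (R (1 : ℤ) 0 p.1 q.1 * R 1 0 q.1 q.2 * Rm 1 0 q.2 p.1) = T3 n 0 1 0 := by
    rw [Finset.Nat.sum_antidiagonal_succ']
    have h3 : ∑ q ∈ HasAntidiagonal.antidiagonal ((n + 1, 0) : ℕ × ℕ).2,
        (R (1 : ℤ) 0 ((n + 1, 0) : ℕ × ℕ).1 q.1 * R 1 0 q.1 q.2 * Rm 1 0 q.2 ((n + 1, 0) : ℕ × ℕ).1) = 0 := by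
      simp [Rm]
    rw [h3, zero_add]
    unfold T3
    refine sum_congr rfl fun p _ => ?_
    simp only
    rw [Finset.Nat.sum_antidiagonal_succ']
    simp only [Rm, mul_zero, zero_add]
    refine sum_congr rfl fun q _ => ?_
    rw [R_eq, R_eq, R_eq]
    push_cast
    ring
  rw [h1, h2, T3_eq_U, T3_eq_U]
  norm_num

theorem triple_sum (n : ℕ) (h : ℕ → ℕ → ℕ → ℤ) (L : Finset (ℕ × ℕ × ℕ))
    (hL : ∀ t ∈ L, t.1 + t.2.1 + t.2.2 = n)
    (h0 : ∀ a b c, a + b + c = n → (a, b, c) ∉ L → h a b c = 0) :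
    ∑ p ∈ HasAntidiagonal.antidiagonal n, ∑ q ∈ HasAntidiagonal.antidiagonal p.2, h p.1 q.1 q.2 =
      ∑ t ∈ L, h t.1 t.2.1 t.2.2 := by
  have h1 : L ⊆ ((range (n + 1)) ×ˢ (range (n + 1)) ×ˢ (range (n + 1))).filter
      (fun t : ℕ × ℕ × ℕ => t.1 + t.2.1 + t.2.2 = n) := by
    intro t ht
    have := hL t ht
    rw [mem_filter, mem_product, mem_product, mem_range, mem_range, mem_range]
    omega
  rw [sum_subset h1, sum_sigma']
  · refine sum_nbij' (fun x => (x.1.1, x.2.1, x.2.2)) (fun t => ⟨(t.1, t.2.1 + t.2.2), (t.2.1, t.2.2)⟩)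
      ?_ ?_ ?_ ?_ ?_
    · rintro ⟨⟨a, r⟩, ⟨b, c⟩⟩ hx
      simp only [mem_sigma, HasAntidiagonal.mem_antidiagonal] at hx
      simp only [mem_filter, mem_product, mem_range]
      omega
    · rintro ⟨a, b, c⟩ hx
      simp only [mem_filter, mem_product, mem_range] at hx
      simp only [mem_sigma, HasAntidiagonal.mem_antidiagonal]
      exact ⟨by omega, trivial⟩
    · rintro ⟨⟨a, r⟩, ⟨b, c⟩⟩ hx
      simp only [mem_sigma, HasAntidiagonal.mem_antidiagonal] at hx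
      obtain ⟨h1, h2⟩ := hx
      subst h2
      rfl
    · rintro ⟨a, b, c⟩ _
      rfl
    · rintro ⟨⟨a, r⟩, ⟨b, c⟩⟩ _
      rfl
  · rintro ⟨a, b, c⟩ ht hnot
    rw [mem_filter] at ht
    exact h0 a b c ht.2 hnot

/-- the values at the negative arguments -/
def g : ℕ → ℕ → ℤ
  | 0, _ => 1
  | a + 1, c => ((c + 1).choose (a + 1) : ℤ) + (c.choose a : ℤ)

theorem Rq_neg (a c : ℕ) : Rq a (-(a : ℤ) - c - 2) = (-1) ^ a * g a c := by
  rcases a with _ | a
  · simp [Rq, g]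
  · simp only [Rq, g]
    have e1 : 2 * ((a : ℤ) + 1) + (-((a + 1 : ℕ) : ℤ) - c - 2) = -((c : ℤ) + 1 - a) := by
      push_cast; ring
    rw [e1, Ring.choose_neg, Ring.choose_neg]
    have e2 : (c : ℤ) + 1 - a + ((a + 1 : ℕ) : ℤ) - 1 = ((c + 1 : ℕ) : ℤ) := by push_cast; ring
    have e3 : (c : ℤ) + 1 - a + (a : ℤ) - 1 = ((c : ℕ) : ℤ) := by ring
    rw [e2, e3, Ring.choose_natCast, Ring.choose_natCast]
    rw [Int.negOnePow_def, Int.negOnePow_def, Units.smul_def, Units.smul_def]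
    push_cast
    simp only [zpow_natCast, smul_eq_mul]
    have e4 : ((-1 : ℤˣ) ^ ((a : ℤ) + 1)) = (-1 : ℤˣ) ^ (a + 1) := by
      rw [← zpow_natCast]
      push_cast
      rfl
    rw [e4]
    push_cast
    ring

theorem g_far {a c : ℕ} (h : c + 2 ≤ a) : g a c = 0 := by
  obtain ⟨a, rfl⟩ : ∃ a', a = a' + 1 := ⟨a - 1, by omega⟩
  simp only [g]
  rw [Nat.choose_eq_zero_of_lt (by omega), Nat.choose_eq_zero_of_lt (by omega)]
  simp

theorem g_pred (c : ℕ) : g (c + 1) c = 2 := by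
  simp [g]

theorem g_self (a : ℕ) : g a a = 2 * a + 1 := by
  rcases a with _ | a
  · simp [g]
  · simp only [g]
    have e1 : (a + 1 + 1).choose (a + 1) = a + 2 := by
      rw [Nat.choose_symm_of_eq_add (by ring : a + 1 + 1 = (a + 1) + 1), Nat.choose_one_right]
    have e2 : (a + 1).choose a = a + 1 := by
      rw [Nat.choose_symm_of_eq_add (by ring : a + 1 = a + 1), Nat.choose_one_right]
    rw [e1, e2]
    push_cast
    ring

theorem two_choose (x : ℕ) : 2 * ((x + 2).choose 2 : ℤ) = (x + 2) * (x + 1) := by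
  have h := Nat.triangle_succ (x + 1)
  have h2 : (x + 2).choose 2 = (x + 2) * (x + 1) / 2 := by
    rw [Nat.choose_two_right]; rfl
  have h3 : 2 ∣ (x + 2) * (x + 1) := by
    rw [mul_comm]
    exact (Nat.even_mul_succ_self (x + 1)).two_dvd
  rw [h2]
  have h4 : 2 * ((x + 2) * (x + 1) / 2) = (x + 2) * (x + 1) := Nat.mul_div_cancel' h3
  exact_mod_cast h4

theorem six_choose (x : ℕ) : 6 * ((x + 3).choose 3 : ℤ) = (x + 3) * (x + 2) * (x + 1) := by
  have h1 := Nat.add_one_mul_choose_eq (x + 2) 2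
  have h2 := two_choose x
  have h3 : ((x : ℤ) + 3) * ((x + 2).choose 2 : ℤ) = ((x + 3).choose 3 : ℤ) * 3 := by
    have := congrArg (Nat.cast (R := ℤ)) h1
    push_cast at this
    have e : ((x : ℤ) + 2 + 1) = (x : ℤ) + 3 := by ring
    rw [e] at this
    rw [this]
  linarith [h2, h3, congrArg (fun z => ((x : ℤ) + 3) * z) h2]

theorem g_one (a : ℕ) : g a (a + 1) = ((a : ℤ) + 1) ^ 2 := by
  rcases a with _ | a
  · simp [g]
  · simp only [g]
    have e1 : (a + 1 + 1 + 1).choose (a + 1) = (a + 3).choose 2 :=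
      Nat.choose_symm_of_eq_add (by ring)
    have e2 : (a + 1 + 1).choose a = (a + 2).choose 2 := Nat.choose_symm_of_eq_add (by ring)
    rw [e1, e2]
    have h1 := two_choose (a + 1)
    have h2 := two_choose a
    push_cast at h1 h2 ⊢
    have e3 : (a + 1 + 2).choose 2 = (a + 3).choose 2 := rfl
    rw [e3] at h1
    linarith

theorem g_two (a : ℕ) : 6 * g a (a + 2) = (2 * (a : ℤ) + 3) * (a + 1) * (a + 2) := by
  rcases a with _ | a
  · simp [g]
  · simp only [g]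
    have e1 : (a + 1 + 2 + 1).choose (a + 1) = (a + 4).choose 3 :=
      Nat.choose_symm_of_eq_add (by ring)
    have e2 : (a + 1 + 2).choose a = (a + 3).choose 3 := Nat.choose_symm_of_eq_add (by ring)
    rw [e1, e2]
    have h1 := six_choose (a + 1)
    have h2 := six_choose a
    push_cast at h1 h2 ⊢
    have e3 : (a + 1 + 3).choose 3 = (a + 4).choose 3 := rfl
    rw [e3] at h1
    linarith

/-- the triple sum of the values of `g` -/
def G3 (n : ℕ) : ℤ := ∑ p ∈ HasAntidiagonal.antidiagonal n, ∑ q ∈ HasAntidiagonal.antidiagonal p.2,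
    (g p.1 q.2 * g q.1 p.1 * g q.2 q.1)

theorem U_special (n : ℕ) : U n (-3 * n - 6) = (-1) ^ n * G3 n := by
  have h1 := T3_eq_U n (-(n : ℤ) - 2) (-(n : ℤ) - 2) (-(n : ℤ) - 2)
  have e1 : -(n : ℤ) - 2 + (-(n : ℤ) - 2) + (-(n : ℤ) - 2) = -3 * n - 6 := by ring
  rw [e1] at h1
  rw [← h1]
  unfold T3 G3
  rw [mul_sum]
  refine sum_congr rfl fun p hp => ?_
  rw [mul_sum]
  refine sum_congr rfl fun q hq => ?_
  rw [HasAntidiagonal.mem_antidiagonal] at hp hq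
  have e2 : (q.1 : ℤ) + (-(n : ℤ) - 2) = -(p.1 : ℤ) - q.2 - 2 := by rw [← hp, ← hq]; push_cast; ring
  have e3 : (q.2 : ℤ) + (-(n : ℤ) - 2) = -(q.1 : ℤ) - p.1 - 2 := by rw [← hp, ← hq]; push_cast; ring
  have e4 : (p.1 : ℤ) + (-(n : ℤ) - 2) = -(q.2 : ℤ) - q.1 - 2 := by rw [← hp, ← hq]; push_cast; ring
  rw [e2, e3, e4, Rq_neg, Rq_neg, Rq_neg]
  have e5 : ((-1 : ℤ)) ^ n = (-1) ^ p.1 * (-1) ^ q.1 * (-1) ^ q.2 := by
    rw [← pow_add, ← pow_add, add_assoc, hq, hp]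
  rw [e5]
  ring

theorem G3_zero (k : ℕ) : G3 (3 * k + 3) = (2 * (k : ℤ) + 3) * (6 * (k + 1) ^ 2 + 6 * (k + 1) + 1) := by
  unfold G3
  rw [triple_sum (3 * k + 3) (fun a b c => g a c * g b a * g c b)
    {(k + 1, k + 1, k + 1), (k, k + 1, k + 2), (k + 2, k, k + 1), (k + 1, k + 2, k)}]
  · rw [sum_insert (by simp), sum_insert (by simp), sum_insert (by simp), sum_singleton]
    simp only
    have h1 := g_self (k + 1)
    have h2 := g_two k
    have h3 := g_pred k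
    have h4 := g_pred (k + 1)
    have e : k + 1 + 1 = k + 2 := rfl
    rw [e] at h4
    rw [h1, h3, h4]
    push_cast
    linear_combination 2 * h2
  · intro t ht
    simp only [mem_insert, mem_singleton] at ht
    rcases ht with rfl | rfl | rfl | rfl <;> simp only <;> ring
  · intro a b c habc hnot
    simp only [mem_insert, mem_singleton, Prod.mk.injEq] at hnot
    by_cases h1 : c + 2 ≤ a
    · rw [g_far h1]; ring
    by_cases h2 : a + 2 ≤ b
    · rw [g_far h2]; ring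
    by_cases h3 : b + 2 ≤ c
    · rw [g_far h3]; ring
    exfalso
    omega

theorem G3_one (k : ℕ) : G3 (3 * k + 1) = 6 * ((k : ℤ) + 1) ^ 2 * (2 * k + 1) := by
  unfold G3
  rw [triple_sum (3 * k + 1) (fun a b c => g a c * g b a * g c b)
    {(k + 1, k, k), (k, k + 1, k), (k, k, k + 1)}]
  · rw [sum_insert (by simp), sum_insert (by simp), sum_singleton]
    simp only
    rw [g_self k, g_one k, g_pred k]
    ring
  · intro t ht
    simp only [mem_insert, mem_singleton] at ht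
    rcases ht with rfl | rfl | rfl <;> simp only <;> ring
  · intro a b c habc hnot
    simp only [mem_insert, mem_singleton, Prod.mk.injEq] at hnot
    by_cases h1 : c + 2 ≤ a
    · rw [g_far h1]; ring
    by_cases h2 : a + 2 ≤ b
    · rw [g_far h2]; ring
    by_cases h3 : b + 2 ≤ c
    · rw [g_far h3]; ring
    exfalso
    omega

theorem G3_two (k : ℕ) : G3 (3 * k + 2) = 6 * (2 * (k : ℤ) + 3) * (k + 1) ^ 2 := by
  unfold G3
  rw [triple_sum (3 * k + 2) (fun a b c => g a c * g b a * g c b)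
    {(k + 1, k + 1, k), (k, k + 1, k + 1), (k + 1, k, k + 1)}]
  · rw [sum_insert (by simp), sum_insert (by simp), sum_singleton]
    simp only
    have h1 := g_self (k + 1)
    rw [h1, g_one k, g_pred k]
    push_cast
    ring
  · intro t ht
    simp only [mem_insert, mem_singleton] at ht
    rcases ht with rfl | rfl | rfl <;> simp only <;> ring
  · intro a b c habc hnot
    simp only [mem_insert, mem_singleton, Prod.mk.injEq] at hnot
    by_cases h1 : c + 2 ≤ a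
    · rw [g_far h1]; ring
    by_cases h2 : a + 2 ≤ b
    · rw [g_far h2]; ring
    by_cases h3 : b + 2 ≤ c
    · rw [g_far h3]; ring
    exfalso
    omega

theorem G3_zero' (k : ℕ) : G3 (3 * k) = (2 * (k : ℤ) + 1) * (6 * k ^ 2 + 6 * k + 1) := by
  rcases k with _ | k
  · simp [G3, g]
  · have h := G3_zero k
    have e : 3 * (k + 1) = 3 * k + 3 := by ring
    rw [e, h]
    push_cast
    ring

theorem G3_sum (n : ℕ) : 3 * (G3 (n + 2) + G3 (n + 1) + G3 n) =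
    4 * ((n : ℤ) + 2) ^ 3 + 6 * (n + 2) ^ 2 + 8 * (n + 2) + 3 := by
  obtain ⟨k, hk⟩ : ∃ k, n = 3 * k ∨ n = 3 * k + 1 ∨ n = 3 * k + 2 := ⟨n / 3, by omega⟩
  rcases hk with rfl | rfl | rfl
  · rw [G3_two, G3_one, G3_zero']
    push_cast
    ring
  · have e1 : 3 * k + 1 + 2 = 3 * (k + 1) := by ring
    have e2 : 3 * k + 1 + 1 = 3 * k + 2 := by ring
    rw [e1, e2, G3_two, G3_one, G3_zero']
    push_cast
    ring
  · have e1 : 3 * k + 2 + 2 = 3 * (k + 1) + 1 := by ring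
    have e2 : 3 * k + 2 + 1 = 3 * (k + 1) := by ring
    rw [e1, e2, G3_two, G3_one, G3_zero']
    push_cast
    ring

/-- the closed form -/
noncomputable def H (n : ℕ) (s : ℤ) : ℤ := 4 * Rq n (n + s) - 4 * Rq n (n + s + 1) + Rq n (n + s + 2)

theorem H_succ (n : ℕ) (s : ℤ) : H (n + 1) (s + 1) = H (n + 1) s + H n (s + 3) := by
  unfold H
  have e1 : ((n + 1 : ℕ) : ℤ) + (s + 1) = ((n + 1 : ℕ) : ℤ) + s + 1 := by ring
  have e2 : ((n + 1 : ℕ) : ℤ) + (s + 1) + 1 = (((n + 1 : ℕ) : ℤ) + s + 1) + 1 := by ring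
  have e3 : ((n + 1 : ℕ) : ℤ) + (s + 1) + 2 = (((n + 1 : ℕ) : ℤ) + s + 2) + 1 := by ring
  rw [e2, e3, e1]
  have h1 := Rq_succ n (((n + 1 : ℕ) : ℤ) + s)
  have h2 := Rq_succ n (((n + 1 : ℕ) : ℤ) + s + 1)
  have h3 := Rq_succ n (((n + 1 : ℕ) : ℤ) + s + 2)
  have f1 : (n : ℤ) + (s + 3) = ((n + 1 : ℕ) : ℤ) + s + 2 := by push_cast; ring
  have f2 : (n : ℤ) + (s + 3) + 1 = ((n + 1 : ℕ) : ℤ) + s + 1 + 2 := by push_cast; ring
  have f3 : (n : ℤ) + (s + 3) + 2 = ((n + 1 : ℕ) : ℤ) + s + 2 + 2 := by push_cast; ring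
  rw [f2, f3, f1]
  rw [h1, h3, h2, h1]
  have f4 : ((n + 1 : ℕ) : ℤ) + s + 1 + 1 = ((n + 1 : ℕ) : ℤ) + s + 2 := by ring
  have h5 : Rq (n + 1) (((n + 1 : ℕ) : ℤ) + s + 2) = Rq (n + 1) (((n + 1 : ℕ) : ℤ) + s + 1) +
      Rq n (((n + 1 : ℕ) : ℤ) + s + 1 + 2) := by rw [← f4]; exact h2
  linarith

theorem H_one (s : ℤ) : H 1 s = s := by
  have h0 : ∀ B : ℤ, Rq 1 B = B + 1 := by
    intro B
    simp only [Rq, Nat.cast_zero, zero_add, Ring.choose_one_right, Ring.choose_zero_right]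
    ring
  unfold H
  rw [h0, h0, h0]
  push_cast
  ring

theorem H_special (n : ℕ) : 3 * H n (-3 * n - 4) = (-1) ^ n * (4 * (n : ℤ) ^ 3 + 6 * n ^ 2 + 8 * n + 3) := by
  unfold H
  have e1 : (n : ℤ) + (-3 * n - 4) = -(n : ℤ) - ((n + 2 : ℕ) : ℤ) - 2 := by push_cast; ring
  have e2 : (n : ℤ) + (-3 * n - 4) + 1 = -(n : ℤ) - ((n + 1 : ℕ) : ℤ) - 2 := by push_cast; ring
  have e3 : (n : ℤ) + (-3 * n - 4) + 2 = -(n : ℤ) - (n : ℤ) - 2 := by ring
  rw [e2, e3, e1, Rq_neg, Rq_neg, Rq_neg, g_one, g_self]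
  have h := g_two n
  linear_combination (2 * (-1) ^ n) * h

theorem E_main (n : ℕ) : ∀ s : ℤ, U (n + 1) s - 3 * U n (s + 1) = H (n + 1) s := by
  induction n with
  | zero =>
    intro s
    rw [zero_add, U_one, U_zero, H_one]
    ring
  | succ n ih =>
    -- the difference is constant
    have hstep : ∀ s : ℤ, U (n + 1 + 1) (s + 1) - 3 * U (n + 1) (s + 1 + 1) - H (n + 1 + 1) (s + 1) =
        U (n + 1 + 1) s - 3 * U (n + 1) (s + 1) - H (n + 1 + 1) s := by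
      intro s
      have h1 := U_succ (n + 1) s
      have h2 := U_succ n (s + 1)
      have h3 := H_succ (n + 1) s
      have h4 := ih (s + 3)
      have e : s + 1 + 3 = s + 3 + 1 := by ring
      rw [e] at h2
      linarith
    have hconst : ∀ s : ℤ, U (n + 1 + 1) s - 3 * U (n + 1) (s + 1) - H (n + 1 + 1) s =
        U (n + 1 + 1) 0 - 3 * U (n + 1) (0 + 1) - H (n + 1 + 1) 0 := by
      intro s
      induction s using Int.induction_on with
      | zero => rfl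
      | succ i ihi => rw [hstep]; exact ihi
      | pred i ihi =>
        rw [← ihi]
        have := hstep (-(i : ℤ) - 1)
        rw [sub_add_cancel] at this
        rw [this]
        congr 3
        ring
    -- the special value
    have hsp : U (n + 1 + 1) (-3 * ((n + 1 + 1 : ℕ) : ℤ) - 4) -
        3 * U (n + 1) (-3 * ((n + 1 + 1 : ℕ) : ℤ) - 4 + 1) - H (n + 1 + 1) (-3 * ((n + 1 + 1 : ℕ) : ℤ) - 4) = 0 := by
      obtain ⟨s0, hs0⟩ : ∃ s0 : ℤ, s0 = -3 * ((n + 1 + 1 : ℕ) : ℤ) - 4 := ⟨_, rfl⟩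
      have a1 := U_succ (n + 1) (s0 - 1)
      have a2 := U_succ (n + 1) (s0 - 2)
      have a3 := U_succ n (s0 + 1)
      have b1 := U_special (n + 1 + 1)
      have b2 := U_special (n + 1)
      have b3 := U_special n
      have c := H_special (n + 1 + 1)
      have d := G3_sum n
      rw [← hs0] at c ⊢
      rw [show s0 - 1 + 1 = s0 by ring, show s0 - 1 + 3 = s0 + 2 by ring] at a1
      rw [show s0 - 2 + 1 = s0 - 1 by ring, show s0 - 2 + 3 = s0 + 1 by ring] at a2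
      rw [show s0 + 1 + 1 = s0 + 2 by ring, show s0 + 1 + 3 = s0 + 4 by ring] at a3
      rw [show -3 * ((n + 1 + 1 : ℕ) : ℤ) - 6 = s0 - 2 by rw [hs0]; ring] at b1
      rw [show -3 * ((n + 1 : ℕ) : ℤ) - 6 = s0 + 1 by rw [hs0]; push_cast; ring] at b2
      rw [show -3 * (n : ℤ) - 6 = s0 + 4 by rw [hs0]; push_cast; ring] at b3
      have e1 : n + 1 + 1 = n + 2 := rfl
      rw [e1] at *
      have p1 : ((-1 : ℤ)) ^ (n + 2) = (-1) ^ n := by rw [pow_add]; ring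
      have p2 : ((-1 : ℤ)) ^ (n + 1) = - (-1) ^ n := by rw [pow_succ]; ring
      rw [p1] at b1 c
      rw [p2] at b2
      have q : 3 * (U (n + 2) s0 - 3 * U (n + 1) (s0 + 1) - H (n + 2) s0) = 0 := by
        push_cast at c
        linear_combination 3 * a1 + 3 * a2 + 3 * a3 + 3 * b1 - 3 * b2 + 3 * b3 - c + (-1) ^ n * d
      linarith
    intro s
    have h1 := hconst s
    rw [← hconst (-3 * ((n + 1 + 1 : ℕ) : ℤ) - 4), hsp] at h1
    linarith

theorem F_zero (m : ℕ) (hm : 3 ≤ m) : (m : ℤ) * F 0 m = (m + 3) * (Nat.choose (3 * m) (m - 3) : ℤ) := by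
  obtain ⟨n, rfl⟩ : ∃ n, m = n + 3 := ⟨m - 3, by omega⟩
  have h1 : F 0 (n + 3) = H (n + 3) 0 := by
    have h2 := F_eq (n + 2)
    have h3 := E_main (n + 2) 0
    rw [zero_add] at h3
    rw [h2]
    exact h3
  rw [h1]
  unfold H
  simp only [Rq]
  have e1 : 2 * (((n + 2 : ℕ) : ℤ) + 1) + (((n + 3 : ℕ) : ℤ) + 0) = ((3 * n + 9 : ℕ) : ℤ) := by
    push_cast; ring
  have e2 : 2 * (((n + 2 : ℕ) : ℤ) + 1) + (((n + 3 : ℕ) : ℤ) + 0 + 1) = ((3 * n + 9 + 1 : ℕ) : ℤ) := by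
    push_cast; ring
  have e3 : 2 * (((n + 2 : ℕ) : ℤ) + 1) + (((n + 3 : ℕ) : ℤ) + 0 + 2) = ((3 * n + 9 + 1 + 1 : ℕ) : ℤ) := by
    push_cast; ring
  rw [e1, e2, e3, Ring.choose_natCast, Ring.choose_natCast, Ring.choose_natCast, Ring.choose_natCast,
    Ring.choose_natCast, Ring.choose_natCast]
  have k0 : n + 2 + 1 = n + 3 := rfl
  have k1 := Nat.choose_succ_succ (3 * n + 9 + 1) (n + 2)
  have k2 := Nat.choose_succ_succ (3 * n + 9 + 1) (n + 1)
  have k3 := Nat.choose_succ_succ (3 * n + 9) (n + 2)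
  have k4 := Nat.choose_succ_succ (3 * n + 9) (n + 1)
  have k5 := Nat.choose_succ_succ (3 * n + 9) n
  have r0 := Nat.choose_succ_right_eq (3 * n + 9) (n + 2)
  have r1 := Nat.choose_succ_right_eq (3 * n + 9) (n + 1)
  have r2 := Nat.choose_succ_right_eq (3 * n + 9) n
  have s0 : 3 * n + 9 - (n + 2) = 2 * n + 7 := by omega
  have s1 : 3 * n + 9 - (n + 1) = 2 * n + 8 := by omega
  have s2 : 3 * n + 9 - n = 2 * n + 9 := by omega
  have s3 : n + 3 - 3 = n := by omega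
  have s4 : 3 * (n + 3) = 3 * n + 9 := by ring
  rw [s0] at r0
  rw [s1] at r1
  rw [s2] at r2
  rw [s3, s4]
  simp only [Nat.succ_eq_add_one] at k1 k2 k3 k4 k5
  rw [k1, k2, k3, k4, k5]
  have r0' := congrArg (Nat.cast (R := ℤ)) r0
  have r1' := congrArg (Nat.cast (R := ℤ)) r1
  have r2' := congrArg (Nat.cast (R := ℤ)) r2
  push_cast at r0' r1' r2' ⊢
  rw [show n + 2 + 1 = n + 3 from rfl] at *
  rw [show n + 1 + 1 = n + 2 from rfl] at *
  linear_combination r0' - r1' + r2'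

end Pool.Agent.R730.Bz
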