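import Pool.Agent.R730.Bz.Defs

set_option autoImplicit false

/-!
Gaps and chains: a tiling of the `(m+2, 2m+1)`-region contains no junction tile.
-/

namespace Pool.Agent.R730.Bz

open Finset

def St (t : Fin 3) (τ : Tl) : Prop := ∃ k, τ.1 = Sh.s t k

def Ju (τ : Tl) : Prop := ∃ k, τ.1 = Sh.j k

/-- `τ` straddles the gap between the levels `a` and `a+1` of the coordinate `t` -/
def Str (t : Fin 3) (a : ℤ) (τ : Tl) : Prop := co t (X (t + 1) τ) ≤ a ∧ a < co t (X t τ)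

lemma gap_le (t : Fin 3) (τ : Tl) : co t (X (t + 1) τ) ≤ co t (X t τ) := by
  obtain ⟨sh, v⟩ := τ
  cases sh with
  | z => fin_cases t <;> simp [X, off, co]
  | s t' k => fin_cases t <;> fin_cases t' <;> fin_cases k <;> simp [X, off, co, stp] <;> omega
  | j k => fin_cases t <;> fin_cases k <;> simp [X, off, co, jo] <;> omega

lemma ju_lt (t : Fin 3) {τ : Tl} (h : Ju τ) : co t (X (t + 1) τ) < co t (X t τ) := by
  obtain ⟨sh, v⟩ := τ
  obtain ⟨k, hk⟩ := h
  simp only at hk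
  subst hk
  fin_cases t <;> fin_cases k <;> simp [X, off, co, jo] <;> omega

lemma st_X {t : Fin 3} {τ : Tl} (h : St t τ) : X (t + 1) τ = τ.2 ∧ X (t + 2) τ = τ.2 := by
  obtain ⟨sh, v⟩ := τ
  obtain ⟨k, hk⟩ := h
  simp only at hk
  subst hk
  fin_cases t <;> simp [X, off]

lemma st_co {t : Fin 3} {τ : Tl} (h : St t τ) : co t τ.2 ≤ co t (X t τ) ∧
    co (t + 2) (X t τ) ≤ co (t + 2) τ.2 ∧
    co t τ.2 - co (t + 2) τ.2 < co t (X t τ) - co (t + 2) (X t τ) := by
  obtain ⟨sh, v⟩ := τ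
  obtain ⟨k, hk⟩ := h
  simp only at hk
  subst hk
  fin_cases t <;> fin_cases k <;> simp [X, off, co, stp] <;> omega

lemma st_ne {t : Fin 3} {τ : Tl} (h : St t τ) : X t τ ≠ τ.2 := by
  intro e
  have := (st_co h).2.2
  rw [e] at this
  exact lt_irrefl _ this

lemma classify {t : Fin 3} {τ : Tl} (h1 : X (t + 1) τ ≠ X t τ) (h2 : X (t + 2) τ ≠ X t τ) :
    St t τ ∨ Ju τ := by
  obtain ⟨sh, v⟩ := τ
  cases sh with
  | z => exact absurd rfl h1
  | s t' k =>
    left
    by_cases e : t' = t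
    · subst e; exact ⟨k, rfl⟩
    · exfalso
      have : X t (Sh.s t' k, v) = v := by simp [X, off, Ne.symm e]
      rw [this] at h1 h2
      have hh : t + 1 ≠ t' ∨ t + 2 ≠ t' := by
        fin_cases t <;> fin_cases t' <;> simp_all
      rcases hh with hh | hh
      · exact h1 (by simp [X, off, hh])
      · exact h2 (by simp [X, off, hh])
  | j k => exact Or.inr ⟨k, rfl⟩

lemma classify' {t : Fin 3} {τ : Tl} (h1 : X (t + 1) τ ≠ X t τ) (h2 : X (t + 1) τ = X (t + 2) τ) :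
    St t τ := by
  rcases classify h1 (by rw [← h2]; exact h1) with h | h
  · exact h
  · exfalso
    have := ju_lt (t + 1) h
    rw [show t + 1 + 1 = t + 2 by fin_cases t <;> rfl, ← h2] at this
    exact lt_irrefl _ this

lemma st_not_ju {t : Fin 3} {τ : Tl} (h : St t τ) : ¬ Ju τ := by
  rintro ⟨k, hk⟩
  obtain ⟨k', hk'⟩ := h
  rw [hk] at hk'
  exact Sh.noConfusion hk'

/-- hypotheses used by all chain arguments -/
structure Sys (m : ℤ) (M : Finset Tl) (D : Fin 3 → Finset Pt) : Prop where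
  cov : Cov M D
  sub : ∀ t, ∀ v ∈ D t, 0 ≤ v.1 ∧ 0 ≤ v.2 ∧ v.1 + v.2 ≤ m
  uniq : ∀ t a, ∀ τ ∈ M, ∀ τ' ∈ M, Str t a τ → Str t a τ' → τ = τ'

/-- the cell of type `t` at `v` is covered (if present) by a tile which has no other cell at `v` -/
def Ext (M : Finset Tl) (t : Fin 3) (v : Pt) : Prop :=
  ∀ τ ∈ M, X t τ = v → X (t + 1) τ ≠ v ∧ X (t + 2) τ ≠ v

/-- the gaps of coordinates `t` and `t+2` between `x` and `y` are straddled by steps of type `t` -/
structure Seg (M : Finset Tl) (t : Fin 3) (x y : Pt) : Prop where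
  le1 : co t x ≤ co t y
  le2 : co (t + 2) y ≤ co (t + 2) x
  g1 : ∀ a, co t x ≤ a → a < co t y → ∃ τ ∈ M, St t τ ∧ Str t a τ
  g2 : ∀ a, co (t + 2) y ≤ a → a < co (t + 2) x → ∃ τ ∈ M, St t τ ∧ Str (t + 2) a τ

lemma Seg.refl (M : Finset Tl) (t : Fin 3) (x : Pt) : Seg M t x x :=
  ⟨le_rfl, le_rfl, fun a h1 h2 => absurd h1 (not_le.2 h2), fun a h1 h2 => absurd h1 (not_le.2 h2)⟩

lemma Seg.trans {M : Finset Tl} {t : Fin 3} {x y z : Pt} (h : Seg M t x y) (h' : Seg M t y z) :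
    Seg M t x z := by
  refine ⟨h.le1.trans h'.le1, h'.le2.trans h.le2, fun a h1 h2 => ?_, fun a h1 h2 => ?_⟩
  · rcases lt_or_ge a (co t y) with h3 | h3
    · exact h.g1 a h1 h3
    · exact h'.g1 a h3 h2
  · rcases lt_or_ge a (co (t + 2) y) with h3 | h3
    · exact h'.g2 a h1 h3
    · exact h.g2 a h3 h2

lemma fin3_a (t : Fin 3) : t + 2 + 1 = t := by fin_cases t <;> rfl
lemma fin3_b (t : Fin 3) : t + 2 + 2 = t + 1 := by fin_cases t <;> rfl
lemma fin3_c (t : Fin 3) : t + 1 + 1 = t + 2 := by fin_cases t <;> rfl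
lemma fin3_d (t : Fin 3) : t + 1 + 2 = t := by fin_cases t <;> rfl

lemma Seg.step {M : Finset Tl} {t : Fin 3} {τ : Tl} (hτ : τ ∈ M) (h : St t τ) :
    Seg M t τ.2 (X t τ) := by
  have hx := st_X h
  have hc := st_co h
  refine ⟨hc.1, hc.2.1, fun a h1 h2 => ⟨τ, hτ, h, ?_, h2⟩, fun a h1 h2 => ⟨τ, hτ, h, ?_, ?_⟩⟩
  · rw [hx.1]; exact h1
  · rw [fin3_a]; exact h1
  · rw [hx.2]; exact h2

lemma pot_lo {m : ℤ} {t : Fin 3} {v : Pt} (h : 0 ≤ v.1 ∧ 0 ≤ v.2 ∧ v.1 + v.2 ≤ m) :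
    -(2 * m) ≤ co t v - co (t + 2) v ∧ co t v - co (t + 2) v ≤ 2 * m := by
  fin_cases t <;> simp [co] <;> omega

/-- backward chain -/
theorem back {m : ℤ} {M : Finset Tl} {D : Fin 3 → Finset Pt} (S : Sys m M D) (t : Fin 3)
    {v : Pt} (hv : v ∈ D t) (he : Ext M t v) :
    ∃ x, Seg M t x v ∧ ((∃ P ∈ M, Ju P ∧ X t P = x) ∨ (x ∉ D t ∧ x ∈ D (t + 1) ∧ x ∈ D (t + 2))) := by
  have key : ∀ n : ℕ, ∀ v, v ∈ D t → Ext M t v → co t v - co (t + 2) v + 2 * m ≤ n →
      ∃ x, Seg M t x v ∧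
        ((∃ P ∈ M, Ju P ∧ X t P = x) ∨ (x ∉ D t ∧ x ∈ D (t + 1) ∧ x ∈ D (t + 2))) := by
    intro n
    induction n with
    | zero =>
      intro v hv he hn
      obtain ⟨τ, hτ, e⟩ := S.cov.exists hv
      obtain ⟨h1, h2⟩ := he τ hτ e
      rcases classify (t := t) (τ := τ) (by rw [e]; exact h1) (by rw [e]; exact h2) with h | h
      · exfalso
        have hx := st_X h
        have hc := st_co h
        have hu : τ.2 ∈ D (t + 1) := by rw [← hx.1]; exact S.cov.mem hτ _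
        have := (pot_lo (t := t) (S.sub _ _ hu)).1
        rw [e] at hc
        push_cast at hn
        linarith [hc.2.2]
      · exact ⟨v, Seg.refl _ _ _, Or.inl ⟨τ, hτ, h, e⟩⟩
    | succ n ih =>
      intro v hv he hn
      obtain ⟨τ, hτ, e⟩ := S.cov.exists hv
      obtain ⟨h1, h2⟩ := he τ hτ e
      rcases classify (t := t) (τ := τ) (by rw [e]; exact h1) (by rw [e]; exact h2) with h | h
      · have hx := st_X h
        have hc := st_co h
        have hu1 : τ.2 ∈ D (t + 1) := by rw [← hx.1]; exact S.cov.mem hτ _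
        have hu2 : τ.2 ∈ D (t + 2) := by rw [← hx.2]; exact S.cov.mem hτ _
        have hs := Seg.step hτ h
        rw [e] at hs
        by_cases hu : τ.2 ∈ D t
        · have hext : Ext M t τ.2 := by
            intro σ hσ eσ
            constructor
            · intro e'
              have : σ = τ := S.cov.uniq hσ hτ (t := t + 1) (by rw [e', hx.1])
              rw [this] at eσ
              exact st_ne h eσ
            · intro e'
              have : σ = τ := S.cov.uniq hσ hτ (t := t + 2) (by rw [e', hx.2])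
              rw [this] at eσ
              exact st_ne h eσ
          rw [e] at hc
          obtain ⟨x, hx1, hx2⟩ := ih τ.2 hu hext (by push_cast at hn; linarith [hc.2.2])
          exact ⟨x, hx1.trans hs, hx2⟩
        · exact ⟨τ.2, hs, Or.inr ⟨hu, hu1, hu2⟩⟩
      · exact ⟨v, Seg.refl _ _ _, Or.inl ⟨τ, hτ, h, e⟩⟩
  exact key (co t v - co (t + 2) v + 2 * m).toNat v hv he (by
    have := (pot_lo (t := t) (S.sub _ _ hv)).1; omega)

/-- forward chain -/
theorem forw {m : ℤ} {M : Finset Tl} {D : Fin 3 → Finset Pt} (S : Sys m M D) (t : Fin 3)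
    {v : Pt} (hv : 0 ≤ v.1 ∧ 0 ≤ v.2 ∧ v.1 + v.2 ≤ m) (he : Ext M t v) :
    ∃ x, Seg M t v x ∧ Ext M t x ∧ Ext M (t + 1) x ∧ Ext M (t + 2) x ∧
      0 ≤ x.1 ∧ 0 ≤ x.2 ∧ x.1 + x.2 ≤ m ∧ (x = v ∨ x ∈ D t) := by
  have key : ∀ n : ℕ, ∀ v : Pt, (0 ≤ v.1 ∧ 0 ≤ v.2 ∧ v.1 + v.2 ≤ m) → Ext M t v →
      2 * m - (co t v - co (t + 2) v) ≤ n →
      ∃ x, Seg M t v x ∧ Ext M t x ∧ Ext M (t + 1) x ∧ Ext M (t + 2) x ∧
        0 ≤ x.1 ∧ 0 ≤ x.2 ∧ x.1 + x.2 ≤ m ∧ (x = v ∨ x ∈ D t) := by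
    intro n
    induction n with
    | zero =>
      intro v hv he hn
      by_cases hh : ∃ τ ∈ M, X (t + 1) τ = v ∧ X (t + 2) τ = v
      · exfalso
        obtain ⟨τ, hτ, h1, h2⟩ := hh
        have h3 : X t τ ≠ v := fun e => (he τ hτ e).1 h1
        have hst : St t τ := classify' (by rw [h1]; exact fun e => h3 e.symm) (by rw [h1, h2])
        have hx := st_X hst
        have hc := st_co hst
        have := (pot_lo (t := t) (S.sub _ _ (S.cov.mem hτ t))).2
        rw [← hx.1, h1] at hc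
        push_cast at hn
        linarith [hc.2.2]
      · refine ⟨v, Seg.refl _ _ _, he, ?_, ?_, hv.1, hv.2.1, hv.2.2, Or.inl rfl⟩
        · intro τ hτ e
          rw [fin3_c, fin3_d]
          exact ⟨fun e' => hh ⟨τ, hτ, e, e'⟩, fun e' => (he τ hτ e').1 e⟩
        · intro τ hτ e
          rw [fin3_a, fin3_b]
          exact ⟨fun e' => (he τ hτ e').2 e, fun e' => hh ⟨τ, hτ, e', e⟩⟩
    | succ n ih =>
      intro v hv he hn
      by_cases hh : ∃ τ ∈ M, X (t + 1) τ = v ∧ X (t + 2) τ = v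
      · obtain ⟨τ, hτ, h1, h2⟩ := hh
        have h3 : X t τ ≠ v := fun e => (he τ hτ e).1 h1
        have hst : St t τ := classify' (by rw [h1]; exact fun e => h3 e.symm) (by rw [h1, h2])
        have hx := st_X hst
        have hc := st_co hst
        have hs := Seg.step hτ hst
        have hτv : τ.2 = v := by rw [← hx.1, h1]
        rw [hτv] at hs hc
        have hD := S.cov.mem hτ t
        have hext : Ext M t (X t τ) := by
          intro σ hσ eσ
          have : σ = τ := S.cov.uniq hσ hτ eσ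
          subst this
          rw [h1, h2]
          exact ⟨fun e => h3 e.symm, fun e => h3 e.symm⟩
        obtain ⟨x, hx1, hx2, hx3, hx4, hx5, hx6, hx7, hx8⟩ := ih (X t τ) (S.sub _ _ hD) hext
          (by push_cast at hn; linarith [hc.2.2])
        refine ⟨x, hs.trans hx1, hx2, hx3, hx4, hx5, hx6, hx7, Or.inr ?_⟩
        rcases hx8 with h | h
        · rw [h]; exact hD
        · exact h
      · refine ⟨v, Seg.refl _ _ _, he, ?_, ?_, hv.1, hv.2.1, hv.2.2, Or.inl rfl⟩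
        · intro τ hτ e
          rw [fin3_c, fin3_d]
          exact ⟨fun e' => hh ⟨τ, hτ, e, e'⟩, fun e' => (he τ hτ e').1 e⟩
        · intro τ hτ e
          rw [fin3_a, fin3_b]
          exact ⟨fun e' => (he τ hτ e').2 e, fun e' => hh ⟨τ, hτ, e', e⟩⟩
  exact key (2 * m - (co t v - co (t + 2) v)).toNat v hv he (by
    have := (pot_lo (t := t) hv).2; omega)

end Pool.Agent.R730.Bz
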