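import Pool.Agent.R730.Bz.PS

set_option autoImplicit false

/-!
Evaluation of the weighted number of tilings of the inward region.
-/

namespace Pool.Agent.R730.Bz

open Finset

variable {K : Type*} [CommRing K]

/-- weight which forbids tiles based at `s` -/
def ws (x : Fin 3 → K) (w : K) (s : Pt) (τ : Tl) : K := if τ.2 = s then 0 else W' x w τ.1

lemma fin3_other : ∀ t t' : Fin 3, ∃ t'' : Fin 3, t'' ≠ t ∧ t'' ≠ t' := by decide

lemma fin3_cases : ∀ t t' : Fin 3, t' = t ∨ t' = t + 1 ∨ t' = t + 2 := by decide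

lemma co_ext {t : Fin 3} {u v : Pt} (h1 : co t u = co t v) (h2 : co (t + 2) u = co (t + 2) v) :
    u = v := by
  obtain ⟨a, b⟩ := u
  obtain ⟨c, d⟩ := v
  rw [Prod.mk.injEq]
  fin_cases t <;> simp [co] at h1 h2 <;> omega

lemma base_two {τ τ' : Tl} (h : ¬ Ju τ) (h' : ¬ Ju τ') : ∃ t, X t τ = τ.2 ∧ X t τ' = τ'.2 := by
  obtain ⟨sh, v⟩ := τ
  obtain ⟨sh', v'⟩ := τ'
  rcases sh with _ | ⟨t, k⟩ | k
  · rcases sh' with _ | ⟨t', k'⟩ | k'
    · exact ⟨0, by simp [X, off], by simp [X, off]⟩
    · exact ⟨t' + 1, by simp [X, off], by fin_cases t' <;> simp [X, off]⟩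
    · exact absurd ⟨k', rfl⟩ h'
  · rcases sh' with _ | ⟨t', k'⟩ | k'
    · exact ⟨t + 1, by fin_cases t <;> simp [X, off], by simp [X, off]⟩
    · obtain ⟨t'', h1, h2⟩ := fin3_other t t'
      exact ⟨t'', by simp [X, off, h1], by simp [X, off, h2]⟩
    · exact absurd ⟨k', rfl⟩ h'
  · exact absurd ⟨k, rfl⟩ h

lemma pc_mem (m : ℕ) (t : Fin 3) : pc m t ∈ T m := by
  rw [mem_T]; fin_cases t <;> simp [pc]

/-- exactly one point of the triangle is not the base of a tile -/
lemma unhosted {m : ℕ} {M : Finset Tl} (h : Cov M (Din m)) :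
    M.image Prod.snd ⊆ T m ∧ ((T m) \ (M.image Prod.snd)).card = 1 := by
  classical
  have hj := no_ju h
  have hsub : M.image Prod.snd ⊆ T m := by
    intro v hv
    obtain ⟨τ, hτ, rfl⟩ := mem_image.1 hv
    obtain ⟨t, ht, -⟩ := base_two (hj τ hτ) (hj τ hτ)
    rw [← ht]
    exact mem_of_mem_erase (h.mem hτ t)
  refine ⟨hsub, ?_⟩
  have hinj : Set.InjOn Prod.snd (M : Set Tl) := by
    intro τ hτ τ' hτ' e
    obtain ⟨t, ht, ht'⟩ := base_two (hj τ hτ) (hj τ' hτ')
    exact h.uniq hτ hτ' (t := t) (by rw [ht, ht', e])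
  rw [card_sdiff_of_subset hsub, card_image_of_injOn hinj, h.card 0]
  unfold Din
  rw [card_erase_of_mem (pc_mem m 0)]
  have : 0 < (T m).card := card_pos.2 ⟨_, pc_mem m 0⟩
  omega

lemma Z_Din (m : ℕ) (x : Fin 3 → K) (w : K) :
    Z (fun τ => W' x w τ.1) (Din m) = ∑ s ∈ T m, Z (ws x w s) (Din m) := by
  classical
  unfold Z
  rw [Finset.sum_comm]
  apply Finset.sum_congr rfl
  intro M hM
  rw [mem_tilings] at hM
  obtain ⟨h1, h2⟩ := unhosted hM
  have h3 : ∀ s ∈ T m, ∏ τ ∈ M, ws x w s τ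
      = if s ∈ M.image Prod.snd then 0 else ∏ τ ∈ M, W' x w τ.1 := by
    intro s _
    split_ifs with hs
    · obtain ⟨τ, hτ, e⟩ := mem_image.1 hs
      exact Finset.prod_eq_zero hτ (by simp [ws, e])
    · apply Finset.prod_congr rfl
      intro τ hτ
      unfold ws
      rw [if_neg]
      intro e
      exact hs (mem_image.2 ⟨τ, hτ, e⟩)
  rw [Finset.sum_congr rfl h3, Finset.sum_ite, Finset.sum_const_zero, zero_add, Finset.sum_const]
  have : (T m).filter (fun s => s ∉ M.image Prod.snd) = (T m) \ (M.image Prod.snd) := by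
    ext v; simp only [mem_filter, mem_sdiff]
  rw [this, h2, one_smul]

lemma Z_ws (x : Fin 3 → K) (w : K) {s : Pt} {D : Fin 3 → Finset Pt} (h : ∀ t, s ∉ D t) :
    Z (ws x w s) D = Z (fun τ => W' x w τ.1) D := by
  apply Z_congr
  intro M hM
  apply Finset.prod_congr rfl
  intro τ hτ
  unfold ws
  split_ifs with e
  · by_cases hj : Ju τ
    · obtain ⟨k, hk⟩ := hj
      rw [hk]; rfl
    · obtain ⟨t, ht, -⟩ := base_two hj hj
      exfalso
      apply h t
      rw [← e, ← ht]
      exact hM.mem hτ t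
  · rfl

lemma stp_ne (t k : Fin 3) (s : Pt) : s - stp t k ≠ s := by
  intro e
  have := (stp_co t k s).2.2
  rw [e] at this
  exact lt_irrefl _ this

/-- peel the step which covers the cell `(t, s)` -/
lemma peel {m : ℕ} (x : Fin 3 → K) (w : K) {s : Pt} (t : Fin 3) (U : Finset Pt) (q : Fin 3 → Pt)
    (hst : s ≠ pc m t) (hqt : q t = s)
    (hqU : ∀ t', q t' ∉ U) (hd : ¬ (q (t + 1) = q (t + 2) ∧ q (t + 1) ≠ s)) :
    Z (ws x w s) (PSD m U q) = ∑ k : Fin 3, wk x w t k *
      (if s - stp t k ∈ U ∧ s - stp t k ≠ pc m (t + 1) ∧ s - stp t k ≠ pc m (t + 2) then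
        Z (ws x w s) (PSD m (U.erase (s - stp t k)) (Function.update q t (s - stp t k)))
      else 0) := by
  classical
  have hmem : s ∈ PSD m U q t := mem_erase.2 ⟨hst, by rw [hqt]; exact mem_insert_self _ _⟩
  have hsU : s ∉ U := by rw [← hqt]; exact hqU t
  have ht1 : t + 1 ≠ t := by fin_cases t <;> decide
  have ht2 : t + 2 ≠ t := by fin_cases t <;> decide
  have ht12 : t + 1 ≠ t + 2 := by fin_cases t <;> decide
  rw [Z_rec _ _ hmem, sum_sh t]
  rotate_left
  · split_ifs
    · simp [ws, off]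
    · rfl
  · intro k
    split_ifs
    · have : ws x w s (Sh.j k, s - off (Sh.j k) t) = 0 := by simp [ws, W']
      rw [this, zero_mul]
    · rfl
  · intro t' k hne
    split_ifs
    · have : ws x w s (Sh.s t' k, s - off (Sh.s t' k) t) = 0 := by
        rw [st_off' k (Ne.symm hne)]; simp [ws]
      rw [this, zero_mul]
    · rfl
  apply Finset.sum_congr rfl
  intro k _
  rw [st_off]
  have hus : s - stp t k ≠ s := stp_ne t k s
  have hback : s - stp t k + stp t k = s := sub_add_cancel _ _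
  generalize s - stp t k = u at hus hback
  have hiff : (∀ t', u + off (Sh.s t k) t' ∈ PSD m U q t') ↔
      (u ∈ U ∧ u ≠ pc m (t + 1) ∧ u ≠ pc m (t + 2)) := by
    constructor
    · intro h
      have h1 := h (t + 1)
      have h2 := h (t + 2)
      rw [st_off' k ht1, add_zero] at h1
      rw [st_off' k ht2, add_zero] at h2
      obtain ⟨h1a, h1b⟩ := mem_erase.1 h1
      obtain ⟨h2a, h2b⟩ := mem_erase.1 h2
      refine ⟨?_, h1a, h2a⟩
      rcases mem_insert.1 h1b with h1b | h1b
      · rcases mem_insert.1 h2b with h2b | h2b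
        · exfalso
          apply hd
          rw [← h1b, ← h2b]
          exact ⟨rfl, hus⟩
        · exact h2b
      · exact h1b
    · rintro ⟨h1, h2, h3⟩ t'
      by_cases e : t' = t
      · subst e
        rw [st_off, hback]; exact hmem
      · rw [st_off' k e, add_zero]
        refine mem_erase.2 ⟨?_, mem_insert_of_mem h1⟩
        have : t' = t + 1 ∨ t' = t + 2 := by
          fin_cases t <;> fin_cases t' <;> simp at e ⊢
        rcases this with e' | e'
        · rw [e']; exact h2
        · rw [e']; exact h3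
  by_cases hc : u ∈ U ∧ u ≠ pc m (t + 1) ∧ u ≠ pc m (t + 2)
  · rw [if_pos (hiff.2 hc), if_pos hc]
    have hw : ws x w s (Sh.s t k, u) = wk x w t k := by
      unfold ws; rw [if_neg hus]; rfl
    rw [hw]
    have hD : (fun t' => (PSD m U q t').erase (u + off (Sh.s t k) t'))
        = PSD m (U.erase u) (Function.update q t u) := by
      funext t'
      by_cases e : t' = t
      · subst e
        rw [st_off, hback]
        unfold PSD
        rw [Function.update_self, insert_erase hc.1, hqt]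
        ext v
        simp only [mem_erase, mem_insert]
        constructor
        · rintro ⟨h1, h2, h3 | h3⟩
          · exact absurd h3 h1
          · exact ⟨h2, h3⟩
        · rintro ⟨h1, h2⟩
          exact ⟨fun e => hsU (e ▸ h2), h1, Or.inr h2⟩
      · rw [st_off' k e, add_zero]
        unfold PSD
        rw [Function.update_of_ne e]
        ext v
        simp only [mem_erase, mem_insert]
        have : q t' ≠ u := fun e' => hqU t' (by rw [e']; exact hc.1)
        constructor
        · rintro ⟨h1, h2, h3 | h3⟩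
          · exact ⟨h2, Or.inl h3⟩
          · exact ⟨h2, Or.inr ⟨h1, h3⟩⟩
        · rintro ⟨h1, h2 | ⟨h2, h3⟩⟩
          · exact ⟨by rw [h2]; exact this, h1, Or.inl h2⟩
          · exact ⟨h2, h1, Or.inr h3⟩
    rw [hD]
  · rw [if_neg (fun h => hc (hiff.1 h)), if_neg hc, mul_zero]

/-- final evaluation after the three peels -/
lemma PS_eval' {m : ℕ} (x : Fin 3 → K) (w : K) (s : Pt) (U : Finset Pt) (q : Fin 3 → Pt)
    (hqT : ∀ t, q t ∈ T m) (hsep : ∀ t, co t (q t) < co t (q (t + 1)))
    (hU : ∀ v, v ∈ U ↔ v ∈ T m ∧ v ≠ s ∧ ∀ t, v ≠ q t)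
    (hq : ∀ t, co t (q t) ≤ co t s ∧ co (t + 2) s ≤ co (t + 2) (q t))
    (hqs : ∀ t, q t = s → s = pc m t) :
    Z (ws x w s) (PSD m U q) = ∏ t, N m x w t (q t) := by
  classical
  have hsU : s ∉ U := fun h => ((hU s).1 h).2.1 rfl
  rw [Z_ws]
  · apply PS_eval x w U.card U q rfl hqT (fun v hv => ((hU v).1 hv).1)
      (fun t h => ((hU _).1 h).2.2 t rfl) _ hsep
    intro t v hv h1 h2 h3
    rw [hU]
    refine ⟨hv, ?_, ?_⟩
    · rintro rfl
      apply h3
      have := hq t
      exact co_ext (le_antisymm h1 this.1) (le_antisymm this.2 h2)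
    · intro t' e
      subst e
      have hs1 := hsep t
      have hs2 := hsep (t + 2)
      rw [fin3_a] at hs2
      rcases fin3_cases t t' with e' | e' | e'
      · exact h3 (by rw [e'])
      · rw [e'] at h1; omega
      · rw [e'] at h2; omega
  · intro t h
    unfold PSD at h
    obtain ⟨h1, h2⟩ := mem_erase.1 h
    rcases mem_insert.1 h2 with h2 | h2
    · exact h1 (hqs t h2.symm)
    · exact hsU h2

lemma sep_st (t k k' : Fin 3) (h : ¬ (k = 0 ∧ k' = 1)) (s : Pt) :
    co t (s - stp t k) < co t (s - stp (t + 1) k') := by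
  fin_cases t <;> fin_cases k <;> fin_cases k' <;> simp [co, stp] at h ⊢ <;> omega

lemma conf_eq (t : Fin 3) : stp t 0 = stp (t + 1) 1 := by
  fin_cases t <;> rfl

lemma q_ne_pc {m : ℕ} {q : Fin 3 → Pt} (hqT : ∀ t, q t ∈ T m)
    (hsep : ∀ t, co t (q t) < co t (q (t + 1))) (t : Fin 3) :
    q t ≠ pc m (t + 1) ∧ q t ≠ pc m (t + 2) := by
  constructor
  · intro e
    have h1 : co t (q (t + 1)) ≤ co t (pc m (t + 1)) := by
      have := mem_T.1 (hqT (t + 1))
      fin_cases t <;> simp [co, pc] at this ⊢ <;> omega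
    have := hsep t
    rw [e] at this
    omega
  · intro e
    have h1 : co (t + 2) (pc m (t + 2)) ≤ co (t + 2) (q (t + 2)) := by
      have := mem_T.1 (hqT (t + 2))
      fin_cases t <;> simp [co, pc] at this ⊢ <;> omega
    have := hsep (t + 2)
    rw [fin3_a, e] at this
    omega

lemma q_inj {q : Fin 3 → Pt}
    (hsep : ∀ t, co t (q t) < co t (q (t + 1))) {t t' : Fin 3} (h : t ≠ t') : q t ≠ q t' := by
  intro e
  have h0 := hsep 0
  have h1 := hsep 1
  have h2 := hsep 2
  simp only [show (0 : Fin 3) + 1 = 1 from rfl, show (1 : Fin 3) + 1 = 2 from rfl,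
    show (2 : Fin 3) + 1 = 0 from rfl] at h0 h1 h2
  fin_cases t <;> fin_cases t' <;> simp at h e <;> (try rw [e] at h0) <;> (try rw [e] at h1) <;>
    (try rw [e] at h2) <;> omega

end Pool.Agent.R730.Bz
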