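import Pool.Agent.R730.Bz.Inw

set_option autoImplicit false

/-!
Evaluation of the weighted number of tilings of the inward region, part 2.
-/

namespace Pool.Agent.R730.Bz

open Finset

variable {K : Type*} [CommRing K]

lemma prod3 (j : Fin 3) (f : Fin 3 → K) : ∏ t, f t = f j * f (j + 1) * f (j + 2) := by
  rw [Fin.prod_univ_three]
  fin_cases j
  · rfl
  · show f 0 * f 1 * f 2 = f 1 * f 2 * f 0
    ring
  · show f 0 * f 1 * f 2 = f 2 * f 0 * f 1
    ring

lemma N_ne_zero_mem {m : ℕ} {x : Fin 3 → K} {w : K} {t : Fin 3} {v : Pt} (h : N m x w t v ≠ 0) :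
    v ∈ T m := by
  by_contra hc
  exact h (N_eq_zero hc)

/-- the sum for a point which is not a corner -/
lemma Z_s_gen {m : ℕ} (x : Fin 3 → K) (w : K) {s : Pt} (hs : s ∈ T m) (hc : ∀ t, s ≠ pc m t) :
    Z (ws x w s) (Din m) = ∑ k0 : Fin 3, wk x w 0 k0 * ∑ k1 : Fin 3, wk x w 1 k1 *
      ∑ k2 : Fin 3, wk x w 2 k2 *
      (if (k0 = 0 ∧ k1 = 1) ∨ (k1 = 0 ∧ k2 = 1) ∨ (k2 = 0 ∧ k0 = 1) then 0 else
      N m x w 0 (s - stp 0 k0) * N m x w 1 (s - stp 1 k1) * N m x w 2 (s - stp 2 k2)) := by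
  classical
  have key : ∀ k0 k1 k2 : Fin 3, ¬ ((k0 = 0 ∧ k1 = 1) ∨ (k1 = 0 ∧ k2 = 1) ∨ (k2 = 0 ∧ k0 = 1)) →
      s - stp 0 k0 ∈ T m → s - stp 1 k1 ∈ T m → s - stp 2 k2 ∈ T m →
      ∀ q : Fin 3 → Pt, q 0 = s - stp 0 k0 → q 1 = s - stp 1 k1 → q 2 = s - stp 2 k2 →
      (∀ t, q t ∈ T m) ∧ (∀ t, co t (q t) < co t (q (t + 1))) := by
    intro k0 k1 k2 hk h0 h1 h2 q e0 e1 e2
    push Not at hk
    constructor
    · intro t
      fin_cases t
      · exact (by rw [e0]; exact h0 : q 0 ∈ T m)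
      · exact (by rw [e1]; exact h1 : q 1 ∈ T m)
      · exact (by rw [e2]; exact h2 : q 2 ∈ T m)
    · intro t
      fin_cases t
      · show co 0 (q 0) < co 0 (q 1)
        rw [e0, e1]; exact sep_st 0 k0 k1 (fun h => hk.1 h.1 h.2) s
      · show co 1 (q 1) < co 1 (q 2)
        rw [e1, e2]; exact sep_st 1 k1 k2 (fun h => hk.2.1 h.1 h.2) s
      · show co 2 (q 2) < co 2 (q 0)
        rw [e2, e0]; exact sep_st 2 k2 k0 (fun h => hk.2.2 h.1 h.2) s
  have key0 : ∀ k0 k1 k2 : Fin 3,
      ((¬ ((k0 = 0 ∧ k1 = 1) ∨ (k1 = 0 ∧ k2 = 1) ∨ (k2 = 0 ∧ k0 = 1)) →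
      s - stp 0 k0 ∈ T m → s - stp 1 k1 ∈ T m → s - stp 2 k2 ∈ T m → False)) →
      (if (k0 = 0 ∧ k1 = 1) ∨ (k1 = 0 ∧ k2 = 1) ∨ (k2 = 0 ∧ k0 = 1) then (0 : K) else
      N m x w 0 (s - stp 0 k0) * N m x w 1 (s - stp 1 k1) * N m x w 2 (s - stp 2 k2)) = 0 := by
    intro k0 k1 k2 h
    split_ifs with hk
    · rfl
    · by_cases h0 : s - stp 0 k0 ∈ T m
      · by_cases h1 : s - stp 1 k1 ∈ T m
        · by_cases h2 : s - stp 2 k2 ∈ T m
          · exact absurd (h hk h0 h1 h2) id
          · rw [N_eq_zero h2, mul_zero]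
        · rw [N_eq_zero h1, mul_zero, zero_mul]
      · rw [N_eq_zero h0, zero_mul, zero_mul]
  have e0 : Din m = PSD m ((T m).erase s) (fun _ => s) := by
    funext t
    unfold Din PSD
    rw [insert_erase hs]
  rw [e0, peel x w 0 _ _ (hc 0) rfl (fun _ => notMem_erase _ _) (fun h => h.2 rfl)]
  apply Finset.sum_congr rfl
  intro k0 _
  congr 1
  have hu0 : s - stp 0 k0 ≠ s := stp_ne 0 k0 s
  split_ifs with c0
  rotate_left
  · symm
    apply Finset.sum_eq_zero
    intro k1 _
    rw [mul_eq_zero_of_right]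
    apply Finset.sum_eq_zero
    intro k2 _
    rw [mul_eq_zero_of_right]
    apply key0
    intro hk h0 h1 h2
    obtain ⟨hT, hsep⟩ := key k0 k1 k2 hk h0 h1 h2 ![s - stp 0 k0, s - stp 1 k1, s - stp 2 k2]
      rfl rfl rfl
    have h5 := q_ne_pc hT hsep 0
    exact c0 ⟨mem_erase.2 ⟨hu0, h0⟩, h5.1, h5.2⟩
  · obtain ⟨c0a, c0b, c0c⟩ := c0
    rw [peel x w 1 _ _ (hc 1) (by simp)]
    rotate_left
    · intro t'
      by_cases e : t' = 0
      · subst e; rw [Function.update_self]; exact notMem_erase _ _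
      · rw [Function.update_of_ne e]
        intro h
        exact notMem_erase _ _ (mem_of_mem_erase h)
    · intro h
      have : Function.update (fun _ : Fin 3 => s) 0 (s - stp 0 k0) (1 + 1) = s := by
        rw [Function.update_of_ne (by decide)]
      exact h.2 this
    apply Finset.sum_congr rfl
    intro k1 _
    congr 1
    have hu1 : s - stp 1 k1 ≠ s := stp_ne 1 k1 s
    rw [show (1 : Fin 3) + 1 = 2 from rfl, show (1 : Fin 3) + 2 = 0 from rfl]
    split_ifs with c1
    rotate_left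
    · symm
      apply Finset.sum_eq_zero
      intro k2 _
      rw [mul_eq_zero_of_right]
      apply key0
      intro hk h0 h1 h2
      obtain ⟨hT, hsep⟩ := key k0 k1 k2 hk h0 h1 h2 ![s - stp 0 k0, s - stp 1 k1, s - stp 2 k2]
        rfl rfl rfl
      have h5 := q_ne_pc hT hsep 1
      have h6 := q_inj hsep (show (1 : Fin 3) ≠ 0 by decide)
      exact c1 ⟨mem_erase.2 ⟨h6, mem_erase.2 ⟨hu1, h1⟩⟩, h5.1, h5.2⟩
    · obtain ⟨c1a, c1b, c1c⟩ := c1
      rw [peel x w 2 _ _ (hc 2) (by simp)]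
      rotate_left
      · intro t'
        by_cases e1 : t' = 1
        · subst e1; rw [Function.update_self]; exact notMem_erase _ _
        · rw [Function.update_of_ne e1]
          by_cases e : t' = 0
          · subst e; rw [Function.update_self]
            intro h
            exact notMem_erase _ _ (mem_of_mem_erase h)
          · rw [Function.update_of_ne e]
            intro h
            exact notMem_erase _ _ (mem_of_mem_erase (mem_of_mem_erase h))
      · rintro ⟨h, -⟩
        have h1 : Function.update (Function.update (fun _ : Fin 3 => s) 0 (s - stp 0 k0)) 1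
            (s - stp 1 k1) (2 + 1) = s - stp 0 k0 := by
          rw [Function.update_of_ne (by decide)]; simp
        have h2 : Function.update (Function.update (fun _ : Fin 3 => s) 0 (s - stp 0 k0)) 1
            (s - stp 1 k1) (2 + 2) = s - stp 1 k1 := by
          rw [show (2 : Fin 3) + 2 = 1 from rfl]; simp
        rw [h1, h2] at h
        exact (mem_erase.1 c1a).1 h.symm
      apply Finset.sum_congr rfl
      intro k2 _
      congr 1
      have hu2 : s - stp 2 k2 ≠ s := stp_ne 2 k2 s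
      rw [show (2 : Fin 3) + 1 = 0 from rfl, show (2 : Fin 3) + 2 = 1 from rfl]
      split_ifs with c2 c3
      · -- conflict
        exfalso
        rcases c3 with ⟨rfl, rfl⟩ | ⟨rfl, rfl⟩ | ⟨rfl, rfl⟩
        · exact (mem_erase.1 c1a).1 rfl
        · exact (mem_erase.1 c2.1).1 rfl
        · exact (mem_erase.1 (mem_erase.1 c2.1).2).1 rfl
      · have hq0 : Function.update (Function.update (Function.update (fun _ : Fin 3 => s) 0
            (s - stp 0 k0)) 1 (s - stp 1 k1)) 2 (s - stp 2 k2)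
            = ![s - stp 0 k0, s - stp 1 k1, s - stp 2 k2] := by
          funext t; fin_cases t <;> simp
        rw [hq0]
        have h0 : s - stp 0 k0 ∈ T m := mem_of_mem_erase c0a
        have h1 : s - stp 1 k1 ∈ T m := mem_of_mem_erase (mem_of_mem_erase c1a)
        have h2 : s - stp 2 k2 ∈ T m :=
          mem_of_mem_erase (mem_of_mem_erase (mem_of_mem_erase c2.1))
        obtain ⟨hT, hsep⟩ := key k0 k1 k2 c3 h0 h1 h2 ![s - stp 0 k0, s - stp 1 k1, s - stp 2 k2]
          rfl rfl rfl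
        rw [PS_eval' x w s _ _ hT hsep]
        · rw [Fin.prod_univ_three]; rfl
        · intro v
          simp only [mem_erase, Fin.forall_fin_succ, Matrix.cons_val_zero, Matrix.cons_val_succ,
            IsEmpty.forall_iff, and_true]
          tauto
        · intro t
          fin_cases t
          · exact ⟨(stp_co 0 k0 s).1, (stp_co 0 k0 s).2.1⟩
          · exact ⟨(stp_co 1 k1 s).1, (stp_co 1 k1 s).2.1⟩
          · exact ⟨(stp_co 2 k2 s).1, (stp_co 2 k2 s).2.1⟩
        · intro t
          fin_cases t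
          · exact fun h => absurd h hu0
          · exact fun h => absurd h hu1
          · exact fun h => absurd h hu2
      · rfl
      · symm
        rename_i c3
        have := key0 k0 k1 k2
        rw [if_neg c3] at this
        apply this
        intro hk h0 h1 h2
        obtain ⟨hT, hsep⟩ := key k0 k1 k2 hk h0 h1 h2 ![s - stp 0 k0, s - stp 1 k1, s - stp 2 k2]
          rfl rfl rfl
        have h5 := q_ne_pc hT hsep 2
        have h6 := q_inj hsep (show (2 : Fin 3) ≠ 0 by decide)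
        have h7 := q_inj hsep (show (2 : Fin 3) ≠ 1 by decide)
        exact c2 ⟨mem_erase.2 ⟨h7, mem_erase.2 ⟨h6, mem_erase.2 ⟨hu2, h2⟩⟩⟩, h5.1, h5.2⟩

lemma corner_sep {m : ℕ} (j k : Fin 3) :
    (pc m j - stp (j + 1) k ∈ T m → co j (pc m j) < co j (pc m j - stp (j + 1) k)) ∧
    (pc m j - stp (j + 2) k ∈ T m → co (j + 2) (pc m j - stp (j + 2) k) < co (j + 2) (pc m j)) := by
  rw [mem_T, mem_T]
  constructor
  · fin_cases j <;> fin_cases k <;> simp [co, stp, pc]
  · fin_cases j <;> fin_cases k <;> simp [co, stp, pc]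

lemma pc_ne {m : ℕ} (hm : 1 ≤ m) {j t : Fin 3} (h : t ≠ j) : pc m j ≠ pc m t := by
  have hm' : (1 : ℤ) ≤ m := by exact_mod_cast hm
  fin_cases j <;> fin_cases t <;> simp [pc] at h ⊢ <;> omega

/-- the sum for a corner -/
lemma Z_s_corner {m : ℕ} (hm : 1 ≤ m) (x : Fin 3 → K) (w : K) (j : Fin 3) :
    Z (ws x w (pc m j)) (Din m) = ∑ k1 : Fin 3, wk x w (j + 1) k1 *
      ∑ k2 : Fin 3, wk x w (j + 2) k2 *
      (if (k1 = 0 ∧ k2 = 1) then 0 else
      N m x w (j + 1) (pc m j - stp (j + 1) k1) * N m x w (j + 2) (pc m j - stp (j + 2) k2)) := by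
  classical
  have hj1 : j + 1 ≠ j := by fin_cases j <;> decide
  have hj2 : j + 2 ≠ j := by fin_cases j <;> decide
  have hj12 : j + 1 ≠ j + 2 := by fin_cases j <;> decide
  have hs : pc m j ∈ T m := pc_mem m j
  have hc1 : pc m j ≠ pc m (j + 1) := pc_ne hm hj1
  have hc2 : pc m j ≠ pc m (j + 2) := pc_ne hm hj2
  generalize hss : pc m j = s at *
  have key : ∀ k1 k2 : Fin 3, ¬ (k1 = 0 ∧ k2 = 1) →
      s - stp (j + 1) k1 ∈ T m → s - stp (j + 2) k2 ∈ T m →
      ∀ q : Fin 3 → Pt, q j = s → q (j + 1) = s - stp (j + 1) k1 →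
      q (j + 2) = s - stp (j + 2) k2 →
      (∀ t, q t ∈ T m) ∧ (∀ t, co t (q t) < co t (q (t + 1))) := by
    intro k1 k2 hk h1 h2 q e0 e1 e2
    constructor
    · intro t
      rcases fin3_cases j t with rfl | rfl | rfl
      · rw [e0]; exact hs
      · rw [e1]; exact h1
      · rw [e2]; exact h2
    · intro t
      rcases fin3_cases j t with rfl | rfl | rfl
      · rw [e0, e1, ← hss]
        rw [← hss] at h1
        exact (corner_sep _ k1).1 h1
      · rw [fin3_c, e1, e2]
        have := sep_st (j + 1) k1 k2 hk s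
        rw [fin3_c] at this
        exact this
      · rw [fin3_a, e2, e0, ← hss]
        rw [← hss] at h2
        exact (corner_sep _ k2).2 h2
  have key0 : ∀ k1 k2 : Fin 3,
      ((¬ (k1 = 0 ∧ k2 = 1) → s - stp (j + 1) k1 ∈ T m → s - stp (j + 2) k2 ∈ T m → False)) →
      (if (k1 = 0 ∧ k2 = 1) then (0 : K) else
      N m x w (j + 1) (s - stp (j + 1) k1) * N m x w (j + 2) (s - stp (j + 2) k2)) = 0 := by
    intro k1 k2 h
    split_ifs with hk
    · rfl
    · by_cases h1 : s - stp (j + 1) k1 ∈ T m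
      · by_cases h2 : s - stp (j + 2) k2 ∈ T m
        · exact absurd (h hk h1 h2) id
        · rw [N_eq_zero h2, mul_zero]
      · rw [N_eq_zero h1, zero_mul]
  have e0 : Din m = PSD m ((T m).erase s) (fun _ => s) := by
    funext t
    unfold Din PSD
    rw [insert_erase hs]
  -- the choice of q
  have hq : ∀ k1 k2 : Fin 3, ∀ q : Fin 3 → Pt,
      q = Function.update (Function.update (fun _ : Fin 3 => s) (j + 1) (s - stp (j + 1) k1)) (j + 2)
        (s - stp (j + 2) k2) →
      q j = s ∧ q (j + 1) = s - stp (j + 1) k1 ∧ q (j + 2) = s - stp (j + 2) k2 := by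
    intro k1 k2 q hq
    subst hq
    refine ⟨?_, ?_, ?_⟩
    · rw [Function.update_of_ne (Ne.symm hj2), Function.update_of_ne (Ne.symm hj1)]
    · rw [Function.update_of_ne hj12, Function.update_self]
    · rw [Function.update_self]
  rw [e0, peel x w (j + 1) _ _ hc1 rfl (fun _ => notMem_erase _ _) (fun h => h.2 rfl)]
  apply Finset.sum_congr rfl
  intro k1 _
  congr 1
  have hu1 : s - stp (j + 1) k1 ≠ s := stp_ne (j + 1) k1 s
  rw [fin3_c, fin3_d]
  split_ifs with c1
  rotate_left
  · symm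
    apply Finset.sum_eq_zero
    intro k2 _
    rw [mul_eq_zero_of_right]
    apply key0
    intro hk h1 h2
    obtain ⟨q0, q1, q2⟩ := hq k1 k2 _ rfl
    obtain ⟨hT, hsep⟩ := key k1 k2 hk h1 h2 _ q0 q1 q2
    have h5 := q_ne_pc hT hsep (j + 1)
    rw [q1, fin3_c, fin3_d] at h5
    exact c1 ⟨mem_erase.2 ⟨hu1, h1⟩, h5.1, h5.2⟩
  · obtain ⟨c1a, c1b, c1c⟩ := c1
    rw [peel x w (j + 2) _ _ hc2 (by rw [Function.update_of_ne (Ne.symm hj12)])]
    rotate_left
    · intro t'
      by_cases e : t' = j + 1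
      · subst e; rw [Function.update_self]; exact notMem_erase _ _
      · rw [Function.update_of_ne e]
        intro h
        exact notMem_erase _ _ (mem_of_mem_erase h)
    · rintro ⟨h1, h2⟩
      rw [fin3_a, Function.update_of_ne (Ne.symm hj1)] at h2
      exact h2 rfl
    apply Finset.sum_congr rfl
    intro k2 _
    congr 1
    have hu2 : s - stp (j + 2) k2 ≠ s := stp_ne (j + 2) k2 s
    rw [fin3_a, fin3_b]
    split_ifs with c2 c3
    · exfalso
      obtain ⟨rfl, rfl⟩ := c3
      have := conf_eq (j + 1)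
      rw [fin3_c] at this
      rw [← this] at c2
      exact (mem_erase.1 c2.1).1 rfl
    · have h1 : s - stp (j + 1) k1 ∈ T m := mem_of_mem_erase c1a
      have h2 : s - stp (j + 2) k2 ∈ T m := mem_of_mem_erase (mem_of_mem_erase c2.1)
      generalize hqq : Function.update (Function.update (fun _ : Fin 3 => s) (j + 1)
        (s - stp (j + 1) k1)) (j + 2) (s - stp (j + 2) k2) = q
      obtain ⟨q0, q1, q2⟩ := hq k1 k2 q hqq.symm
      obtain ⟨hT, hsep⟩ := key k1 k2 c3 h1 h2 q q0 q1 q2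
      rw [PS_eval' x w s _ _ hT hsep]
      · rw [prod3 j, q0, q1, q2, ← hss, N_pc, one_mul]
      · intro v
        have : (∀ t, v ≠ q t) ↔ v ≠ s ∧ v ≠ s - stp (j + 1) k1 ∧ v ≠ s - stp (j + 2) k2 := by
          constructor
          · intro h
            exact ⟨q0 ▸ h j, q1 ▸ h (j + 1), q2 ▸ h (j + 2)⟩
          · rintro ⟨g1, g2, g3⟩ t
            rcases fin3_cases j t with e | e | e
            · rw [e, q0]; exact g1
            · rw [e, q1]; exact g2
            · rw [e, q2]; exact g3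
        rw [this]
        simp only [mem_erase]
        tauto
      · intro t
        rcases fin3_cases j t with rfl | rfl | rfl
        · rw [q0]; exact ⟨le_rfl, le_rfl⟩
        · rw [q1]; exact ⟨(stp_co _ k1 s).1, (stp_co _ k1 s).2.1⟩
        · rw [q2]; exact ⟨(stp_co _ k2 s).1, (stp_co _ k2 s).2.1⟩
      · intro t ht
        rcases fin3_cases j t with rfl | rfl | rfl
        · exact hss.symm
        · rw [q1] at ht; exact absurd ht hu1
        · rw [q2] at ht; exact absurd ht hu2
    · rfl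
    · symm
      rename_i c3
      have := key0 k1 k2
      rw [if_neg c3] at this
      apply this
      intro hk h1 h2
      obtain ⟨q0, q1, q2⟩ := hq k1 k2 _ rfl
      obtain ⟨hT, hsep⟩ := key k1 k2 hk h1 h2 _ q0 q1 q2
      have h5 := q_ne_pc hT hsep (j + 2)
      have h6 := q_inj hsep (Ne.symm hj12)
      rw [q2, fin3_a, fin3_b] at h5
      rw [q1, q2] at h6
      exact c2 ⟨mem_erase.2 ⟨h6, mem_erase.2 ⟨hu2, h2⟩⟩, h5.1, h5.2⟩

end Pool.Agent.R730.Bz
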