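import Pool.Agent.R730.Bz.Inw2

set_option autoImplicit false

/-!
Evaluation of the weighted number of tilings of the inward region, part 3.
-/

namespace Pool.Agent.R730.Bz

open Finset

variable {K : Type*} [CommRing K]

lemma sum3 (j : Fin 3) (f : Fin 3 → K) : ∑ t, f t = f j + f (j + 1) + f (j + 2) := by
  rw [Fin.sum_univ_three]
  fin_cases j
  · rfl
  · show f 0 + f 1 + f 2 = f 1 + f 2 + f 0
    ring
  · show f 0 + f 1 + f 2 = f 2 + f 0 + f 1
    ring

/-- the contribution of the point `s` -/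
def V (m : ℕ) (x : Fin 3 → K) (w : K) (s : Pt) : K :=
  (∏ t, N m x w t s) - ∑ t, x t * x (t + 1) *
    (N m x w t (s - stp t 0) * N m x w (t + 1) (s - stp t 0) * N m x w (t + 2) s)

lemma V_eq (m : ℕ) (x : Fin 3 → K) (w : K) (s : Pt) (j : Fin 3) : V m x w s =
    N m x w j s * N m x w (j + 1) s * N m x w (j + 2) s
    - (x j * x (j + 1) *
        (N m x w j (s - stp j 0) * N m x w (j + 1) (s - stp (j + 1) 1) * N m x w (j + 2) s)
      + x (j + 1) * x (j + 2) *
        (N m x w (j + 1) (s - stp (j + 1) 0) * N m x w (j + 2) (s - stp (j + 2) 1) * N m x w j s)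
      + x (j + 2) * x j *
        (N m x w (j + 2) (s - stp (j + 2) 0) * N m x w j (s - stp j 1) * N m x w (j + 1) s)) := by
  unfold V
  rw [prod3 j, sum3 j, fin3_c, fin3_d, fin3_a, fin3_b]
  have e0 := conf_eq j
  have e1 := conf_eq (j + 1)
  have e2 := conf_eq (j + 2)
  rw [fin3_c] at e1
  rw [fin3_a] at e2
  rw [← e0, ← e1, ← e2]

lemma corner_out {m : ℕ} (j : Fin 3) : pc m j - stp j 0 ∉ T m ∧ pc m j - stp (j + 2) 0 ∉ T m := by
  rw [mem_T, mem_T]
  constructor
  · fin_cases j <;> simp [stp, pc]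
  · fin_cases j <;> simp [stp, pc]

lemma Z_s {m : ℕ} (hm : 1 ≤ m) (x : Fin 3 → K) (w : K) {s : Pt} (hs : s ∈ T m) :
    Z (ws x w s) (Din m) = V m x w s := by
  by_cases hc : ∀ t, s ≠ pc m t
  · rw [Z_s_gen x w hs hc]
    rw [V_eq m x w s 0]
    simp only [show (0 : Fin 3) + 1 = 1 from rfl, show (0 : Fin 3) + 2 = 2 from rfl]
    rw [N_rec x w 0 hs (hc 0), N_rec x w 1 hs (hc 1), N_rec x w 2 hs (hc 2)]
    simp only [Fin.sum_univ_three]
    simp [wk]
    ring
  · push Not at hc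
    obtain ⟨j, rfl⟩ := hc
    have hj1 : j + 1 ≠ j := by fin_cases j <;> decide
    have hj2 : j + 2 ≠ j := by fin_cases j <;> decide
    rw [Z_s_corner hm, V_eq m x w _ j]
    have h1 : N m x w j (pc m j - stp j 0) = 0 := N_eq_zero (corner_out j).1
    have h2 : N m x w (j + 2) (pc m j - stp (j + 2) 0) = 0 := N_eq_zero (corner_out j).2
    rw [N_pc, N_rec x w (j + 1) (pc_mem m j) (pc_ne hm hj1),
      N_rec x w (j + 2) (pc_mem m j) (pc_ne hm hj2), h1, h2]
    simp only [Fin.sum_univ_three]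
    simp [wk]
    ring

theorem Z_in_T {m : ℕ} (hm : 1 ≤ m) (x : Fin 3 → K) (w : K) :
    Z (fun τ => W' x w τ.1) (Din m) = ∑ s ∈ T m, V m x w s := by
  rw [Z_Din]
  exact Finset.sum_congr rfl (fun s hs => Z_s hm x w hs)

/-- sum over the triangle as nested sum over antidiagonals -/
lemma sum_T (m : ℕ) (f : Pt → K) : ∑ s ∈ T m, f s
    = ∑ p ∈ Finset.HasAntidiagonal.antidiagonal m, ∑ q ∈ Finset.HasAntidiagonal.antidiagonal p.2,
      f ((p.1 : ℤ), (q.1 : ℤ)) := by
  rw [Finset.sum_sigma']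
  symm
  apply Finset.sum_bij (fun (r : (_ : ℕ × ℕ) × (ℕ × ℕ)) _ => (((r.1.1 : ℕ) : ℤ), ((r.2.1 : ℕ) : ℤ)))
  · rintro ⟨⟨a, b⟩, ⟨c, d⟩⟩ h
    simp only [mem_sigma, Finset.HasAntidiagonal.mem_antidiagonal] at h
    rw [mem_T]
    simp only
    omega
  · rintro ⟨⟨a, b⟩, ⟨c, d⟩⟩ h ⟨⟨a', b'⟩, ⟨c', d'⟩⟩ h' e
    simp only [mem_sigma, Finset.HasAntidiagonal.mem_antidiagonal] at h h'
    simp only [Prod.mk.injEq, Nat.cast_inj] at e
    have : b = b' := by omega
    have : d = d' := by omega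
    simp only [Sigma.mk.injEq, Prod.mk.injEq, heq_eq_eq]
    omega
  · rintro ⟨a, b⟩ h
    rw [mem_T] at h
    simp only at h
    refine ⟨⟨(a.toNat, m - a.toNat), (b.toNat, m - a.toNat - b.toNat)⟩, ?_, ?_⟩
    · simp only [mem_sigma, Finset.HasAntidiagonal.mem_antidiagonal]
      omega
    · simp only [Prod.mk.injEq]
      omega
  · rintro ⟨⟨a, b⟩, ⟨c, d⟩⟩ h
    rfl

/-- shifting the summation point -/
lemma sum_shift {m : ℕ} (u : Pt) (f : Pt → K) (g : Pt → K)
    (h : ∀ s ∈ T m, s - u ∉ T m → f s = 0) (h' : ∀ s ∈ T m, s + u ∉ T m → g s = 0)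
    (hfg : ∀ s ∈ T m, s - u ∈ T m → f s = g (s - u)) :
    ∑ s ∈ T m, f s = ∑ s ∈ T m, g s := by
  classical
  rw [← Finset.sum_filter_add_sum_filter_not (T m) (fun s => s - u ∈ T m) f,
    ← Finset.sum_filter_add_sum_filter_not (T m) (fun s => s + u ∈ T m) g]
  congr 1
  · apply Finset.sum_bij (fun s _ => s - u)
    · intro s hs
      rw [mem_filter] at hs ⊢
      exact ⟨hs.2, by rw [sub_add_cancel]; exact hs.1⟩
    · intro s _ s' _ e
      exact sub_left_inj.1 e
    · intro s hs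
      rw [mem_filter] at hs
      exact ⟨s + u, mem_filter.2 ⟨hs.2, by rw [add_sub_cancel_right]; exact hs.1⟩,
        add_sub_cancel_right _ _⟩
    · intro s hs
      rw [mem_filter] at hs
      exact hfg s hs.1 hs.2
  · rw [Finset.sum_eq_zero, Finset.sum_eq_zero]
    · intro s hs
      rw [mem_filter] at hs
      exact h' s hs.1 hs.2
    · intro s hs
      rw [mem_filter] at hs
      exact h s hs.1 hs.2

end Pool.Agent.R730.Bz
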