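import Pool.Agent.R730.Bz.Inw3

set_option autoImplicit false

/-!
The inward formula.
-/

namespace Pool.Agent.R730.Bz

open Finset

variable {K : Type*} [CommRing K]

lemma Rz_Rm (x w : K) (a b : ℕ) : Rz x w ((a : ℤ) - 1) b = Rm x w a b := by
  rcases a with _ | a
  · rw [Rz_neg_left _ _ _ (by norm_num)]; rfl
  · rw [show (((a + 1 : ℕ) : ℤ) - 1) = (a : ℤ) by push_cast; ring, Rz_nat]; rfl

lemma N_shift_sum {m : ℕ} (x : Fin 3 → K) (w : K) (t : Fin 3) :
    ∑ s ∈ T m, x t * x (t + 1) *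
      (N m x w t (s - stp t 0) * N m x w (t + 1) (s - stp t 0) * N m x w (t + 2) s)
    = ∑ s ∈ T m, x t * x (t + 1) *
      (N m x w t s * N m x w (t + 1) s * N m x w (t + 2) (s + stp t 0)) := by
  apply sum_shift (stp t 0)
  · intro s _ h
    rw [N_eq_zero h]; ring
  · intro s _ h
    rw [N_eq_zero h]; ring
  · intro s _ _
    rw [sub_add_cancel]

theorem Z_in {m : ℕ} (hm : 1 ≤ m) (x : Fin 3 → K) (w : K) :
    Z (fun τ => W' x w τ.1) (Din m) = INs (x 0) (x 1) (x 2) w m := by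
  rw [Z_in_T hm]
  have h1 : ∑ s ∈ T m, V m x w s = ∑ s ∈ T m, (N m x w 0 s * N m x w 1 s * N m x w 2 s
      - x 0 * x 1 * (N m x w 0 s * N m x w 1 s * N m x w 2 (s + stp 0 0))
      - x 1 * x 2 * (N m x w 1 s * N m x w 2 s * N m x w 0 (s + stp 1 0))
      - x 2 * x 0 * (N m x w 2 s * N m x w 0 s * N m x w 1 (s + stp 2 0))) := by
    have e0 := N_shift_sum (m := m) x w 0
    have e1 := N_shift_sum (m := m) x w 1
    have e2 := N_shift_sum (m := m) x w 2
    simp only [show (0 : Fin 3) + 1 = 1 from rfl, show (0 : Fin 3) + 2 = 2 from rfl,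
      show (1 : Fin 3) + 1 = 2 from rfl, show (2 : Fin 3) + 1 = 0 from rfl,
      show (1 : Fin 3) + 2 = 0 from rfl, show (2 : Fin 3) + 2 = 1 from rfl] at e0 e1 e2
    rw [Finset.sum_sub_distrib, Finset.sum_sub_distrib, Finset.sum_sub_distrib, ← e0, ← e1, ← e2,
      ← Finset.sum_sub_distrib, ← Finset.sum_sub_distrib, ← Finset.sum_sub_distrib]
    apply Finset.sum_congr rfl
    intro s _
    rw [V_eq m x w s 0]
    have f0 : N m x w 1 (s - stp 0 0) = N m x w 1 (s - stp 1 1) := rfl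
    have f1 : N m x w 2 (s - stp 1 0) = N m x w 2 (s - stp 2 1) := rfl
    have f2 : N m x w 0 (s - stp 2 0) = N m x w 0 (s - stp 0 1) := rfl
    rw [f0, f1, f2]
    simp only [show (0 : Fin 3) + 1 = 1 from rfl, show (0 : Fin 3) + 2 = 2 from rfl]
    ring
  rw [h1, sum_T]
  unfold INs
  apply Finset.sum_congr rfl
  rintro ⟨a, d⟩ h
  apply Finset.sum_congr rfl
  rintro ⟨b, c⟩ h'
  rw [Finset.HasAntidiagonal.mem_antidiagonal] at h h'
  simp only at h h' ⊢
  have hc : (m : ℤ) - a - b = c := by omega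
  have n0 : N m x w 0 ((a : ℤ), (b : ℤ)) = R (x 0) w a b := by
    rw [← Rz_nat]
    unfold N
    simp only [show (0 : Fin 3) + 1 = 1 from rfl, show (0 : Fin 3) + 2 = 2 from rfl, cp]
    rw [if_pos (by omega)]
  have n1 : N m x w 1 ((a : ℤ), (b : ℤ)) = R (x 1) w b c := by
    rw [← Rz_nat]
    unfold N
    simp only [show (1 : Fin 3) + 1 = 2 from rfl, show (1 : Fin 3) + 2 = 0 from rfl, cp]
    rw [if_pos (by omega), hc]
  have n2 : N m x w 2 ((a : ℤ), (b : ℤ)) = R (x 2) w c a := by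
    rw [← Rz_nat]
    unfold N
    simp only [show (2 : Fin 3) + 1 = 0 from rfl, show (2 : Fin 3) + 2 = 1 from rfl, cp]
    rw [if_pos (by omega), hc]
  have s2 : N m x w 2 (((a : ℤ), (b : ℤ)) + stp 0 0) = Rm (x 2) w c a := by
    rw [← Rz_Rm]
    unfold N
    simp only [show (2 : Fin 3) + 1 = 0 from rfl, show (2 : Fin 3) + 2 = 1 from rfl, cp, stp,
      Prod.mk_add_mk, add_zero]
    rw [if_pos (by omega)]
    congr 1
    omega
  have s0 : N m x w 0 (((a : ℤ), (b : ℤ)) + stp 1 0) = Rm (x 0) w a b := by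
    rw [← Rz_Rm]
    unfold N
    simp only [show (0 : Fin 3) + 1 = 1 from rfl, show (0 : Fin 3) + 2 = 2 from rfl, cp, stp,
      Prod.mk_add_mk, add_zero]
    rw [if_pos (by omega)]
    congr 1
  have s1 : N m x w 1 (((a : ℤ), (b : ℤ)) + stp 2 0) = Rm (x 1) w b c := by
    rw [← Rz_Rm]
    unfold N
    simp only [show (1 : Fin 3) + 1 = 2 from rfl, show (1 : Fin 3) + 2 = 0 from rfl, cp, stp,
      Prod.mk_add_mk]
    rw [if_pos (by omega)]
    congr 1
    omega
  rw [n0, n1, n2, s0, s1, s2]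
  ring

/-- the weights of all the tiles: right stones `1`, left stones `w`, bones of orientation `t`
weight `x t` -/
def Wt (x : Fin 3 → K) (w : K) : Sh → K
  | Sh.z => 1
  | Sh.s t k => wk x w t k
  | Sh.j 0 => 1
  | Sh.j 1 => 1
  | Sh.j 2 => x 2
  | Sh.j 3 => x 0
  | Sh.j 4 => x 1

theorem Z_in' {m : ℕ} (hm : 1 ≤ m) (x : Fin 3 → K) (w : K) :
    Z (fun τ => Wt x w τ.1) (Din m) = INs (x 0) (x 1) (x 2) w m := by
  rw [← Z_in hm]
  apply Z_congr
  intro M hM
  apply Finset.prod_congr rfl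
  intro τ hτ
  have hj := no_ju hM τ hτ
  obtain ⟨sh, v⟩ := τ
  rcases sh with _ | ⟨t, k⟩ | k
  · rfl
  · rfl
  · exact absurd ⟨k, rfl⟩ hj

end Pool.Agent.R730.Bz
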