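import Pool.Agent.R730.Bz.Trans2
import Pool.Agent.R730.Bz.Alg

set_option autoImplicit false

/-!
Numbers of tilings of the `(m+2, 2m+1)`-benzel and of the `(m+2, 2m)`-benzel.
-/

namespace Pool.Agent.R730.Bz

open Finset

variable {K : Type*} [CommRing K]

/-- weight of a kind of tile -/
def kw (x : Fin 3 → K) (w : K) : Kd → K
  | Kd.r => 1
  | Kd.l => w
  | Kd.b t => x t

lemma Wt_kd (x : Fin 3 → K) (w : K) (sh : Sh) : Wt x w sh = kw x w (kd sh) := by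
  rcases sh with _ | ⟨t, k⟩ | k
  · rfl
  · show wk x w t k = kw x w (if k = 2 then Kd.l else Kd.b t)
    unfold wk
    split_ifs <;> rfl
  · fin_cases k <;> rfl

lemma right_Ph {m : ℕ} {τ : Tl} : IsRight (Ph m τ) ↔ kd τ.1 = Kd.r := IsKd_Ph (κ := Kd.r)
lemma left_Ph {m : ℕ} {τ : Tl} : IsLeft (Ph m τ) ↔ kd τ.1 = Kd.l := IsKd_Ph (κ := Kd.l)
lemma bone_Ph {m : ℕ} {τ : Tl} {t : Fin 3} : IsBone t (Ph m τ) ↔ kd τ.1 = Kd.b t :=
  IsKd_Ph (κ := Kd.b t)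

theorem T113_eq {m : ℕ} {D : Fin 3 → Finset Pt} {a b : ℤ} (hD : Desc m D (benzel a b)) :
    (T113 a b : ℤ) = Z (fun τ => Wt (fun _ => 1) 1 τ.1) D := by
  classical
  unfold T113
  rw [count_eq (K := ℤ) hD AnyTile (fun _ h => h)]
  congr 1
  funext τ
  rw [Wt_kd]
  simp only [AnyTile, right_Ph, left_Ph, bone_Ph]
  rcases hk : kd τ.1 with _ | _ | t <;> simp [kw]

theorem T112_eq (t₀ : Fin 3) {m : ℕ} {D : Fin 3 → Finset Pt} {a b : ℤ}
    (hD : Desc m D (benzel a b)) :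
    (T112 t₀ a b : ℤ) = Z (fun τ => Wt (fun t => if t = t₀ then 0 else 1) 1 τ.1) D := by
  classical
  unfold T112
  rw [count_eq (K := ℤ) hD]
  · congr 1
    funext τ
    rw [Wt_kd]
    simp only [right_Ph, left_Ph, bone_Ph]
    rcases hk : kd τ.1 with _ | _ | t <;> simp [kw]
  · rintro σ (h | h | ⟨t, -, h⟩)
    · exact Or.inl h
    · exact Or.inr (Or.inl h)
    · exact Or.inr (Or.inr ⟨t, h⟩)

theorem T103_eq {m : ℕ} {D : Fin 3 → Finset Pt} {a b : ℤ} (hD : Desc m D (benzel a b)) :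
    (T103 a b : ℤ) = Z (fun τ => Wt (fun _ => 1) 0 τ.1) D := by
  classical
  unfold T103
  rw [count_eq (K := ℤ) hD]
  · congr 1
    funext τ
    rw [Wt_kd]
    simp only [right_Ph, bone_Ph]
    rcases hk : kd τ.1 with _ | _ | t <;> simp [kw]
  · rintro σ (h | ⟨t, h⟩)
    · exact Or.inl h
    · exact Or.inr (Or.inr ⟨t, h⟩)

theorem T113w_eq {q : ℕ} (hq : q ≠ 0) {m : ℕ} {D : Fin 3 → Finset Pt} {a b : ℤ}
    (hD : Desc m D (benzel a b)) :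
    (T113w q a b : ℚ) = (q : ℚ) ^ (D 0).card * Z (fun τ => Wt (fun _ => (q : ℚ)⁻¹) 1 τ.1) D := by
  classical
  have hq' : (q : ℚ) ≠ 0 := by exact_mod_cast hq
  unfold T113w
  rw [weighted_eq (K := ℚ) hD q, ← Z_scale]
  congr 1
  funext τ
  rw [Wt_kd]
  simp only [right_Ph, left_Ph]
  rcases hk : kd τ.1 with _ | _ | t <;> simp [kw, hq']

/-- the four inward counts -/
theorem T113_in {m : ℕ} (hm : 1 ≤ m) : (T113 ((m : ℤ) + 2) (2 * m + 1) : ℤ) = F 1 m := by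
  rw [T113_eq (desc_in m), Z_in' hm, INs_one]

theorem T103_in {m : ℕ} (hm : 1 ≤ m) : (T103 ((m : ℤ) + 2) (2 * m + 1) : ℤ) = F 0 m := by
  rw [T103_eq (desc_in m), Z_in' hm, INs_one]

theorem T113_out (n : ℕ) : (T113 ((n : ℤ) + 4) (2 * n + 4) : ℤ) = G 1 n := by
  have h := desc_out (n + 2)
  rw [show (((n + 2 : ℕ) : ℤ) + 2) = (n : ℤ) + 4 by push_cast; ring,
    show (2 * ((n + 2 : ℕ) : ℤ)) = 2 * (n : ℤ) + 4 by push_cast; ring] at h
  rw [T113_eq h, Z_out, OUTs_one]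

lemma card_T (m : ℕ) : 2 * (T m).card = (m + 1) * (m + 2) := by
  have h1 : ((T m).card : ℤ) = ∑ p ∈ Finset.HasAntidiagonal.antidiagonal m, ((p.2 : ℤ) + 1) := by
    have := sum_T (K := ℤ) m (fun _ => 1)
    simp only [Finset.sum_const, nsmul_eq_mul, mul_one, Finset.Nat.card_antidiagonal] at this
    rw [this]
    push_cast
    rfl
  have h2 : ∀ m : ℕ, 2 * ∑ p ∈ Finset.HasAntidiagonal.antidiagonal m, ((p.2 : ℤ) + 1)
      = ((m : ℤ) + 1) * (m + 2) := by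
    intro m
    induction m with
    | zero => simp
    | succ m ih =>
      rw [Finset.Nat.sum_antidiagonal_succ, mul_add, ih]
      push_cast
      ring
  have h3 := h2 m
  rw [← h1] at h3
  exact_mod_cast h3

lemma card_Din (m : ℕ) : (Din m 0).card + 1 = (T m).card := by
  unfold Din
  exact card_erase_add_one (pc_mem m 0)

lemma card_Dout {m : ℕ} (hm : 1 ≤ m) : (Dout m 0).card + 2 = (T m).card := by
  unfold Dout
  have h1 : pc m (0 + 2) ∈ (T m).erase (pc m 0) :=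
    mem_erase.2 ⟨pc_ne hm (by decide), pc_mem m _⟩
  have h2 := card_erase_add_one h1
  have h3 := card_erase_add_one (pc_mem m 0)
  omega

theorem T113w_in {q : ℕ} (hq : q ≠ 0) {m : ℕ} (hm : 1 ≤ m) :
    (T113w q ((m : ℤ) + 2) (2 * m + 1) : ℤ) * (q : ℤ) ^ (3 * m + 1)
      = (q : ℤ) ^ (T m).card * F ((q : ℤ) ^ 2) m := by
  have hq' : (q : ℚ) ≠ 0 := by exact_mod_cast hq
  have h1 : (T113w q ((m : ℤ) + 2) (2 * m + 1) : ℚ) * (q : ℚ) ^ (3 * m + 1)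
      = (q : ℚ) ^ (T m).card * ((F ((q : ℤ) ^ 2) m : ℤ) : ℚ) := by
    rw [T113w_eq hq (desc_in m), Z_in' hm, ← card_Din m]
    have h2 := INs_scale (1 : ℚ) 1 1 ((q : ℚ) ^ 2) (q : ℚ)⁻¹ m
    have h3 : (q : ℚ) ^ 2 * (q : ℚ)⁻¹ ^ 2 = 1 := by
      rw [← mul_pow, mul_inv_cancel₀ hq', one_pow]
    rw [h3, one_mul] at h2
    have h4 := INs_map (Int.castRingHom ℚ) 1 1 1 ((q : ℤ) ^ 2) m
    simp only [map_one, map_pow, eq_intCast, Int.cast_natCast] at h4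
    rw [h2, h4, INs_one]
    have h5 : (q : ℚ)⁻¹ ^ (3 * m) * (q : ℚ) ^ (3 * m) = 1 := by
      rw [← mul_pow, inv_mul_cancel₀ hq', one_pow]
    generalize ((F ((q : ℤ) ^ 2) m : ℤ) : ℚ) = Fq
    rw [pow_succ, pow_succ]
    linear_combination ((q : ℚ) ^ (Din m 0).card * Fq * (q : ℚ)) * h5
  exact_mod_cast h1

theorem T113w_out {q : ℕ} (hq : q ≠ 0) (n : ℕ) :
    (T113w q ((n : ℤ) + 4) (2 * n + 4) : ℤ) * (q : ℤ) ^ (3 * (n + 1) + 2)
      = (q : ℤ) ^ (T (n + 2)).card * G ((q : ℤ) ^ 2) n := by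
  have hq' : (q : ℚ) ≠ 0 := by exact_mod_cast hq
  have h := desc_out (n + 2)
  rw [show (((n + 2 : ℕ) : ℤ) + 2) = (n : ℤ) + 4 by push_cast; ring,
    show (2 * ((n + 2 : ℕ) : ℤ)) = 2 * (n : ℤ) + 4 by push_cast; ring] at h
  have h1 : (T113w q ((n : ℤ) + 4) (2 * n + 4) : ℚ) * (q : ℚ) ^ (3 * (n + 1) + 2)
      = (q : ℚ) ^ (T (n + 2)).card * ((G ((q : ℤ) ^ 2) n : ℤ) : ℚ) := by
    rw [T113w_eq hq h, Z_out, ← card_Dout (by omega)]
    have h2 := OUTs_scale (1 : ℚ) 1 1 ((q : ℚ) ^ 2) (q : ℚ)⁻¹ n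
    have h3 : (q : ℚ) ^ 2 * (q : ℚ)⁻¹ ^ 2 = 1 := by
      rw [← mul_pow, mul_inv_cancel₀ hq', one_pow]
    rw [h3, one_mul] at h2
    have h4 := OUTs_map (Int.castRingHom ℚ) 1 1 1 ((q : ℤ) ^ 2) n
    simp only [map_one, map_pow, eq_intCast, Int.cast_natCast] at h4
    rw [h2, h4, OUTs_one]
    have h5 : (q : ℚ)⁻¹ ^ (3 * (n + 1)) * (q : ℚ) ^ (3 * (n + 1)) = 1 := by
      rw [← mul_pow, inv_mul_cancel₀ hq', one_pow]
    generalize ((G ((q : ℤ) ^ 2) n : ℤ) : ℚ) = Gq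
    rw [pow_add, pow_add]
    linear_combination ((q : ℚ) ^ (Dout (n + 2) 0).card * Gq * (q : ℚ) ^ 2) * h5
  exact_mod_cast h1

end Pool.Agent.R730.Bz
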