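import Pool.Agent.R730.Bz.RDef

set_option autoImplicit false

/-!
2-adic continuity of the two path sums `F` and `G`.
-/

namespace Pool.Agent.R730.Bz

open Finset

/-! ### Periodic functions with values in a ring with `2 ^ k = 0` -/

section Per

variable {A : Type*} [CommRing A]

omit [CommRing A] in
lemma per_mul {f : ℕ → A} {p : ℕ} (h : ∀ n, f (n + p) = f n) (t n : ℕ) : f (n + t * p) = f n := by
  induction t with
  | zero => simp
  | succ t ih =>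
    rw [show n + (t + 1) * p = n + t * p + p by ring, h, ih]

omit [CommRing A] in
lemma per_mono {f : ℕ → A} {r r' : ℕ} (hr : r ≤ r') (h : ∀ n, f (n + 2 ^ r) = f n) (n : ℕ) :
    f (n + 2 ^ r') = f n := by
  obtain ⟨d, rfl⟩ := Nat.exists_eq_add_of_le hr
  rw [show 2 ^ (r + d) = 2 ^ d * 2 ^ r by rw [pow_add, mul_comm]]
  exact per_mul h _ n

/-- The sum of `ψ i l` over `i + l = n - 1`. -/
def U (ψ : ℕ → ℕ → A) (n : ℕ) : A := ∑ i ∈ range n, ψ i (n - 1 - i)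

lemma U_step {ψ : ℕ → ℕ → A} {p : ℕ} (h2 : ∀ a b, ψ a (b + p) = ψ a b) (n : ℕ) :
    U ψ (n + p) = U ψ n + ∑ u ∈ range p, ψ (n + u) (p - 1 - u) := by
  unfold U
  rw [Finset.sum_range_add]
  congr 1
  · refine Finset.sum_congr rfl fun i hi => ?_
    rw [Finset.mem_range] at hi
    rw [show n + p - 1 - i = n - 1 - i + p by omega, h2]
  · refine Finset.sum_congr rfl fun u hu => ?_
    rw [Finset.mem_range] at hu
    rw [show n + p - 1 - (n + u) = p - 1 - u by omega]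

lemma U_per {ψ : ℕ → ℕ → A} {r k : ℕ} (hA : (2 : A) ^ k = 0)
    (h1 : ∀ a b, ψ (a + 2 ^ r) b = ψ a b) (h2 : ∀ a b, ψ a (b + 2 ^ r) = ψ a b) (n : ℕ) :
    U ψ (n + 2 ^ (r + k)) = U ψ n := by
  have key : ∀ t n, U ψ (n + t * 2 ^ r) = U ψ n +
      t * ∑ u ∈ range (2 ^ r), ψ (n + u) (2 ^ r - 1 - u) := by
    intro t
    induction t with
    | zero => intro n; simp
    | succ t ih =>
      intro n
      rw [show n + (t + 1) * 2 ^ r = n + t * 2 ^ r + 2 ^ r by ring, U_step h2, ih]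
      have e : ∑ u ∈ range (2 ^ r), ψ (n + t * 2 ^ r + u) (2 ^ r - 1 - u)
          = ∑ u ∈ range (2 ^ r), ψ (n + u) (2 ^ r - 1 - u) := by
        refine Finset.sum_congr rfl fun u _ => ?_
        rw [show n + t * 2 ^ r + u = n + u + t * 2 ^ r by ring]
        exact per_mul (f := fun a => ψ a (2 ^ r - 1 - u)) (fun a => h1 a _) t (n + u)
      rw [e]
      push_cast
      ring
  rw [show 2 ^ (r + k) = 2 ^ k * 2 ^ r by rw [pow_add, mul_comm], key]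
  push_cast
  rw [hA, zero_mul, add_zero]

lemma sum_per {f : ℕ → A} {r k : ℕ} (hA : (2 : A) ^ k = 0) (h : ∀ n, f (n + 2 ^ r) = f n) (n : ℕ) :
    ∑ i ∈ range (n + 2 ^ (r + k)), f i = ∑ i ∈ range n, f i :=
  U_per (ψ := fun i _ => f i) hA (fun a _ => h a) (fun _ _ => rfl) n

/-- Periodicity on the four strata of `ℕ × ℕ`. -/
structure Strat (r : ℕ) (ψ : ℕ → ℕ → A) : Prop where
  h1 : ∀ a n, ψ (a + 1 + 2 ^ r) (n + 1) = ψ (a + 1) (n + 1)
  h2 : ∀ a n, ψ (a + 1) (n + 1 + 2 ^ r) = ψ (a + 1) (n + 1)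
  h3 : ∀ n, ψ 0 (n + 1 + 2 ^ r) = ψ 0 (n + 1)
  h4 : ∀ a, ψ (a + 1 + 2 ^ r) 0 = ψ (a + 1) 0

lemma conv_eq (ψ : ℕ → ℕ → A) (m : ℕ) :
    ∑ p ∈ HasAntidiagonal.antidiagonal (m + 1), ψ p.1 p.2
      = ψ 0 (m + 1) + ψ (m + 1) 0 + U (fun i l => ψ (i + 1) (l + 1)) m := by
  rw [Finset.Nat.sum_antidiagonal_eq_sum_range_succ_mk, Finset.sum_range_succ,
    Finset.sum_range_succ']
  unfold U
  have e : ∑ i ∈ range m, ψ (i + 1) (m + 1 - (i + 1))
      = ∑ i ∈ range m, ψ (i + 1) (m - 1 - i + 1) := by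
    refine Finset.sum_congr rfl fun i hi => ?_
    rw [Finset.mem_range] at hi
    rw [show m + 1 - (i + 1) = m - 1 - i + 1 by omega]
  simp only [] at e ⊢
  rw [e]
  simp only [Nat.sub_self, Nat.sub_zero]
  ring

lemma conv_per {ψ : ℕ → ℕ → A} {r k : ℕ} (hA : (2 : A) ^ k = 0) (h : Strat r ψ) (m : ℕ) :
    ∑ p ∈ HasAntidiagonal.antidiagonal (m + 1 + 2 ^ (r + k)), ψ p.1 p.2
      = ∑ p ∈ HasAntidiagonal.antidiagonal (m + 1), ψ p.1 p.2 := by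
  rw [show m + 1 + 2 ^ (r + k) = m + 2 ^ (r + k) + 1 by ring, conv_eq, conv_eq]
  have e1 : ψ 0 (m + 2 ^ (r + k) + 1) = ψ 0 (m + 1) := by
    have := per_mono (f := fun n => ψ 0 (n + 1)) (r := r) (r' := r + k) (by omega)
      (fun n => by
        show ψ 0 (n + 2 ^ r + 1) = ψ 0 (n + 1)
        rw [show n + 2 ^ r + 1 = n + 1 + 2 ^ r by ring]
        exact h.h3 n) m
    exact this
  have e2 : ψ (m + 2 ^ (r + k) + 1) 0 = ψ (m + 1) 0 := by
    have := per_mono (f := fun n => ψ (n + 1) 0) (r := r) (r' := r + k) (by omega)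
      (fun n => by
        show ψ (n + 2 ^ r + 1) 0 = ψ (n + 1) 0
        rw [show n + 2 ^ r + 1 = n + 1 + 2 ^ r by ring]
        exact h.h4 n) m
    exact this
  have e3 : U (fun i l => ψ (i + 1) (l + 1)) (m + 2 ^ (r + k))
      = U (fun i l => ψ (i + 1) (l + 1)) m := by
    apply U_per hA
    · intro a b
      show ψ (a + 2 ^ r + 1) (b + 1) = ψ (a + 1) (b + 1)
      rw [show a + 2 ^ r + 1 = a + 1 + 2 ^ r by ring]
      exact h.h1 a b
    · intro a b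
      show ψ (a + 1) (b + 2 ^ r + 1) = ψ (a + 1) (b + 1)
      rw [show b + 2 ^ r + 1 = b + 1 + 2 ^ r by ring]
      exact h.h2 a b
  rw [e1, e2, e3]

/-- `φ 0 b = 1`, and `φ (a + 1) b` is periodic in both variables. -/
structure Good (r : ℕ) (φ : ℕ → ℕ → A) : Prop where
  h0 : ∀ b, φ 0 b = 1
  h1 : ∀ a b, φ (a + 1 + 2 ^ r) b = φ (a + 1) b
  h2 : ∀ a b, φ (a + 1) (b + 2 ^ r) = φ (a + 1) b

lemma Good.h2' {r : ℕ} {φ : ℕ → ℕ → A} (h : Good r φ) (a b : ℕ) : φ a (b + 2 ^ r) = φ a b := by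
  cases a with
  | zero => rw [h.h0, h.h0]
  | succ a => exact h.h2 a b

/-- The sum over `a + b + c = m`. -/
def S3 (φ₁ φ₂ φ₃ : ℕ → ℕ → A) (m : ℕ) : A :=
  ∑ p ∈ HasAntidiagonal.antidiagonal m, ∑ q ∈ HasAntidiagonal.antidiagonal p.2,
    φ₁ p.1 q.1 * φ₂ q.1 q.2 * φ₃ q.2 p.1

lemma S3_per {φ₁ φ₂ φ₃ : ℕ → ℕ → A} {r k : ℕ} (hA : (2 : A) ^ k = 0) (h₁ : Good r φ₁)
    (h₂ : Good r φ₂) (h₃ : Good r φ₃) (m : ℕ) :
    S3 φ₁ φ₂ φ₃ (m + 1 + 2 ^ (r + k + k)) = S3 φ₁ φ₂ φ₃ (m + 1) := by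
  have hχ : ∀ a, Strat r fun b c => φ₁ a b * φ₂ b c * φ₃ c a := by
    intro a
    refine ⟨fun b c => ?_, fun b c => ?_, fun c => ?_, fun b => ?_⟩
    · simp only [h₁.h2' a (b + 1), h₂.h1]
    · simp only [h₂.h2, h₃.h1]
    · simp only [h₂.h2', h₃.h1]
    · simp only [h₁.h2' a (b + 1), h₂.h1]
  have hψ : Strat (r + k) fun a n => ∑ q ∈ HasAntidiagonal.antidiagonal n,
      φ₁ a q.1 * φ₂ q.1 q.2 * φ₃ q.2 a := by
    have hr : r ≤ r + k := by omega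
    have hp1 : ∀ a b, φ₁ (a + 1 + 2 ^ (r + k)) b = φ₁ (a + 1) b := by
      intro a b
      have := per_mono (f := fun a => φ₁ (a + 1) b) hr (fun n => by
        show φ₁ (n + 2 ^ r + 1) b = φ₁ (n + 1) b
        rw [show n + 2 ^ r + 1 = n + 1 + 2 ^ r by ring]
        exact h₁.h1 n b) a
      rw [show a + 1 + 2 ^ (r + k) = a + 2 ^ (r + k) + 1 by ring]
      exact this
    have hp3 : ∀ c a, φ₃ c (a + 1 + 2 ^ (r + k)) = φ₃ c (a + 1) := by
      intro c a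
      exact per_mono (f := fun a => φ₃ c a) hr (fun n => h₃.h2' c n) (a + 1)
    refine ⟨fun a n => ?_, fun a n => ?_, fun n => ?_, fun a => ?_⟩
    · refine Finset.sum_congr rfl fun q _ => ?_
      rw [hp1, hp3]
    · exact conv_per hA (hχ (a + 1)) n
    · exact conv_per hA (hχ 0) n
    · refine Finset.sum_congr rfl fun q _ => ?_
      rw [hp1, hp3]
  exact conv_per hA hψ m

end Per

/-! ### The recursion -/

/-- `∑ R i (j + l)` over `i + l = a`. -/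
def TA (w : ℤ) (a j : ℕ) : ℤ := ∑ p ∈ HasAntidiagonal.antidiagonal a, R 1 w p.1 (j + p.2)

lemma R_zero (w : ℤ) (b : ℕ) : R 1 w 0 b = 1 := by
  rw [R, one_pow]

lemma R_succ_zero (w : ℤ) (a : ℕ) : R 1 w (a + 1) 0 = R 1 w a 1 + w * R 1 w a 0 := by
  rw [R, one_mul]

lemma R_succ_succ (w : ℤ) (a b : ℕ) : R 1 w (a + 1) (b + 1)
    = R 1 w (a + 1) b + R 1 w a (b + 2) + w * R 1 w a (b + 1) := by
  rw [R, one_mul, one_mul]

lemma T_zero (w : ℤ) (j : ℕ) : TA w 0 j = 1 := by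
  simp [TA, R_zero]

lemma T_succ (w : ℤ) (a j : ℕ) : TA w (a + 1) j = R 1 w (a + 1) j + TA w a (j + 1) := by
  unfold TA
  rw [Finset.Nat.antidiagonal_succ', Finset.sum_cons, Finset.sum_map]
  congr 1
  refine Finset.sum_congr rfl fun p _ => ?_
  show R 1 w p.1 (j + (p.2 + 1)) = R 1 w p.1 (j + 1 + p.2)
  rw [show j + (p.2 + 1) = j + 1 + p.2 by ring]

lemma R_T (w : ℤ) (a : ℕ) : R 1 w (a + 1) 0 = (1 + w) * TA w a 0 ∧
    ∀ b, R 1 w (a + 1) (b + 1) = R 1 w (a + 1) b + (1 + w) * TA w a (b + 1) := by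
  induction a with
  | zero =>
    refine ⟨?_, fun b => ?_⟩
    · rw [R_succ_zero, R_zero, R_zero, T_zero]
      ring
    · rw [R_succ_succ, R_zero, R_zero, T_zero]
      ring
  | succ a ih =>
    obtain ⟨ih0, ih1⟩ := ih
    refine ⟨?_, fun b => ?_⟩
    · rw [R_succ_zero, T_succ, ih1 0]
      ring
    · rw [R_succ_succ, T_succ, ih1 (b + 1)]
      ring

lemma R_eq_sum (w : ℤ) (a b : ℕ) :
    R 1 w (a + 1) b = (1 + w) * ∑ j ∈ range (b + 1), TA w a j := by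
  induction b with
  | zero => rw [(R_T w a).1]; simp
  | succ b ih => rw [(R_T w a).2, ih, Finset.sum_range_succ _ (b + 1)]; ring

lemma T_eq (w : ℤ) (a j : ℕ) : TA w a j = 1 + ∑ i ∈ range a, R 1 w (i + 1) (a - 1 - i + j) := by
  unfold TA
  rw [Finset.Nat.sum_antidiagonal_eq_sum_range_succ_mk, Finset.sum_range_succ']
  simp only [R_zero]
  rw [add_comm]
  congr 1
  refine Finset.sum_congr rfl fun i hi => ?_
  rw [Finset.mem_range] at hi
  rw [show j + (a - (i + 1)) = a - 1 - i + j by omega]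

lemma R_good (w : ℤ) (hw : Odd w) (k : ℕ) :
    ∃ r, ∀ a b, R 1 w (a + 1 + 2 ^ r) b ≡ R 1 w (a + 1) b [ZMOD 2 ^ k] ∧
      R 1 w (a + 1) (b + 2 ^ r) ≡ R 1 w (a + 1) b [ZMOD 2 ^ k] := by
  induction k with
  | zero =>
    refine ⟨0, fun a b => ⟨?_, ?_⟩⟩ <;> rw [pow_zero] <;> exact Int.modEq_one
  | succ k ih =>
    obtain ⟨r, hr⟩ := ih
    obtain ⟨v, hv⟩ : ∃ v, 1 + w = 2 * v := by
      obtain ⟨u, hu⟩ := hw
      exact ⟨u + 1, by rw [hu]; ring⟩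
    have hA : (2 : ZMod (2 ^ k)) ^ k = 0 := by
      have := ZMod.natCast_self (2 ^ k)
      push_cast at this
      exact this
    have hcast : ∀ x y : ℤ, x ≡ y [ZMOD 2 ^ k] ↔ (x : ZMod (2 ^ k)) = y := by
      intro x y
      rw [ZMod.intCast_eq_intCast_iff]
      push_cast
      rfl
    have hr1 : ∀ a b, ((R 1 w (a + 1 + 2 ^ r) b : ℤ) : ZMod (2 ^ k)) = ((R 1 w (a + 1) b : ℤ) : ZMod (2 ^ k)) := fun a b =>
      (hcast _ _).1 (hr a b).1
    have hr2 : ∀ a b, ((R 1 w (a + 1) (b + 2 ^ r) : ℤ) : ZMod (2 ^ k)) = ((R 1 w (a + 1) b : ℤ) : ZMod (2 ^ k)) := fun a b =>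
      (hcast _ _).1 (hr a b).2
    -- `TA` modulo `2 ^ k`
    have hT : ∀ a j, (TA w a j : ZMod (2 ^ k)) = 1 +
        U (fun i l => ((R 1 w (i + 1) (l + j) : ℤ) : ZMod (2 ^ k))) a := by
      intro a j
      rw [T_eq]
      push_cast
      rfl
    have hT1 : ∀ a j, (TA w (a + 2 ^ (r + k)) j : ZMod (2 ^ k)) = TA w a j := by
      intro a j
      rw [hT, hT, U_per hA]
      · intro a b
        rw [show a + 2 ^ r + 1 = a + 1 + 2 ^ r by ring]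
        exact hr1 _ _
      · intro a b
        rw [show b + 2 ^ r + j = b + j + 2 ^ r by ring]
        exact hr2 _ _
    have hT2 : ∀ a j, (TA w a (j + 2 ^ (r + k)) : ZMod (2 ^ k)) = TA w a j := by
      intro a j
      refine per_mono (f := fun j => (TA w a j : ZMod (2 ^ k))) (r := r) (by omega) (fun j => ?_) j
      show (TA w a (j + 2 ^ r) : ZMod (2 ^ k)) = TA w a j
      rw [hT, hT]
      congr 1
      unfold U
      refine Finset.sum_congr rfl fun i _ => ?_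
      show ((R 1 w (i + 1) (a - 1 - i + (j + 2 ^ r)) : ℤ) : ZMod (2 ^ k)) = _
      rw [← add_assoc]
      exact hr2 _ _
    refine ⟨r + k + k, fun a b => ⟨?_, ?_⟩⟩
    · have e1 : ∑ j ∈ range (b + 1), TA w (a + 2 ^ (r + k + k)) j
          ≡ ∑ j ∈ range (b + 1), TA w a j [ZMOD 2 ^ k] := by
        rw [hcast]
        push_cast
        refine Finset.sum_congr rfl fun j _ => ?_
        exact per_mono (f := fun a => (TA w a j : ZMod (2 ^ k))) (r := r + k) (by omega)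
          (fun a => hT1 a j) a
      rw [show a + 1 + 2 ^ (r + k + k) = a + 2 ^ (r + k + k) + 1 by ring, R_eq_sum, R_eq_sum, hv,
        mul_assoc, mul_assoc, pow_succ, mul_comm ((2 : ℤ) ^ k) 2]
      exact (e1.mul_left v).mul_left'
    · have e1 : ∑ j ∈ range (b + 2 ^ (r + k + k) + 1), TA w a j
          ≡ ∑ j ∈ range (b + 1), TA w a j [ZMOD 2 ^ k] := by
        rw [hcast]
        push_cast
        rw [show b + 2 ^ (r + k + k) + 1 = b + 1 + 2 ^ (r + k + k) by ring]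
        exact sum_per hA (fun n => hT2 a n) (b + 1)
      rw [R_eq_sum, R_eq_sum, hv, mul_assoc, mul_assoc, pow_succ, mul_comm ((2 : ℤ) ^ k) 2]
      exact (e1.mul_left v).mul_left'

/-! ### The two sums -/

lemma twoAdic_of {f : ℕ → ℤ} {n0 : ℕ}
    (h : ∀ k : ℕ, ∃ r : ℕ, ∀ n, n0 ≤ n → f (n + 2 ^ r) ≡ f n [ZMOD 2 ^ k]) : TwoAdic f n0 := by
  intro k
  obtain ⟨r, hr⟩ := h k
  refine ⟨r, ?_⟩
  have key : ∀ t n, n0 ≤ n → f (n + t * 2 ^ r) ≡ f n [ZMOD 2 ^ k] := by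
    intro t
    induction t with
    | zero => intro n _; simp only [zero_mul, add_zero]; exact Int.ModEq.refl _
    | succ t ih =>
      intro n hn
      rw [show n + (t + 1) * 2 ^ r = n + t * 2 ^ r + 2 ^ r by ring]
      exact (hr _ (by omega)).trans (ih n hn)
  have key2 : ∀ n n' : ℕ, n0 ≤ n → n ≤ n' → n ≡ n' [MOD 2 ^ r] → f n' ≡ f n [ZMOD 2 ^ k] := by
    intro n n' hn hnn h
    obtain ⟨t, ht⟩ := (Nat.modEq_iff_dvd' hnn).1 h
    have : n' = n + t * 2 ^ r := by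
      have h1 : n' = n + (n' - n) := by omega
      rw [h1, ht]
      ring
    rw [this]
    exact key t n hn
  intro n n' hn hn' h
  rcases le_total n n' with hle | hle
  · exact (key2 n n' hn hle h).symm
  · exact key2 n' n hn' hle h.symm

/-- `R` with shifted height. -/
def Rs (w : ℤ) (s : ℕ) : ℕ → ℕ → ℤ := fun a b => R 1 w a (b + s)

/-- `Rs` modulo `2 ^ k`. -/
def Rc (w : ℤ) (k s : ℕ) : ℕ → ℕ → ZMod (2 ^ k) := fun a b => ((Rs w s a b : ℤ) : ZMod (2 ^ k))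

lemma Rc_good (w : ℤ) (hw : Odd w) (k : ℕ) : ∃ r, ∀ s, Good r (Rc w k s) := by
  obtain ⟨r, hr⟩ := R_good w hw k
  have hcast : ∀ x y : ℤ, x ≡ y [ZMOD 2 ^ k] ↔ (x : ZMod (2 ^ k)) = y := by
    intro x y
    rw [ZMod.intCast_eq_intCast_iff]
    push_cast
    rfl
  refine ⟨r, fun s => ⟨fun b => ?_, fun a b => ?_, fun a b => ?_⟩⟩
  · show ((R 1 w 0 (b + s) : ℤ) : ZMod (2 ^ k)) = 1
    rw [R_zero]
    simp
  · exact (hcast _ _).1 (hr a (b + s)).1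
  · show ((R 1 w (a + 1) (b + 2 ^ r + s) : ℤ) : ZMod (2 ^ k)) = _
    rw [show b + 2 ^ r + s = b + s + 2 ^ r by ring]
    exact (hcast _ _).1 (hr a (b + s)).2

lemma S3_cast (w : ℤ) (k s₁ s₂ s₃ m : ℕ) :
    ((S3 (Rs w s₁) (Rs w s₂) (Rs w s₃) m : ℤ) : ZMod (2 ^ k))
      = S3 (Rc w k s₁) (Rc w k s₂) (Rc w k s₃) m := by
  unfold S3 Rc
  push_cast
  rfl

lemma S3_modEq (w : ℤ) (hw : Odd w) (k : ℕ) : ∃ r, ∀ s₁ s₂ s₃ m, 
    S3 (Rs w s₁) (Rs w s₂) (Rs w s₃) (m + 1 + 2 ^ r)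
      ≡ S3 (Rs w s₁) (Rs w s₂) (Rs w s₃) (m + 1) [ZMOD 2 ^ k] := by
  obtain ⟨r, hr⟩ := Rc_good w hw k
  have hA : (2 : ZMod (2 ^ k)) ^ k = 0 := by
    have := ZMod.natCast_self (2 ^ k)
    push_cast at this
    exact this
  refine ⟨r + k + k, fun s₁ s₂ s₃ m => ?_⟩
  have h1 : ((S3 (Rs w s₁) (Rs w s₂) (Rs w s₃) (m + 1 + 2 ^ (r + k + k)) : ℤ) : ZMod (2 ^ k))
      = ((S3 (Rs w s₁) (Rs w s₂) (Rs w s₃) (m + 1) : ℤ) : ZMod (2 ^ k)) := by
    rw [S3_cast, S3_cast]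
    exact S3_per hA (hr s₁) (hr s₂) (hr s₃) m
  rw [ZMod.intCast_eq_intCast_iff] at h1
  push_cast at h1
  exact h1

lemma F_eq (w : ℤ) (m : ℕ) : F w (m + 1) =
    S3 (Rs w 0) (Rs w 0) (Rs w 0) (m + 1) - 3 * S3 (Rs w 0) (Rs w 1) (Rs w 0) m := by
  have h1 : F w (m + 1) = S3 (Rs w 0) (Rs w 0) (Rs w 0) (m + 1) -
      3 * ∑ p ∈ HasAntidiagonal.antidiagonal (m + 1), ∑ q ∈ HasAntidiagonal.antidiagonal p.2,
        (R 1 w p.1 q.1 * R 1 w q.1 q.2 * Rm 1 w q.2 p.1) := by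
    unfold F S3 Rs
    rw [Finset.mul_sum, ← Finset.sum_sub_distrib]
    refine Finset.sum_congr rfl fun p _ => ?_
    rw [Finset.mul_sum, ← Finset.sum_sub_distrib]
    refine Finset.sum_congr rfl fun q _ => ?_
    simp only [add_zero]
    ring
  rw [h1]
  congr 2
  have h2 : ∀ a n, ∑ q ∈ HasAntidiagonal.antidiagonal (n + 1),
      (R 1 w a q.1 * R 1 w q.1 q.2 * Rm 1 w q.2 a) =
      ∑ q ∈ HasAntidiagonal.antidiagonal n, R 1 w a q.1 * R 1 w q.1 (q.2 + 1) * R 1 w q.2 a := by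
    intro a n
    rw [Finset.Nat.sum_antidiagonal_succ']
    simp only [Rm, mul_zero, zero_add]
  rw [Finset.Nat.sum_antidiagonal_succ']
  simp only [h2]
  unfold S3 Rs
  simp [Rm]

lemma G_eq (w : ℤ) (m : ℕ) : G w m = S3 (Rs w 0) (Rs w 0) (Rs w 0) (m + 1)
    + (S3 (Rs w 1) (Rs w 1) (Rs w 1) m + 3 * S3 (Rs w 0) (Rs w 1) (Rs w 1) m) := by
  unfold G S3 Rs
  simp only [add_zero]
  congr 1
  rw [Finset.mul_sum, ← Finset.sum_add_distrib]
  refine Finset.sum_congr rfl fun p _ => ?_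
  rw [Finset.mul_sum, ← Finset.sum_add_distrib]

/-- `F w` is 2-adically continuous on `{n : 2 ≤ n}`. -/
theorem F_twoAdic (w : ℤ) (hw : Odd w) : TwoAdic (F w) 2 := by
  apply twoAdic_of
  intro k
  obtain ⟨r, hr⟩ := S3_modEq w hw k
  refine ⟨r, fun n hn => ?_⟩
  obtain ⟨m, rfl⟩ : ∃ m, n = m + 2 := ⟨n - 2, by omega⟩
  rw [show m + 2 + 2 ^ r = (m + 1 + 2 ^ r) + 1 by ring, F_eq, F_eq w (m + 1)]
  rw [show m + 1 + 2 ^ r + 1 = m + 1 + 1 + 2 ^ r by ring]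
  exact (hr 0 0 0 (m + 1)).sub ((hr 0 1 0 m).mul_left 3)

/-- `G w` is 2-adically continuous on `{n : 1 ≤ n}`. -/
theorem G_twoAdic (w : ℤ) (hw : Odd w) : TwoAdic (G w) 1 := by
  apply twoAdic_of
  intro k
  obtain ⟨r, hr⟩ := S3_modEq w hw k
  refine ⟨r, fun n hn => ?_⟩
  obtain ⟨m, rfl⟩ : ∃ m, n = m + 1 := ⟨n - 1, by omega⟩
  rw [G_eq, G_eq]
  rw [show m + 1 + 2 ^ r + 1 = m + 1 + 1 + 2 ^ r by ring]
  exact (hr 0 0 0 (m + 1)).add ((hr 1 1 1 m).add ((hr 0 1 1 m).mul_left 3))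

end Pool.Agent.R730.Bz
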