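import Pool.Agent.R730.Bz.MainA
import Pool.Agent.R730.Bz.TwoAdic

set_option autoImplicit false

/-!
2-adic continuity of the numbers of tilings.
-/

namespace Pool.Agent.R730.Bz

open Finset

lemma odd_pow_modEq {q : ℤ} (hq : Odd q) (k : ℕ) : q ^ (2 ^ k) ≡ 1 [ZMOD 2 ^ k] := by
  induction k with
  | zero => simp [Int.modEq_one]
  | succ k ih =>
    have h1 : (2 ^ k : ℤ) ∣ q ^ (2 ^ k) - 1 := (Int.modEq_iff_dvd.1 ih.symm)
    have h2 : (2 : ℤ) ∣ q ^ (2 ^ k) + 1 := by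
      have : Odd (q ^ (2 ^ k)) := hq.pow
      exact (this.add_one).two_dvd
    have h3 : q ^ (2 ^ (k + 1)) - 1 = (q ^ (2 ^ k) - 1) * (q ^ (2 ^ k) + 1) := by
      rw [pow_succ 2 k, pow_mul]; ring
    apply Int.ModEq.symm
    rw [Int.modEq_iff_dvd, h3, pow_succ]
    exact mul_dvd_mul h1 h2

lemma pow_modEq {q : ℤ} (hq : Odd q) {k e e' : ℕ} (h : e ≡ e' [MOD 2 ^ k]) :
    q ^ e ≡ q ^ e' [ZMOD 2 ^ k] := by
  wlog hle : e ≤ e' generalizing e e'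
  · exact (this h.symm (le_of_not_ge hle)).symm
  obtain ⟨j, hj⟩ := (Nat.modEq_iff_dvd' hle).1 h
  have : e' = e + 2 ^ k * j := by omega
  rw [this, pow_add, pow_mul]
  have h1 := (odd_pow_modEq hq k).pow j
  rw [one_pow] at h1
  calc q ^ e = q ^ e * 1 := by ring
    _ ≡ q ^ e * (q ^ (2 ^ k)) ^ j [ZMOD 2 ^ k] := h1.symm.mul_left _

lemma div_twoAdic {f A : ℕ → ℤ} {e e' : ℕ → ℕ} {q : ℤ} (hq : Odd q) {n0 : ℕ}
    (hA : TwoAdic A n0)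
    (he : ∀ k : ℕ, ∃ r : ℕ, ∀ n n' : ℕ, n ≡ n' [MOD 2 ^ r] → e n ≡ e n' [MOD 2 ^ k])
    (he' : ∀ k : ℕ, ∃ r : ℕ, ∀ n n' : ℕ, n ≡ n' [MOD 2 ^ r] → e' n ≡ e' n' [MOD 2 ^ k])
    (h : ∀ n, n0 ≤ n → f n * q ^ e n = q ^ e' n * A n) : TwoAdic f n0 := by
  intro k
  obtain ⟨r1, h1⟩ := hA k
  obtain ⟨r2, h2⟩ := he k
  obtain ⟨r3, h3⟩ := he' k
  refine ⟨r1 + r2 + r3, fun n n' hn hn' hnn => ?_⟩
  have g1 := h1 n n' hn hn' (hnn.of_dvd (pow_dvd_pow 2 (by omega)))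
  have g2 := pow_modEq hq (h2 n n' (hnn.of_dvd (pow_dvd_pow 2 (by omega))))
  have g3 := pow_modEq hq (h3 n n' (hnn.of_dvd (pow_dvd_pow 2 (by omega))))
  have g4 : f n * q ^ e n ≡ f n' * q ^ e n [ZMOD 2 ^ k] := by
    calc f n * q ^ e n = q ^ e' n * A n := h n hn
      _ ≡ q ^ e' n' * A n' [ZMOD 2 ^ k] := g3.mul g1
      _ = f n' * q ^ e n' := (h n' hn').symm
      _ ≡ f n' * q ^ e n [ZMOD 2 ^ k] := (g2.symm).mul_left _
  have hco0 : IsCoprime (2 : ℤ) q := by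
    obtain ⟨j, hj⟩ := hq
    exact ⟨-j, 1, by rw [hj]; ring⟩
  have hco : IsCoprime ((2 : ℤ) ^ k) (q ^ e n) := hco0.pow
  rw [Int.modEq_iff_dvd] at g4 ⊢
  rw [← sub_mul] at g4
  exact hco.dvd_of_dvd_mul_right g4

lemma lin_cont (a b : ℕ) (k : ℕ) :
    ∃ r : ℕ, ∀ n n' : ℕ, n ≡ n' [MOD 2 ^ r] → a * n + b ≡ a * n' + b [MOD 2 ^ k] :=
  ⟨k, fun _ _ h => (h.mul_left a).add_right b⟩

lemma card_cont (k : ℕ) :
    ∃ r : ℕ, ∀ n n' : ℕ, n ≡ n' [MOD 2 ^ r] → (T n).card ≡ (T n').card [MOD 2 ^ k] := by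
  refine ⟨k + 1, fun n n' h => ?_⟩
  have h1 : 2 * (T n).card ≡ 2 * (T n').card [MOD 2 * 2 ^ k] := by
    rw [card_T, card_T, ← pow_succ']
    exact (h.add_right 1).mul (h.add_right 2)
  exact Nat.ModEq.mul_left_cancel' two_ne_zero h1

theorem T113w_in_twoAdic {q : ℕ} (hq : Odd q) :
    TwoAdic (fun m => (T113w q ((m : ℤ) + 2) (2 * m + 1) : ℤ)) 2 := by
  have hq0 : q ≠ 0 := by rintro rfl; exact absurd hq (by decide)
  have hq' : Odd (q : ℤ) := by exact_mod_cast hq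
  refine div_twoAdic (e := fun m => 3 * m + 1) (e' := fun m => (T m).card) hq'
    (F_twoAdic ((q : ℤ) ^ 2) hq'.pow) (lin_cont 3 1) card_cont ?_
  intro m hm
  exact T113w_in hq0 (by omega)

theorem T113w_out_twoAdic {q : ℕ} (hq : Odd q) :
    TwoAdic (fun n => (T113w q ((n : ℤ) + 4) (2 * n + 4) : ℤ)) 1 := by
  have hq0 : q ≠ 0 := by rintro rfl; exact absurd hq (by decide)
  have hq' : Odd (q : ℤ) := by exact_mod_cast hq
  refine div_twoAdic (e := fun m => 3 * m + 5) (e' := fun m => (T (m + 2)).card) hq'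
    (G_twoAdic ((q : ℤ) ^ 2) hq'.pow) (lin_cont 3 5) ?_ ?_
  · intro k
    obtain ⟨r, hr⟩ := card_cont k
    exact ⟨r, fun n n' h => hr _ _ (h.add_right 2)⟩
  · intro n _
    have := T113w_out hq0 n
    rw [show 3 * (n + 1) + 2 = 3 * n + 5 by ring] at this
    exact this

/-- from natural numbers to integers -/
theorem to_int {g : ℕ → ℤ} {n0 : ℕ} (h : TwoAdic g n0) (c : ℤ) (f : ℤ → ℤ)
    (hf : ∀ m : ℕ, n0 ≤ m → f ((m : ℤ) + c) = g m) :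
    ∀ k : ℕ, ∃ r : ℕ, ∀ n n' : ℤ, n0 + c ≤ n → n0 + c ≤ n' → n ≡ n' [ZMOD 2 ^ r] →
      f n ≡ f n' [ZMOD 2 ^ k] := by
  intro k
  obtain ⟨r, hr⟩ := h k
  refine ⟨r, fun n n' hn hn' hnn => ?_⟩
  have e : (((n - c).toNat : ℕ) : ℤ) = n - c := Int.toNat_of_nonneg (by omega)
  have e' : (((n' - c).toNat : ℕ) : ℤ) = n' - c := Int.toNat_of_nonneg (by omega)
  have h1 := hf (n - c).toNat (by omega)
  have h2 := hf (n' - c).toNat (by omega)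
  rw [e, sub_add_cancel] at h1
  rw [e', sub_add_cancel] at h2
  rw [h1, h2]
  apply hr _ _ (by omega) (by omega)
  have : ((n - c).toNat : ℤ) ≡ ((n' - c).toNat : ℤ) [ZMOD ((2 ^ r : ℕ) : ℤ)] := by
    rw [e, e']
    push_cast
    exact hnn.sub_right c
  exact Int.natCast_modEq_iff.1 this

end Pool.Agent.R730.Bz
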