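import Pool.Agent.R730.Bz.TwoAdic

set_option autoImplicit false

/-!
The value `R 1 1 n 0` is the `n`-th large Schroeder number, defined by lattice paths.
-/

namespace Pool.Agent.R730.Bz

/-- lattice paths from `(0,0)` to `(n,n)` with steps `(1,0)`, `(0,1)`, `(1,1)` that never go above
the diagonal -/
def SchPath (n : ℕ) : Set (List (ℤ × ℤ)) :=
  {L | (∀ s ∈ L, s = (1,0) ∨ s = (0,1) ∨ s = (1,1)) ∧ L.sum = ((n : ℤ), (n : ℤ)) ∧
    ∀ P, P <+: L → P.sum.2 ≤ P.sum.1}

/-- the `n`-th large Schroeder number -/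
noncomputable def largeSchroeder (n : ℕ) : ℕ := (SchPath n).ncard

/-- the same paths with arbitrary end point -/
def SP (e : ℤ × ℤ) : Set (List (ℤ × ℤ)) :=
  {L | (∀ s ∈ L, s = (1,0) ∨ s = (0,1) ∨ s = (1,1)) ∧ L.sum = e ∧
    ∀ P, P <+: L → P.sum.2 ≤ P.sum.1}

theorem SP_above {e : ℤ × ℤ} (h : e.1 < e.2) : SP e = ∅ := by
  rw [Set.eq_empty_iff_forall_notMem]
  rintro L ⟨_, hs, hP⟩
  have := hP L (List.prefix_refl L)
  rw [hs] at this
  omega

theorem sum_snd_nonneg (L : List (ℤ × ℤ)) (h : ∀ s ∈ L, s = (1,0) ∨ s = (0,1) ∨ s = (1,1)) :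
    0 ≤ L.sum.2 := by
  induction L with
  | nil => simp
  | cons s L ih =>
    rw [List.sum_cons, Prod.snd_add]
    have h1 := ih (fun t ht => h t (List.mem_cons_of_mem _ ht))
    have h2 : 0 ≤ s.2 := by
      rcases h s (List.mem_cons_self) with rfl | rfl | rfl <;> simp
    omega

theorem SP_neg {e : ℤ × ℤ} (h : e.2 < 0) : SP e = ∅ := by
  rw [Set.eq_empty_iff_forall_notMem]
  rintro L ⟨h1, hs, _⟩
  have := sum_snd_nonneg L h1
  rw [hs] at this
  omega

theorem SP_step {e : ℤ × ℤ} (h0 : e ≠ 0) (h : e.2 ≤ e.1) :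
    SP e = ((fun L => L ++ [((1 : ℤ), (0 : ℤ))]) '' SP (e - (1, 0))) ∪
      ((fun L => L ++ [((0 : ℤ), (1 : ℤ))]) '' SP (e - (0, 1)) ∪
      (fun L => L ++ [((1 : ℤ), (1 : ℤ))]) '' SP (e - (1, 1))) := by
  have back : ∀ s : ℤ × ℤ, (s = (1,0) ∨ s = (0,1) ∨ s = (1,1)) → ∀ L ∈ SP (e - s),
      L ++ [s] ∈ SP e := by
    rintro s hs L ⟨h1, h2, h3⟩
    have hsum : (L ++ [s]).sum = e := by
      rw [List.sum_append, List.sum_singleton, h2, sub_add_cancel]
    refine ⟨?_, hsum, ?_⟩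
    · intro t ht
      rw [List.mem_append, List.mem_singleton] at ht
      rcases ht with ht | ht
      · exact h1 t ht
      · rw [ht]; exact hs
    · intro P hP
      rw [List.prefix_concat_iff] at hP
      rcases hP with rfl | hP
      · rw [hsum]; exact h
      · exact h3 P hP
  ext L
  constructor
  · rintro ⟨h1, h2, h3⟩
    rcases List.eq_nil_or_concat L with rfl | ⟨L', s, rfl⟩
    · exact absurd h2.symm (by simpa using h0)
    · rw [List.concat_eq_append] at *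
      have hs := h1 s (by simp)
      have hL' : L' ∈ SP (e - s) := by
        refine ⟨fun t ht => h1 t (by simp [ht]), ?_, fun P hP => h3 P ?_⟩
        · rw [List.sum_append, List.sum_singleton] at h2
          rw [← h2, add_sub_cancel_right]
        · exact hP.trans (List.prefix_append _ _)
      rcases hs with rfl | rfl | rfl
      · left; exact ⟨L', hL', rfl⟩
      · right; left; exact ⟨L', hL', rfl⟩
      · right; right; exact ⟨L', hL', rfl⟩
  · rintro (⟨L', hL', rfl⟩ | ⟨L', hL', rfl⟩ | ⟨L', hL', rfl⟩)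
    · exact back _ (Or.inl rfl) L' hL'
    · exact back _ (Or.inr (Or.inl rfl)) L' hL'
    · exact back _ (Or.inr (Or.inr rfl)) L' hL'

theorem ncard_step {A B C : Set (List (ℤ × ℤ))} (hA : A.Finite) (hB : B.Finite) (hC : C.Finite) :
    (((fun L => L ++ [((1 : ℤ), (0 : ℤ))]) '' A) ∪
      ((fun L => L ++ [((0 : ℤ), (1 : ℤ))]) '' B ∪
      (fun L => L ++ [((1 : ℤ), (1 : ℤ))]) '' C)).Finite ∧
    (((fun L => L ++ [((1 : ℤ), (0 : ℤ))]) '' A) ∪
      ((fun L => L ++ [((0 : ℤ), (1 : ℤ))]) '' B ∪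
      (fun L => L ++ [((1 : ℤ), (1 : ℤ))]) '' C)).ncard = A.ncard + (B.ncard + C.ncard) := by
  have inj : ∀ s : ℤ × ℤ, Function.Injective (fun L : List (ℤ × ℤ) => L ++ [s]) := by
    intro s L L' h
    exact List.append_cancel_right h
  have dis : ∀ (s t : ℤ × ℤ) (X Y : Set (List (ℤ × ℤ))), s ≠ t →
      Disjoint ((fun L => L ++ [s]) '' X) ((fun L => L ++ [t]) '' Y) := by
    intro s t X Y hst
    rw [Set.disjoint_left]
    rintro _ ⟨L, _, rfl⟩ ⟨L', _, h⟩
    have := (List.append_inj' h rfl).2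
    simp only [List.cons.injEq, and_true] at this
    exact hst this.symm
  refine ⟨(hA.image _).union ((hB.image _).union (hC.image _)), ?_⟩
  rw [Set.ncard_union_eq _ (hA.image _) ((hB.image _).union (hC.image _)),
    Set.ncard_union_eq (dis _ _ _ _ (by decide)) (hB.image _) (hC.image _),
    Set.ncard_image_of_injective _ (inj _), Set.ncard_image_of_injective _ (inj _),
    Set.ncard_image_of_injective _ (inj _)]
  rw [Set.disjoint_union_right]
  exact ⟨dis _ _ _ _ (by decide), dis _ _ _ _ (by decide)⟩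

theorem SP_zero : SP 0 = {[]} := by
  ext L
  rw [Set.mem_singleton_iff]
  constructor
  · rintro ⟨h1, h2, h3⟩
    cases L with
    | nil => rfl
    | cons s L =>
      exfalso
      have h4 := sum_snd_nonneg L (fun t ht => h1 t (List.mem_cons_of_mem _ ht))
      have h5 := h1 s List.mem_cons_self
      have h6 := h3 [s] ⟨L, rfl⟩
      rw [List.sum_cons] at h2
      have h7 := congrArg Prod.snd h2
      have h8 := congrArg Prod.fst h2
      rw [Prod.snd_add] at h7
      rw [Prod.fst_add] at h8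
      have h9 : 0 ≤ L.sum.1 := by
        clear h2 h3 h4 h6 h7 h8 h5
        have h1' : ∀ t ∈ L, t = (1,0) ∨ t = (0,1) ∨ t = (1,1) :=
          fun t ht => h1 t (List.mem_cons_of_mem _ ht)
        clear h1
        induction L with
        | nil => simp
        | cons t L ih =>
          rw [List.sum_cons, Prod.fst_add]
          have := ih (fun x hx => h1' x (List.mem_cons_of_mem _ hx))
          have : 0 ≤ t.1 := by
            rcases h1' t (List.mem_cons_self) with rfl | rfl | rfl <;> simp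
          omega
      simp only [Prod.snd_zero, Prod.fst_zero] at h7 h8
      rcases h5 with rfl | rfl | rfl <;> simp at h7 h8 <;> omega
  · rintro rfl
    refine ⟨by simp, by simp, ?_⟩
    intro P hP
    rw [List.prefix_nil] at hP
    subst hP
    simp

theorem SP_card (a b : ℕ) : (SP ((a : ℤ) + b, (a : ℤ))).Finite ∧
    ((SP ((a : ℤ) + b, (a : ℤ))).ncard : ℤ) = R (1 : ℤ) 1 a b := by
  induction a generalizing b with
  | zero =>
    induction b with
    | zero =>
      have : (((0 : ℕ) : ℤ) + ((0 : ℕ) : ℤ), ((0 : ℕ) : ℤ)) = 0 := by simp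
      rw [this, SP_zero, R_zero]
      simp
    | succ b ih =>
      obtain ⟨ih1, ih2⟩ := ih
      rw [SP_step (by intro h; have := congrArg Prod.fst h; simp at this; omega) (by simp; omega)]
      have e1 : ((((0 : ℕ) : ℤ) + ((b + 1 : ℕ) : ℤ), ((0 : ℕ) : ℤ)) - (1, 0) : ℤ × ℤ) =
        (((0 : ℕ) : ℤ) + (b : ℤ), ((0 : ℕ) : ℤ)) := by
        ext <;> simp
      have e2 : SP ((((0 : ℕ) : ℤ) + ((b + 1 : ℕ) : ℤ), ((0 : ℕ) : ℤ)) - (0, 1) : ℤ × ℤ) = ∅ :=
        SP_neg (by simp)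
      have e3 : SP ((((0 : ℕ) : ℤ) + ((b + 1 : ℕ) : ℤ), ((0 : ℕ) : ℤ)) - (1, 1) : ℤ × ℤ) = ∅ :=
        SP_neg (by simp)
      rw [e1, e2, e3]
      have := ncard_step ih1 Set.finite_empty Set.finite_empty
      refine ⟨this.1, ?_⟩
      rw [this.2, R_zero]
      rw [R_zero] at ih2
      simp only [Set.ncard_empty, add_zero]
      exact ih2
  | succ a iha =>
    induction b with
    | zero =>
      rw [SP_step (by intro h; have := congrArg Prod.snd h; simp at this; omega) (by simp)]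
      have e1 : SP ((((a + 1 : ℕ) : ℤ) + ((0 : ℕ) : ℤ), ((a + 1 : ℕ) : ℤ)) - (1, 0) : ℤ × ℤ) = ∅ :=
        SP_above (by simp)
      have e2 : ((((a + 1 : ℕ) : ℤ) + ((0 : ℕ) : ℤ), ((a + 1 : ℕ) : ℤ)) - (0, 1) : ℤ × ℤ) =
        ((a : ℤ) + ((1 : ℕ) : ℤ), (a : ℤ)) := by
        ext <;> simp
      have e3 : ((((a + 1 : ℕ) : ℤ) + ((0 : ℕ) : ℤ), ((a + 1 : ℕ) : ℤ)) - (1, 1) : ℤ × ℤ) =
        ((a : ℤ) + ((0 : ℕ) : ℤ), (a : ℤ)) := by
        ext <;> simp
      rw [e1, e2, e3]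
      have := ncard_step Set.finite_empty (iha 1).1 (iha 0).1
      refine ⟨this.1, ?_⟩
      rw [this.2, R_succ_zero]
      push_cast
      rw [← (iha 1).2, ← (iha 0).2]
      simp
    | succ b ihb =>
      rw [SP_step (by intro h; have := congrArg Prod.snd h; simp at this; omega) (by simp; omega)]
      have e1 : ((((a + 1 : ℕ) : ℤ) + ((b + 1 : ℕ) : ℤ), ((a + 1 : ℕ) : ℤ)) - (1, 0) : ℤ × ℤ) =
        (((a + 1 : ℕ) : ℤ) + (b : ℤ), ((a + 1 : ℕ) : ℤ)) := by
        ext <;> simp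
        ring
      have e2 : ((((a + 1 : ℕ) : ℤ) + ((b + 1 : ℕ) : ℤ), ((a + 1 : ℕ) : ℤ)) - (0, 1) : ℤ × ℤ) =
        ((a : ℤ) + ((b + 2 : ℕ) : ℤ), (a : ℤ)) := by
        ext <;> simp
        ring
      have e3 : ((((a + 1 : ℕ) : ℤ) + ((b + 1 : ℕ) : ℤ), ((a + 1 : ℕ) : ℤ)) - (1, 1) : ℤ × ℤ) =
        ((a : ℤ) + ((b + 1 : ℕ) : ℤ), (a : ℤ)) := by
        ext <;> simp
        ring
      rw [e1, e2, e3]
      have := ncard_step ihb.1 (iha (b + 2)).1 (iha (b + 1)).1
      refine ⟨this.1, ?_⟩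
      rw [this.2, R_succ_succ]
      push_cast [← (iha (b + 2)).2, ← (iha (b + 1)).2, ← ihb.2]
      ring

theorem SchPath_eq (n : ℕ) : SchPath n = SP ((n : ℤ) + ((0 : ℕ) : ℤ), (n : ℤ)) := by
  unfold SchPath SP
  simp

theorem SchPath_finite (n : ℕ) : (SchPath n).Finite := by
  rw [SchPath_eq]; exact (SP_card n 0).1

theorem R_eq_schroeder (n : ℕ) : R (1 : ℤ) 1 n 0 = (largeSchroeder n : ℤ) := by
  unfold largeSchroeder
  rw [SchPath_eq]; exact (SP_card n 0).2.symm

theorem R_row (n : ℕ) : R (1 : ℤ) 1 (n + 1) 0 =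
    2 * ∑ h ∈ Finset.range (n + 1), R (1 : ℤ) 1 (n - h) h := by
  rw [(R_T 1 n).1]
  unfold TA
  rw [Finset.Nat.sum_antidiagonal_eq_sum_range_succ_mk, ← Finset.sum_range_reflect]
  norm_num
  apply Finset.sum_congr rfl
  intro h hh
  rw [Finset.mem_range] at hh
  congr 1
  omega

end Pool.Agent.R730.Bz
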