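import Pool.Agent.R730.Bz.MainA
import Pool.Agent.R730.Bz.Schroeder

set_option autoImplicit false

/-!
Tilings with two of the three directions of bones.
-/

namespace Pool.Agent.R730.Bz

open Finset

lemma R_zero_left (a : ℕ) : ∀ b, R (0 : ℤ) 1 a b = if b = 0 then 1 else 0 := by
  induction a with
  | zero =>
    intro b
    rw [R]
    rcases b with _ | b
    · simp
    · simp
  | succ a ih =>
    intro b
    induction b with
    | zero => rw [R, ih, ih]; simp
    | succ b ihb => rw [R, ih, ih]; simp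

lemma TS_single (n : ℕ) (f : ℕ → ℕ → ℕ → ℤ)
    (h : ∀ a b c, a + b + c = n → ¬ (a = 0 ∧ c = 0) → f a b c = 0) : TS n f = f 0 n 0 := by
  unfold TS
  rw [Finset.sum_eq_single (0, n)]
  · rw [Finset.sum_eq_single (n, 0)]
    · rintro ⟨b, c⟩ h1 h2
      rw [Finset.HasAntidiagonal.mem_antidiagonal] at h1
      simp only at h1
      apply h
      · simp only; omega
      · rintro ⟨-, h3⟩
        simp only at h3
        apply h2
        rw [Prod.mk.injEq]
        omega
    · intro h1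
      exact absurd (Finset.HasAntidiagonal.mem_antidiagonal.2 (by simp)) h1
  · rintro ⟨a, d⟩ h1 h2
    rw [Finset.HasAntidiagonal.mem_antidiagonal] at h1
    simp only at h1
    apply Finset.sum_eq_zero
    rintro ⟨b, c⟩ h3
    rw [Finset.HasAntidiagonal.mem_antidiagonal] at h3
    simp only at h3
    apply h
    · simp only; omega
    · rintro ⟨h4, -⟩
      simp only at h4
      apply h2
      rw [Prod.mk.injEq]
      omega
  · intro h1
    exact absurd (Finset.HasAntidiagonal.mem_antidiagonal.2 (by simp)) h1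

lemma TS_left (n : ℕ) (f : ℕ → ℕ → ℕ → ℤ)
    (h : ∀ a b c, a + b + c = n → a ≠ 0 → f a b c = 0) :
    TS n f = ∑ q ∈ Finset.HasAntidiagonal.antidiagonal n, f 0 q.1 q.2 := by
  unfold TS
  rw [Finset.sum_eq_single (0, n)]
  · rintro ⟨a, d⟩ h1 h2
    rw [Finset.HasAntidiagonal.mem_antidiagonal] at h1
    simp only at h1
    apply Finset.sum_eq_zero
    rintro ⟨b, c⟩ h3
    rw [Finset.HasAntidiagonal.mem_antidiagonal] at h3
    simp only at h3
    apply h
    · simp only; omega
    · intro h4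
      simp only at h4
      apply h2
      rw [Prod.mk.injEq]
      omega
  · intro h1
    exact absurd (Finset.HasAntidiagonal.mem_antidiagonal.2 (by simp)) h1

lemma INs_110 (m : ℕ) : INs (1 : ℤ) 1 0 1 m = R 1 1 m 0 := by
  rw [INs_eq]
  simp only [mul_zero, zero_mul, sub_zero, one_mul, mul_one]
  rw [← TS_sub, TS_single]
  · simp [R_zero_left, Rm, R]
  · intro a b c _ hac
    rcases c with _ | c
    · have : a ≠ 0 := fun e => hac ⟨e, rfl⟩
      simp [R_zero_left, Rm, this]
    · rcases a with _ | a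
      · simp [R_zero_left, Rm]
      · simp [R_zero_left, Rm]

lemma OUTs_110 (n : ℕ) : OUTs (1 : ℤ) 1 0 1 n = R 1 1 (n + 2) 0 - R 1 1 (n + 1) 0 := by
  unfold OUTs
  have z1 : TS n (fun a b c => R (1 : ℤ) 1 c (b + 1) * R 1 1 a (c + 1) * R 0 1 b (a + 1)) = 0 := by
    rw [TS_left]
    · simp [R_zero_left]
    · intro a b c _ _
      simp [R_zero_left]
  have z2 : TS n (fun a b c => R (1 : ℤ) 1 c (b + 1) * R 1 1 a c * R 0 1 b (a + 1)) = 0 := by
    rw [TS_left]
    · simp [R_zero_left]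
    · intro a b c _ _
      simp [R_zero_left]
  have e1 : TS (n + 1) (fun a b c => R (1 : ℤ) 1 c b * R 1 1 a c * R 0 1 b a)
      = ∑ q ∈ Finset.HasAntidiagonal.antidiagonal (n + 1), R (1 : ℤ) 1 q.2 q.1 := by
    rw [TS_left]
    · apply Finset.sum_congr rfl
      intro q _
      simp [R_zero_left, R]
    · intro a b c _ h
      simp [R_zero_left, h]
  have e2 : TS n (fun a b c => R (1 : ℤ) 1 c (b + 1) * R 1 1 a (c + 1) * R 0 1 b a)
      = ∑ q ∈ Finset.HasAntidiagonal.antidiagonal n, R (1 : ℤ) 1 q.2 (q.1 + 1) := by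
    rw [TS_left]
    · apply Finset.sum_congr rfl
      intro q _
      simp [R_zero_left, R]
    · intro a b c _ h
      simp [R_zero_left, h]
  have e3 : ∑ q ∈ Finset.HasAntidiagonal.antidiagonal (n + 1), R (1 : ℤ) 1 q.2 q.1
      = R 1 1 (n + 1) 0 + ∑ q ∈ Finset.HasAntidiagonal.antidiagonal n, R (1 : ℤ) 1 q.2 (q.1 + 1) :=
    Finset.Nat.sum_antidiagonal_succ
  have e4 : ∑ q ∈ Finset.HasAntidiagonal.antidiagonal (n + 1), R (1 : ℤ) 1 q.2 q.1
      = ∑ h ∈ range (n + 1 + 1), R (1 : ℤ) 1 (n + 1 - h) h :=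
    Finset.Nat.sum_antidiagonal_eq_sum_range_succ (fun i j => R (1 : ℤ) 1 j i) (n + 1)
  have e5 := R_row (n + 1)
  rw [z1, z2, e1, e2]
  rw [← e4] at e5
  linarith

theorem T112_in (t₀ : Fin 3) {n : ℕ} (hn : 1 ≤ n) :
    T112 t₀ ((n : ℤ) + 2) (2 * n + 1) = largeSchroeder n := by
  have h : (T112 t₀ ((n : ℤ) + 2) (2 * n + 1) : ℤ) = (largeSchroeder n : ℤ) := by
    rw [T112_eq t₀ (desc_in n), Z_in' hn, ← R_eq_schroeder, ← INs_110]
    fin_cases t₀
    · simp only [Fin.isValue, Fin.zero_eta, ↓reduceIte, one_ne_zero, Fin.reduceEq]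
      rw [INs_rot]
    · simp only [Fin.isValue, Fin.mk_one, zero_ne_one, ↓reduceIte, Fin.reduceEq]
      rw [INs_rot, INs_rot]
    · simp
  exact_mod_cast h

theorem T112_out (t₀ : Fin 3) {n : ℕ} (hn : 1 ≤ n) :
    (T112 t₀ ((n : ℤ) + 2) (2 * n) : ℤ) = largeSchroeder n - largeSchroeder (n - 1) := by
  rw [T112_eq t₀ (desc_out n), ← R_eq_schroeder, ← R_eq_schroeder]
  rcases n with _ | _ | n
  · omega
  · rw [zero_add, Z_out_one]
    simp [R]
  · rw [Z_out]
    have h := OUTs_110 n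
    rw [show n + 1 + 1 - 1 = n + 1 from rfl, show n + 1 + 1 = n + 2 from rfl, ← h]
    fin_cases t₀
    · simp only [Fin.isValue, Fin.zero_eta, ↓reduceIte, one_ne_zero, Fin.reduceEq]
      rw [OUTs_rot]
    · simp only [Fin.isValue, Fin.mk_one, zero_ne_one, ↓reduceIte, Fin.reduceEq]
      rw [OUTs_rot, OUTs_rot]
    · simp

end Pool.Agent.R730.Bz
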