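import Mathlib

set_option autoImplicit false

/-!
Benzels, stones, bones and tilings.
-/

namespace Pool.Agent.R730.Bz

/-- The cells of the hexagonal grid are the triples `(i, j, k)` of integers with `i + j + k = 1`. -/
abbrev Cell := ℤ × ℤ × ℤ

/-- The `(a, b)`-benzel: the cells `(i, j, k)` with
`-(a - 1) ≤ j - i, k - j, i - k ≤ b - 1`. -/
def benzel (a b : ℤ) : Set Cell :=
  {c | c.1 + c.2.1 + c.2.2 = 1 ∧
    (-(a - 1) ≤ c.2.1 - c.1 ∧ c.2.1 - c.1 ≤ b - 1) ∧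
    (-(a - 1) ≤ c.2.2 - c.2.1 ∧ c.2.2 - c.2.1 ≤ b - 1) ∧
    (-(a - 1) ≤ c.1 - c.2.2 ∧ c.1 - c.2.2 ≤ b - 1)}

/-- right stones -/
def IsRight (τ : Finset Cell) : Prop :=
  ∃ x y z : ℤ, x + y + z = 0 ∧ τ = {(x + 1, y, z), (x, y + 1, z), (x, y, z + 1)}

/-- left stones -/
def IsLeft (τ : Finset Cell) : Prop :=
  ∃ x y z : ℤ, x + y + z = 2 ∧ τ = {(x - 1, y, z), (x, y - 1, z), (x, y, z - 1)}

/-- the three directions of bones -/
def dir : Fin 3 → ℤ × ℤ × ℤ
  | 0 => (0, 1, -1)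
  | 1 => (-1, 0, 1)
  | 2 => (1, -1, 0)

/-- bones of direction `dir t` -/
def IsBone (t : Fin 3) (τ : Finset Cell) : Prop :=
  ∃ x y z : ℤ, x + y + z = 1 ∧
    τ = {(x, y, z), (x, y, z) + dir t, (x, y, z) + dir t + dir t}

/-- `M` is a partition of the region `B` into tiles which satisfy `P`. -/
def IsTiling (P : Finset Cell → Prop) (B : Set Cell) (M : Finset (Finset Cell)) : Prop :=
  (∀ τ ∈ M, P τ) ∧ (∀ τ ∈ M, ∀ τ' ∈ M, τ ≠ τ' → Disjoint τ τ') ∧
    (∀ c, c ∈ B ↔ ∃ τ ∈ M, c ∈ τ)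

/-- all five prototiles -/
def AnyTile (τ : Finset Cell) : Prop := IsRight τ ∨ IsLeft τ ∨ ∃ t, IsBone t τ

/-- `T113 a b`: the number of tilings of the `(a, b)`-benzel by stones and bones -/
noncomputable def T113 (a b : ℤ) : ℕ := {M | IsTiling AnyTile (benzel a b) M}.ncard

/-- `T112 t₀ a b`: the number of tilings of the `(a, b)`-benzel by stones of both kinds and bones
whose direction is not `dir t₀` -/
noncomputable def T112 (t₀ : Fin 3) (a b : ℤ) : ℕ :=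
  {M | IsTiling (fun τ => IsRight τ ∨ IsLeft τ ∨ ∃ t, t ≠ t₀ ∧ IsBone t τ) (benzel a b) M}.ncard

/-- `T103 a b`: the number of tilings of the `(a, b)`-benzel by right stones and bones -/
noncomputable def T103 (a b : ℤ) : ℕ :=
  {M | IsTiling (fun τ => IsRight τ ∨ ∃ t, IsBone t τ) (benzel a b) M}.ncard

/-- the number of stones of a tiling -/
noncomputable def stones (M : Finset (Finset Cell)) : ℕ :=
  {τ | τ ∈ M ∧ (IsRight τ ∨ IsLeft τ)}.ncard

/-- `T113w q a b`: the sum of `q ^ stones M` over all tilings `M` of the `(a, b)`-benzel by stones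
and bones -/
noncomputable def T113w (q : ℕ) (a b : ℤ) : ℕ :=
  ∑ᶠ M ∈ {M | IsTiling AnyTile (benzel a b) M}, q ^ stones M

end Pool.Agent.R730.Bz
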