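import Pool.Agent.R730.Bz.Gap

set_option autoImplicit false

/-!
The two regions; no junction tile in the inward region, exactly one junction tile in the outward
region.
-/

namespace Pool.Agent.R730.Bz

open Finset

/-- the triangular array of points -/
noncomputable def T (m : ℕ) : Finset Pt :=
  ((Icc (0 : ℤ) m) ×ˢ (Icc (0 : ℤ) m)).filter (fun v => v.1 + v.2 ≤ m)

lemma mem_T {m : ℕ} {v : Pt} : v ∈ T m ↔ 0 ≤ v.1 ∧ 0 ≤ v.2 ∧ v.1 + v.2 ≤ m := by
  unfold T
  simp only [mem_filter, mem_product, mem_Icc]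
  omega

/-- the three corners -/
def pc (m : ℕ) : Fin 3 → Pt
  | 0 => (0, 0)
  | 1 => (m, 0)
  | 2 => (0, m)

/-- inward region: one cell missing at each corner -/
noncomputable def Din (m : ℕ) (t : Fin 3) : Finset Pt := (T m).erase (pc m t)

/-- outward region: two cells missing at each corner -/
noncomputable def Dout (m : ℕ) (t : Fin 3) : Finset Pt := ((T m).erase (pc m t)).erase (pc m (t + 2))

lemma gap_card {M : Finset Tl} {D : Fin 3 → Finset Pt} (h : Cov M D) (t : Fin 3) (a : ℤ)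
    (hc : ((D (t + 1)).filter (fun v => co t v ≤ a)).card
      ≤ ((D t).filter (fun v => co t v ≤ a)).card + 1) :
    ∀ τ ∈ M, ∀ τ' ∈ M, Str t a τ → Str t a τ' → τ = τ' := by
  classical
  have e1 : ∀ s : Fin 3, ((D s).filter (fun v => co t v ≤ a)).card
      = (M.filter (fun τ => co t (X s τ) ≤ a)).card := by
    intro s
    rw [← (h s).1]
    have : (M.image (X s)).filter (fun v => co t v ≤ a)
        = (M.filter (fun τ => co t (X s τ) ≤ a)).image (X s) := by
      rw [Finset.filter_image]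
    rw [this, Finset.card_image_of_injOn]
    exact (h s).2.mono (by intro x hx; exact (mem_filter.1 hx).1)
  rw [e1, e1] at hc
  have e2 : M.filter (fun τ => co t (X (t + 1) τ) ≤ a)
      = M.filter (fun τ => co t (X t τ) ≤ a) ∪ M.filter (Str t a) := by
    ext τ
    simp only [mem_filter, mem_union, Str]
    have := gap_le t τ
    constructor
    · rintro ⟨h1, h2⟩
      rcases le_or_gt (co t (X t τ)) a with h3 | h3
      · exact Or.inl ⟨h1, h3⟩
      · exact Or.inr ⟨h1, h2, h3⟩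
    · rintro (⟨h1, h2⟩ | ⟨h1, h2, h3⟩)
      · exact ⟨h1, this.trans h2⟩
      · exact ⟨h1, h2⟩
  have e3 : Disjoint (M.filter (fun τ => co t (X t τ) ≤ a)) (M.filter (Str t a)) := by
    rw [Finset.disjoint_filter]
    rintro τ _ h1 ⟨_, h3⟩
    exact absurd h1 (not_le.2 h3)
  rw [e2, card_union_of_disjoint e3] at hc
  have e4 : (M.filter (Str t a)).card ≤ 1 := by omega
  rw [Finset.card_le_one] at e4
  intro τ hτ τ' hτ' s s'
  exact e4 τ (mem_filter.2 ⟨hτ, s⟩) τ' (mem_filter.2 ⟨hτ', s'⟩)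

lemma filt_erase (S : Finset Pt) (p : Pt) (q : Pt → Prop) [DecidablePred q] :
    (S.erase p).filter q = (S.filter q).erase p := by
  ext v; simp only [mem_filter, mem_erase]; tauto

theorem sys_in {m : ℕ} {M : Finset Tl} (h : Cov M (Din m)) : Sys m M (Din m) := by
  refine ⟨h, ?_, ?_⟩
  · intro t v hv
    exact mem_T.1 (mem_of_mem_erase hv)
  · intro t a
    apply gap_card h
    unfold Din
    rw [filt_erase, filt_erase]
    have h1 : (((T m).filter (fun v => co t v ≤ a)).erase (pc m (t + 1))).card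
        ≤ ((T m).filter (fun v => co t v ≤ a)).card := card_le_card (erase_subset _ _)
    have h2 := Finset.pred_card_le_card_erase (s := (T m).filter (fun v => co t v ≤ a))
      (a := pc m t)
    omega

theorem sys_out {m : ℕ} {M : Finset Tl} (h : Cov M (Dout m)) : Sys m M (Dout m) := by
  refine ⟨h, ?_, ?_⟩
  · intro t v hv
    exact mem_T.1 (mem_of_mem_erase (mem_of_mem_erase hv))
  · intro t a
    apply gap_card h
    unfold Dout
    rw [filt_erase, filt_erase, filt_erase, filt_erase, fin3_d]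
    have h1 : ((((T m).filter (fun v => co t v ≤ a)).erase (pc m (t + 1))).erase (pc m t)).card
        ≤ (((T m).filter (fun v => co t v ≤ a)).erase (pc m t)).card := by
      apply card_le_card
      intro v hv
      simp only [mem_erase] at hv ⊢
      tauto
    have h2 := Finset.pred_card_le_card_erase
      (s := ((T m).filter (fun v => co t v ≤ a)).erase (pc m t)) (a := pc m (t + 2))
    omega

/-- no junction tile in the inward region -/
theorem no_ju {m : ℕ} {M : Finset Tl} (h : Cov M (Din m)) : ∀ R ∈ M, ¬ Ju R := by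
  intro R hR hJ
  have S := sys_in h
  have hsub : ∀ t, ∀ τ ∈ M, 0 ≤ (X t τ).1 ∧ 0 ≤ (X t τ).2 ∧ (X t τ).1 + (X t τ).2 ≤ m :=
    fun t τ hτ => S.sub t _ (h.mem hτ t)
  have hvac : ∀ t, ∀ x : Pt, x ∉ Din m t → (0 ≤ x.1 ∧ 0 ≤ x.2 ∧ x.1 + x.2 ≤ m) → x = pc m t := by
    intro t x hx hx'
    by_contra hne
    exact hx (mem_erase.2 ⟨hne, mem_T.2 hx'⟩)
  have hb1 : (pc m 1).1 = m ∧ (pc m 1).2 = 0 := ⟨rfl, rfl⟩
  have hext1 : Ext M 1 (pc m 1) := by
    intro τ hτ e
    exfalso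
    have := h.mem hτ 1
    rw [e] at this
    exact (mem_erase.1 this).1 rfl
  obtain ⟨w, hw, he1, he2, he0, hw1, hw2, hw3, -⟩ := forw S 1 (v := pc m 1)
    (by rw [hb1.1, hb1.2]; simp) hext1
  rw [show (1 : Fin 3) + 1 = 2 from rfl] at he2
  rw [show (1 : Fin 3) + 2 = 0 from rfl] at he0
  -- source of type 0
  have B0 : ∃ x, Seg M 0 x w ∧ ((∃ P ∈ M, Ju P ∧ X 0 P = x) ∨ x = pc m 0) := by
    by_cases hwD : w ∈ Din m 0
    · obtain ⟨x, hx, hx'⟩ := back S 0 hwD he0
      refine ⟨x, hx, ?_⟩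
      rcases hx' with h' | ⟨h1, h2, -⟩
      · exact Or.inl h'
      · exact Or.inr (hvac 0 x h1 (S.sub _ _ h2))
    · exact ⟨w, Seg.refl _ _ _, Or.inr (hvac 0 w hwD ⟨hw1, hw2, hw3⟩)⟩
  have B2 : ∃ x, Seg M 2 x w ∧ ((∃ P ∈ M, Ju P ∧ X 2 P = x) ∨ x = pc m 2) := by
    by_cases hwD : w ∈ Din m 2
    · obtain ⟨x, hx, hx'⟩ := back S 2 hwD he2
      refine ⟨x, hx, ?_⟩
      rcases hx' with h' | ⟨h1, h2, -⟩
      · exact Or.inl h'
      · exact Or.inr (hvac 2 x h1 (S.sub _ _ h2))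
    · exact ⟨w, Seg.refl _ _ _, Or.inr (hvac 2 w hwD ⟨hw1, hw2, hw3⟩)⟩
  obtain ⟨x0, s0, c0⟩ := B0
  obtain ⟨x2, s2, c2⟩ := B2
  have hs1 : co 0 w ≤ co 0 (pc m 1) := hw.le2
  -- a step and a junction never straddle the same gap
  have clash : ∀ t a, ∀ Q ∈ M, Ju Q → Str t a Q → (∃ t', ∃ τ ∈ M, St t' τ ∧ Str t a τ) → False := by
    intro t a Q hQ hJQ hs ⟨t', τ, hτ, hst, hs'⟩
    have := S.uniq t a Q hQ τ hτ hs hs'
    rw [← this] at hst
    exact st_not_ju hst hJQ
  rcases c0 with ⟨P, hP, hJP, eP⟩ | e0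
  · rcases c2 with ⟨Q, hQ, hJQ, eQ⟩ | e2
    · by_cases hPQ : P = Q
      · subst hPQ
        have h1 : co 2 (X 2 P) ≤ co 2 w := by rw [eQ]; exact s2.le1
        have h2 : co 2 w ≤ co 2 (X 0 P) := by rw [eP]; exact s0.le2
        have h3 : co 2 (X 0 P) < co 2 (X 2 P) := ju_lt 2 hJP
        omega
      · -- coordinate 0
        have k0 : co 0 (X 0 Q) ≤ co 0 (X 1 P) := by
          by_contra hc
          push Not at hc
          have hQlt : co 0 (X 1 Q) < co 0 (X 0 Q) := ju_lt 0 hJQ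
          have hs : Str 0 (co 0 (X 0 Q) - 1) Q := ⟨by show co 0 (X 1 Q) ≤ _; omega, by omega⟩
          rcases lt_or_ge (co 0 (X 0 Q) - 1) (co 0 (X 0 P)) with h1 | h1
          · exact hPQ (S.uniq 0 _ P hP Q hQ ⟨by show co 0 (X 1 P) ≤ _; omega, h1⟩ hs)
          · rcases lt_or_ge (co 0 (X 0 Q) - 1) (co 0 w) with h2 | h2
            · rw [eP] at h1
              exact clash 0 _ Q hQ hJQ hs ⟨0, s0.g1 _ h1 h2⟩
            · have h3 : co 0 (X 0 Q) - 1 < co 0 (pc m 1) := by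
                have := hsub 0 Q hQ
                show (X 0 Q).1 - 1 < (m : ℤ)
                omega
              exact clash 0 _ Q hQ hJQ hs ⟨1, hw.g2 _ h2 h3⟩
        have k1 : co 1 (X 1 Q) ≤ co 1 (X 2 P) := by
          by_contra hc
          push Not at hc
          have hPlt : co 1 (X 2 P) < co 1 (X 1 P) := ju_lt 1 hJP
          have hs : Str 1 (co 1 (X 2 P)) P := ⟨le_rfl, hPlt⟩
          rcases le_or_gt (co 1 (X 2 Q)) (co 1 (X 2 P)) with h1 | h1
          · exact hPQ (S.uniq 1 _ P hP Q hQ hs ⟨h1, hc⟩)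
          · rcases le_or_gt (co 1 w) (co 1 (X 2 P)) with h2 | h2
            · rw [eQ] at h1
              exact clash 1 _ P hP hJP hs ⟨2, s2.g2 _ h2 h1⟩
            · have h3 : co 1 (pc m 1) ≤ co 1 (X 2 P) := by
                have := hsub 2 P hP
                show (0 : ℤ) ≤ (X 2 P).2
                omega
              exact clash 1 _ P hP hJP hs ⟨1, hw.g1 _ h3 h2⟩
        have k2 : co 2 (X 2 Q) ≤ co 2 (X 0 P) := by
          have h1 : co 2 (X 2 Q) ≤ co 2 w := by rw [eQ]; exact s2.le1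
          have h2 : co 2 w ≤ co 2 (X 0 P) := by rw [eP]; exact s0.le2
          omega
        have q1 : 1 ≤ co 0 (X 0 Q) + co 1 (X 1 Q) + co 2 (X 2 Q) := by
          obtain ⟨sh, v⟩ := Q
          obtain ⟨k, hk⟩ := hJQ
          simp only at hk
          subst hk
          fin_cases k <;> simp [X, off, co, jo] <;> omega
        have p1 : co 0 (X 1 P) + co 1 (X 2 P) + co 2 (X 0 P) ≤ -1 := by
          obtain ⟨sh, v⟩ := P
          obtain ⟨k, hk⟩ := hJP
          simp only at hk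
          subst hk
          fin_cases k <;> simp [X, off, co, jo] <;> omega
        omega
    · -- every gap of coordinate 1 is straddled by a step
      have hs : Str 1 (co 1 (X 2 R)) R := ⟨le_rfl, ju_lt 1 hJ⟩
      rcases le_or_gt (co 1 w) (co 1 (X 2 R)) with h2 | h2
      · have h3 : co 1 (X 2 R) < co (2 + 2) x2 := by
          rw [e2]
          have := hsub 1 R hR
          have h5 : co 1 (X 2 R) < co 1 (X 1 R) := ju_lt 1 hJ
          have h6 : co 1 (X 1 R) = (X 1 R).2 := rfl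
          show co 1 (X 2 R) < (m : ℤ)
          omega
        exact clash 1 _ R hR hJ hs ⟨2, s2.g2 _ h2 h3⟩
      · have h3 : co 1 (pc m 1) ≤ co 1 (X 2 R) := by
          have := hsub 2 R hR
          show (0 : ℤ) ≤ (X 2 R).2
          omega
        exact clash 1 _ R hR hJ hs ⟨1, hw.g1 _ h3 h2⟩
  · -- every gap of coordinate 0 is straddled by a step
    have hs : Str 0 (co 0 (X 1 R)) R := ⟨le_rfl, ju_lt 0 hJ⟩
    rcases lt_or_ge (co 0 (X 1 R)) (co 0 w) with h2 | h2
    · have h3 : co 0 x0 ≤ co 0 (X 1 R) := by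
        rw [e0]
        have := hsub 1 R hR
        show (0 : ℤ) ≤ (X 1 R).1
        omega
      exact clash 0 _ R hR hJ hs ⟨0, s0.g1 _ h3 h2⟩
    · have h3 : co 0 (X 1 R) < co 0 (pc m 1) := by
        have := hsub 0 R hR
        have h5 : co 0 (X 1 R) < co 0 (X 0 R) := ju_lt 0 hJ
        have h6 : co 0 (X 0 R) = (X 0 R).1 := rfl
        show co 0 (X 1 R) < (m : ℤ)
        omega
      exact clash 0 _ R hR hJ hs ⟨1, hw.g2 _ h2 h3⟩

lemma ju_ne (t : Fin 3) {τ : Tl} (h : Ju τ) : X (t + 1) τ ≠ X t τ ∧ X (t + 2) τ ≠ X t τ := by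
  constructor
  · intro e
    have := ju_lt t h
    rw [e] at this
    exact lt_irrefl _ this
  · intro e
    have := ju_lt (t + 2) h
    rw [fin3_a, e] at this
    exact lt_irrefl _ this

lemma co_sum (v : Pt) : co 0 v + co 1 v + co 2 v = 0 := by
  show v.1 + v.2 + (-v.1 - v.2) = 0
  ring

/-- exactly one junction tile in the outward region -/
theorem one_ju {m : ℕ} (hm : 1 ≤ m) {M : Finset Tl} (h : Cov M (Dout m)) :
    ∃ J ∈ M, Ju J ∧ ∀ R ∈ M, Ju R → R = J := by
  have S := sys_out h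
  have hsub : ∀ t, ∀ τ ∈ M, 0 ≤ (X t τ).1 ∧ 0 ≤ (X t τ).2 ∧ (X t τ).1 + (X t τ).2 ≤ m :=
    fun t τ hτ => S.sub t _ (h.mem hτ t)
  have hmem : ∀ t, ∀ x : Pt, x ∈ Dout m t ↔ (x ≠ pc m t ∧ x ≠ pc m (t + 2) ∧ x ∈ T m) := by
    intro t x
    unfold Dout
    simp only [mem_erase]
    tauto
  have back' : ∀ t, ∀ v, v ∈ Dout m t → Ext M t v → ∃ P ∈ M, Ju P ∧ Seg M t (X t P) v := by
    intro t v hv he
    obtain ⟨x, hx, hx'⟩ := back S t hv he
    rcases hx' with ⟨P, hP, hJ, e⟩ | ⟨h1, h2, h3⟩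
    · exact ⟨P, hP, hJ, by rw [e]; exact hx⟩
    · exfalso
      rw [hmem] at h1 h2 h3
      rw [fin3_d] at h2
      apply h1
      exact ⟨h2.2.1, h3.1, h2.2.2⟩
  have clash : ∀ t a, ∀ Q ∈ M, Ju Q → Str t a Q → (∃ t', ∃ τ ∈ M, St t' τ ∧ Str t a τ) → False := by
    intro t a Q hQ hJQ hs ⟨t', τ, hτ, hst, hs'⟩
    have := S.uniq t a Q hQ τ hτ hs hs'
    rw [← this] at hst
    exact st_not_ju hst hJQ
  have hm' : (1 : ℤ) ≤ m := by exact_mod_cast hm
  have hq0 : pc m 1 ∈ Dout m 0 := by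
    rw [hmem]
    refine ⟨?_, ?_, mem_T.2 ?_⟩
    · intro e
      have := congrArg Prod.fst e
      simp only [pc] at this
      omega
    · intro e
      have := congrArg Prod.fst e
      simp only [pc, show (0 : Fin 3) + 2 = 2 from rfl] at this
      omega
    · simp only [pc]; omega
  have hq0e : Ext M 0 (pc m 1) := by
    intro τ hτ e
    constructor
    · intro e'
      have := h.mem hτ (0 + 1)
      rw [e', hmem] at this
      exact this.1 rfl
    · intro e'
      have := h.mem hτ (0 + 2)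
      rw [e', hmem] at this
      exact this.2.1 rfl
  obtain ⟨J, hJ, hJJ, sJ⟩ := back' 0 _ hq0 hq0e
  refine ⟨J, hJ, hJJ, ?_⟩
  have extJ : ∀ t, Ext M t (X t J) := by
    intro t τ hτ e
    have : τ = J := S.cov.uniq hτ hJ e
    subst this
    exact ju_ne t hJJ
  obtain ⟨A, sA, eA1, eA2, eA0, hA1, hA2, hA3, hAD⟩ := forw S 1 (hsub 1 J hJ) (extJ 1)
  obtain ⟨B, sB, eB2, eB0, eB1, hB1, hB2, hB3, hBD⟩ := forw S 2 (hsub 2 J hJ) (extJ 2)
  rw [show (1 : Fin 3) + 1 = 2 from rfl] at eA2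
  rw [show (2 : Fin 3) + 2 = 1 from rfl] at eB1
  have hAD1 : A ∈ Dout m 1 := by
    rcases hAD with e | e
    · rw [e]; exact h.mem hJ 1
    · exact e
  have hBD2 : B ∈ Dout m 2 := by
    rcases hBD with e | e
    · rw [e]; exact h.mem hJ 2
    · exact e
  intro R hR hJR
  by_contra hne
  -- levels
  have J0 : co 0 (X 1 J) < co 0 (X 0 J) := ju_lt 0 hJJ
  have J1 : co 1 (X 2 J) < co 1 (X 1 J) := ju_lt 1 hJJ
  have J2 : co 2 (X 0 J) < co 2 (X 2 J) := ju_lt 2 hJJ
  have R0 : co 0 (X 1 R) < co 0 (X 0 R) := ju_lt 0 hJR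
  have R2 : co 2 (X 0 R) < co 2 (X 2 R) := ju_lt 2 hJR
  by_cases hA : A ∈ Dout m 2
  · by_cases hB : B ∈ Dout m 1
    · obtain ⟨P, hP, hJP, sP⟩ := back' 1 _ hB eB1
      obtain ⟨Q, hQ, hJQ, sQ⟩ := back' 2 _ hA eA2
      have a1 : co 1 (X 1 J) ≤ co 1 A := sA.le1
      have b1 : co 1 B ≤ co 1 (X 2 J) := sB.le2
      have p1 : co 1 (X 1 P) ≤ co 1 B := sP.le1
      have p0 : co 0 B ≤ co 0 (X 1 P) := sP.le2
      have q2 : co 2 (X 2 Q) ≤ co 2 A := sQ.le1
      have q1 : co 1 A ≤ co 1 (X 2 Q) := sQ.le2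
      have P0 : co 0 (X 1 P) < co 0 (X 0 P) := ju_lt 0 hJP
      have Q2 : co 2 (X 0 Q) < co 2 (X 2 Q) := ju_lt 2 hJQ
      have hPJ : P ≠ J := by
        intro e; subst e; omega
      have hQJ : Q ≠ J := by
        intro e; subst e; omega
      have c0 : co 0 B ≤ co 0 A := by
        by_contra hc
        push Not at hc
        have hs : Str 0 (co 0 (X 1 P)) P := ⟨le_rfl, P0⟩
        rcases lt_or_ge (co 0 (X 1 P)) (co 0 (X 1 J)) with h1 | h1
        · exact clash 0 _ P hP hJP hs ⟨1, sA.g2 _ (by show co 0 A ≤ _; omega) h1⟩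
        · rcases lt_or_ge (co 0 (X 1 P)) (co 0 (X 0 J)) with h2 | h2
          · exact hPJ (S.uniq 0 _ P hP J hJ hs ⟨h1, h2⟩)
          · have h3 : co 0 (X 1 P) < co 0 (pc m 1) := by
              have := hsub 0 P hP
              have h6 : co 0 (X 0 P) = (X 0 P).1 := rfl
              show co 0 (X 1 P) < (m : ℤ)
              omega
            exact clash 0 _ P hP hJP hs ⟨0, sJ.g1 _ h2 h3⟩
      have c2 : co 2 B ≤ co 2 A := by
        by_contra hc
        push Not at hc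
        have hs : Str 2 (co 2 (X 2 Q) - 1) Q := ⟨by show co 2 (X 0 Q) ≤ _; omega, by omega⟩
        rcases le_or_gt (co 2 (X 2 J)) (co 2 (X 2 Q) - 1) with h1 | h1
        · exact clash 2 _ Q hQ hJQ hs ⟨2, sB.g1 _ h1 (by omega)⟩
        · rcases le_or_gt (co 2 (X 0 J)) (co 2 (X 2 Q) - 1) with h2 | h2
          · exact hQJ (S.uniq 2 _ Q hQ J hJ hs ⟨h2, h1⟩)
          · have h3 : co (0 + 2) (pc m 1) ≤ co 2 (X 2 Q) - 1 := by
              have := hsub 0 Q hQ
              have h6 : co 2 (X 0 Q) = -(X 0 Q).1 - (X 0 Q).2 := rfl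
              show -(m : ℤ) - 0 ≤ _
              omega
            exact clash 2 _ Q hQ hJQ hs ⟨0, sJ.g2 _ h3 h2⟩
      have := co_sum A
      have := co_sum B
      omega
    · have eB : B = pc m 0 := by
        rw [hmem] at hB hBD2
        by_contra hc
        exact hB ⟨hBD2.2.1, hc, hBD2.2.2⟩
      have hB0 : co 2 B = 0 := by rw [eB]; simp [co, pc]
      have hs : Str 2 (co 2 (X 0 R)) R := ⟨le_rfl, R2⟩
      rcases lt_or_ge (co 2 (X 0 R)) (co 2 (X 0 J)) with h1 | h1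
      · have h3 : co (0 + 2) (pc m 1) ≤ co 2 (X 0 R) := by
          have := hsub 0 R hR
          show -(m : ℤ) - 0 ≤ -(X 0 R).1 - (X 0 R).2
          omega
        exact clash 2 _ R hR hJR hs ⟨0, sJ.g2 _ h3 h1⟩
      · rcases lt_or_ge (co 2 (X 0 R)) (co 2 (X 2 J)) with h2 | h2
        · exact hne (S.uniq 2 _ R hR J hJ hs ⟨h1, h2⟩)
        · have h3 : co 2 (X 0 R) < co 2 B := by
            have := hsub 2 R hR
            have h6 : co 2 (X 2 R) = -(X 2 R).1 - (X 2 R).2 := rfl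
            omega
          exact clash 2 _ R hR hJR hs ⟨2, sB.g1 _ h2 h3⟩
  · have eA : A = pc m 2 := by
      rw [hmem] at hA hAD1
      by_contra hc
      exact hA ⟨hc, hAD1.1, hAD1.2.2⟩
    have hA0 : co 0 A = 0 := by rw [eA]; simp [co, pc]
    have hs : Str 0 (co 0 (X 1 R)) R := ⟨le_rfl, R0⟩
    rcases lt_or_ge (co 0 (X 1 R)) (co 0 (X 1 J)) with h1 | h1
    · have h3 : co (1 + 2) A ≤ co 0 (X 1 R) := by
        have := hsub 1 R hR
        show co 0 A ≤ (X 1 R).1
        omega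
      exact clash 0 _ R hR hJR hs ⟨1, sA.g2 _ h3 h1⟩
    · rcases lt_or_ge (co 0 (X 1 R)) (co 0 (X 0 J)) with h2 | h2
      · exact hne (S.uniq 0 _ R hR J hJ hs ⟨h1, h2⟩)
      · have h3 : co 0 (X 1 R) < co 0 (pc m 1) := by
          have := hsub 0 R hR
          have h6 : co 0 (X 0 R) = (X 0 R).1 := rfl
          show co 0 (X 1 R) < (m : ℤ)
          omega
        exact clash 0 _ R hR hJR hs ⟨0, sJ.g1 _ h2 h3⟩

end Pool.Agent.R730.Bz
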