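import Pool.Agent.R730.Bz.Inw4

set_option autoImplicit false

/-!
Evaluation of the weighted number of tilings of the outward region.
-/

namespace Pool.Agent.R730.Bz

open Finset

variable {K : Type*} [CommRing K]

/-- weighted number of paths of type `t` from `v` to the corner `pc m (t + 1)` -/
def N' (m : ℕ) (x : Fin 3 → K) (w : K) (t : Fin 3) (v : Pt) : K :=
  if 0 ≤ cp m t v then Rz (x t) w (cp m (t + 2) v) (cp m (t + 1) v) else 0

lemma N'_eq_zero {m : ℕ} {x : Fin 3 → K} {w : K} {t : Fin 3} {v : Pt} (h : v ∉ T m) :
    N' m x w t v = 0 := by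
  unfold N' Rz
  split_ifs with h1 h2
  · exfalso
    apply h
    rw [mem_T]
    fin_cases t <;> simp [cp] at h1 h2 ⊢ <;> omega
  · rfl
  · rfl

lemma N'_pc (m : ℕ) (x : Fin 3 → K) (w : K) (t : Fin 3) : N' m x w t (pc m (t + 1)) = 1 := by
  fin_cases t <;> simp [N', cp, pc, Rz, R]

lemma N'_rec {m : ℕ} (x : Fin 3 → K) (w : K) (t : Fin 3) {v : Pt} (h : v ∈ T m)
    (hv : v ≠ pc m (t + 1)) :
    N' m x w t v = ∑ k : Fin 3, wk x w t k * N' m x w t (v + stp t k) := by
  rw [mem_T] at h
  obtain ⟨a, b⟩ := v
  simp only at h
  rw [Fin.sum_univ_three]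
  have hc : ¬ (cp m (t + 2) (a, b) = 0 ∧ cp m (t + 1) (a, b) = 0) := by
    rintro ⟨h1, h2⟩
    apply hv
    fin_cases t <;> simp [cp, pc] at h1 h2 ⊢ <;> omega
  have h0 : 0 ≤ cp m t (a, b) := by fin_cases t <;> simp [cp] <;> omega
  have h1 : 0 ≤ cp m (t + 2) (a, b) := by fin_cases t <;> simp [cp] <;> omega
  have h2 : 0 ≤ cp m (t + 1) (a, b) := by fin_cases t <;> simp [cp] <;> omega
  have e0 : N' m x w t ((a, b) + stp t 0)
      = Rz (x t) w (cp m (t + 2) (a, b) - 1) (cp m (t + 1) (a, b) + 1) := by
    unfold N'
    rw [if_pos (by fin_cases t <;> simp [cp, stp] at h0 ⊢ <;> omega)]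
    congr 1 <;> fin_cases t <;> simp [cp, stp] <;> ring
  have e1 : N' m x w t ((a, b) + stp t 1)
      = Rz (x t) w (cp m (t + 2) (a, b)) (cp m (t + 1) (a, b) - 1) := by
    unfold N'
    rw [if_pos (by fin_cases t <;> simp [cp, stp] at h0 ⊢ <;> omega)]
    congr 1 <;> fin_cases t <;> simp [cp, stp] <;> ring
  have e2 : N' m x w t ((a, b) + stp t 2)
      = Rz (x t) w (cp m (t + 2) (a, b) - 1) (cp m (t + 1) (a, b)) := by
    unfold N'
    rw [if_pos (by fin_cases t <;> simp [cp, stp] at h0 ⊢ <;> omega)]
    congr 1 <;> fin_cases t <;> simp [cp, stp] <;> ring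
  rw [e0, e1, e2]
  have e : N' m x w t (a, b) = Rz (x t) w (cp m (t + 2) (a, b)) (cp m (t + 1) (a, b)) := by
    unfold N'; rw [if_pos h0]
  rw [e, Rz_rec (x t) w h1 h2 hc]
  simp [wk]
  ring

/-- the region: `U`, the cells `(t, pc m (t + 1))`, without the cells `(t, y t)` -/
def FSD (m : ℕ) (U : Finset Pt) (y : Fin 3 → Pt) (t : Fin 3) : Finset Pt :=
  (insert (pc m (t + 1)) U).erase (y t)

lemma base_pair {τ : Tl} (h : ¬ Ju τ) : ∃ t t', t ≠ t' ∧ X t τ = τ.2 ∧ X t' τ = τ.2 := by
  obtain ⟨sh, v⟩ := τ
  rcases sh with _ | ⟨t, k⟩ | k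
  · exact ⟨0, 1, by decide, by simp [X, off], by simp [X, off]⟩
  · refine ⟨t + 1, t + 2, by fin_cases t <;> decide, ?_, ?_⟩ <;> fin_cases t <;> simp [X, off]
  · exact absurd ⟨k, rfl⟩ h

/-- every point of `U` is the base of a tile -/
lemma hosts {m : ℕ} (hm : 1 ≤ m) {U : Finset Pt} {y : Fin 3 → Pt} {M : Finset Tl}
    (h : Cov M (FSD m U y)) (hj : ∀ τ ∈ M, ¬ Ju τ) (hU : ∀ t, pc m t ∉ U)
    (hy : y 0 ∈ insert (pc m 1) U) : ∀ v ∈ U, ∃ τ ∈ M, τ.2 = v := by
  classical
  have hsub : M.image Prod.snd ⊆ U := by
    intro v hv
    obtain ⟨τ, hτ, rfl⟩ := mem_image.1 hv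
    obtain ⟨t, t', hne, h1, h2⟩ := base_pair (hj τ hτ)
    have m1 := mem_of_mem_erase (h.mem hτ t)
    have m2 := mem_of_mem_erase (h.mem hτ t')
    rw [h1] at m1
    rw [h2] at m2
    rcases mem_insert.1 m1 with m1 | m1
    · rcases mem_insert.1 m2 with m2 | m2
      · exfalso
        rw [m1] at m2
        have : t' + 1 ≠ t + 1 := by
          intro e; apply hne; exact (add_right_cancel e).symm
        exact pc_ne hm this m2
      · exact m2
    · exact m1
  have hinj : Set.InjOn Prod.snd (M : Set Tl) := by
    intro τ hτ τ' hτ' e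
    obtain ⟨t, ht, ht'⟩ := base_two (hj τ hτ) (hj τ' hτ')
    exact h.uniq hτ hτ' (t := t) (by rw [ht, ht', e])
  have hcard : (M.image Prod.snd).card = U.card := by
    rw [card_image_of_injOn hinj, h.card 0]
    unfold FSD
    rw [show (0 : Fin 3) + 1 = 1 from rfl, card_erase_of_mem hy, card_insert_of_notMem (hU 1)]
    omega
  have heq : M.image Prod.snd = U := Finset.eq_of_subset_of_card_le hsub (le_of_eq hcard.symm)
  intro v hv
  rw [← heq, mem_image] at hv
  exact hv

lemma stp_co' (t k : Fin 3) (v : Pt) : co t v ≤ co t (v + stp t k) ∧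
    co (t + 2) (v + stp t k) ≤ co (t + 2) v ∧
    co t v - co (t + 2) v < co t (v + stp t k) - co (t + 2) (v + stp t k) := by
  fin_cases t <;> fin_cases k <;> simp [co, stp] <;> omega

theorem FS_eval {m : ℕ} (hm : 1 ≤ m) (x : Fin 3 → K) (w : K) : ∀ (n : ℕ) (U : Finset Pt)
    (y : Fin 3 → Pt), U.card = n → (∀ t, y t ∈ T m) → U ⊆ T m → (∀ t, pc m t ∉ U) →
    (∀ t, ∀ v ∈ T m, co t (y t) ≤ co t v → co (t + 2) v ≤ co (t + 2) (y t) → v ≠ pc m (t + 1) →
      v ∈ U) →
    (∀ t, co t (y (t + 1)) < co t (y t)) →
    Z (fun τ => W' x w τ.1) (FSD m U y) = ∏ t, N' m x w t (y t) := by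
  classical
  intro n
  induction n using Nat.strong_induction_on with
  | _ n ih =>
  intro U y hn hyT hU hpU hreg hsep
  have hinj : ∀ t t', t ≠ t' → y t ≠ y t' := by
    intro t t' h e
    have h0 := hsep 0
    have h1 := hsep 1
    have h2 := hsep 2
    simp only [show (0 : Fin 3) + 1 = 1 from rfl, show (1 : Fin 3) + 1 = 2 from rfl,
      show (2 : Fin 3) + 1 = 0 from rfl] at h0 h1 h2
    fin_cases t <;> fin_cases t' <;> simp at h e <;> (try rw [e] at h0) <;> (try rw [e] at h1) <;>
      (try rw [e] at h2) <;> omega
  by_cases hall : ∀ t, y t = pc m (t + 1)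
  · have e1 : FSD m U y = fun _ => U := by
      funext t
      unfold FSD
      rw [hall t, erase_insert (hpU _)]
    rw [e1, Z_full]
    symm
    apply Finset.prod_eq_one
    intro t _
    rw [hall t, N'_pc]
  · push Not at hall
    obtain ⟨t, ht⟩ := hall
    have ht1 : t + 1 ≠ t := by fin_cases t <;> decide
    have ht2 : t + 2 ≠ t := by fin_cases t <;> decide
    have ht12 : t + 2 ≠ t + 1 := by fin_cases t <;> decide
    have hyU : y t ∈ U := hreg t (y t) (hyT t) le_rfl le_rfl ht
    have hmem1 : y t ∈ FSD m U y (t + 1) := mem_erase.2 ⟨hinj _ _ (Ne.symm ht1), mem_insert_of_mem hyU⟩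
    have hmem2 : y t ∈ FSD m U y (t + 2) := mem_erase.2 ⟨hinj _ _ (Ne.symm ht2), mem_insert_of_mem hyU⟩
    have hnot : y t ∉ FSD m U y t := fun h => (mem_erase.1 h).1 rfl
    have hy0 : y 0 ∈ insert (pc m 1) U := by
      by_cases e : y 0 = pc m 1
      · rw [e]; exact mem_insert_self _ _
      · exact mem_insert_of_mem (hreg 0 (y 0) (hyT 0) le_rfl le_rfl e)
    rw [Z_rec _ _ hmem1]
    rw [sum_sh t]
    rotate_left
    · rw [if_neg]
      intro h
      have := h t
      simp only [off, sub_add_cancel] at this
      exact hnot this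
    · intro k
      split_ifs with h
      · simp [W']
      · rfl
    · intro t' k hne
      rcases fin3_cases t t' with e | e | e
      · exact absurd e hne
      · subst e
        split_ifs with hc
        · apply mul_eq_zero_of_right
          apply Z_eq_zero
          intro M hM
          by_contra hcon
          push Not at hcon
          have hj : ∀ τ ∈ M, ¬ Ju τ := by
            rintro τ hτ ⟨k', hk'⟩
            apply hcon τ hτ
            rw [hk']; rfl
          have hX : ∀ t', X t' (Sh.s (t + 1) k, y t - off (Sh.s (t + 1) k) (t + 1))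
            = y t - off (Sh.s (t + 1) k) (t + 1) + off (Sh.s (t + 1) k) t' := fun t' => rfl
          obtain ⟨hM1, hM2⟩ := Cov.insert
            (τ := (Sh.s (t + 1) k, y t - off (Sh.s (t + 1) k) (t + 1))) (D := FSD m U y) hc hM
          have hj' : ∀ τ ∈ insert ((Sh.s (t + 1) k, y t - off (Sh.s (t + 1) k) (t + 1)) : Tl) M,
              ¬ Ju τ := by
            intro τ hτ
            rcases mem_insert.1 hτ with e | e
            · rw [e]; exact st_not_ju ⟨k, rfl⟩
            · exact hj τ e
          obtain ⟨σ, hσ, hσ2⟩ := hosts hm hM1 hj' hpU hy0 (y t) hyU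
          have hσX : X (t + 1) σ = y t := by
            have hnj := hj' σ hσ
            have hne' : X t σ ≠ y t := by
              intro e
              apply hnot
              rw [← e]
              exact hM1.mem hσ t
            obtain ⟨t1, t2, hne12, g1, g2⟩ := base_pair hnj
            have a1 : t1 ≠ t := by
              intro e; rw [e] at g1; exact hne' (g1.trans hσ2)
            have a2 : t2 ≠ t := by
              intro e; rw [e] at g2; exact hne' (g2.trans hσ2)
            rcases fin3_cases t t1 with b | b | b
            · exact absurd b a1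
            · rw [← b]; exact g1.trans hσ2
            · rcases fin3_cases t t2 with b' | b' | b'
              · exact absurd b' a2
              · rw [← b']; exact g2.trans hσ2
              · exact absurd (b.trans b'.symm) hne12
          have := hM1.uniq hσ (mem_insert_self _ _) (t := t + 1) (by rw [hσX, hX]; simp)
          rw [this] at hσ2
          simp only [st_off] at hσ2
          exact stp_ne _ _ _ hσ2
        · rfl
      · subst e
        rw [if_neg]
        intro h
        have := h t
        rw [st_off' k ht12.symm, st_off' k (Ne.symm ht2)] at this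
        simp only [sub_zero, add_zero] at this
        exact hnot this
    -- the product
    have hprod : ∀ u : Pt, ∏ s, N' m x w s (Function.update y t u s)
        = N' m x w t u * ∏ s ∈ univ.erase t, N' m x w s (y s) := by
      intro u
      rw [← Finset.mul_prod_erase univ _ (mem_univ t), Function.update_self]
      congr 1
      apply Finset.prod_congr rfl
      intro s hs
      rw [Function.update_of_ne (ne_of_mem_erase hs)]
    rw [← Finset.mul_prod_erase univ _ (mem_univ t), N'_rec x w t (hyT t) ht, Finset.sum_mul]
    apply Finset.sum_congr rfl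
    intro k _
    rw [st_off' k ht1, sub_zero]
    have hco := stp_co' t k (y t)
    generalize huu : y t + stp t k = u at hco
    by_cases huT : u ∈ T m
    · have huy : u ≠ y t := by
        intro e; rw [e] at hco; omega
      have huU : u ∈ insert (pc m (t + 1)) U := by
        by_cases e : u = pc m (t + 1)
        · rw [e]; exact mem_insert_self _ _
        · exact mem_insert_of_mem (hreg t u huT hco.1 hco.2.1 e)
      have hcond : ∀ t', y t + off (Sh.s t k) t' ∈ FSD m U y t' := by
        intro t'
        rcases fin3_cases t t' with e | e | e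
        · subst e
          rw [st_off, huu]
          exact mem_erase.2 ⟨huy, huU⟩
        · subst e
          rw [st_off' k ht1, add_zero]; exact hmem1
        · subst e
          rw [st_off' k ht2, add_zero]; exact hmem2
      rw [if_pos hcond]
      have hD : (fun t' => (FSD m U y t').erase (y t + off (Sh.s t k) t'))
          = FSD m (U.erase (y t)) (Function.update y t u) := by
        funext t'
        by_cases e : t' = t
        · subst e
          rw [st_off, huu]
          unfold FSD
          rw [Function.update_self]
          ext v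
          simp only [mem_erase, mem_insert]
          have : pc m (t' + 1) ≠ y t' := Ne.symm ht
          constructor
          · rintro ⟨h1, h2, h3 | h3⟩
            · exact ⟨h1, Or.inl h3⟩
            · exact ⟨h1, Or.inr ⟨h2, h3⟩⟩
          · rintro ⟨h1, h2 | ⟨h2, h3⟩⟩
            · exact ⟨h1, by rw [h2]; exact this, Or.inl h2⟩
            · exact ⟨h1, h2, Or.inr h3⟩
        · rw [st_off' k e, add_zero]
          unfold FSD
          rw [Function.update_of_ne e]
          ext v
          simp only [mem_erase, mem_insert]
          have : pc m (t' + 1) ≠ y t := fun e' => hpU _ (by rw [e']; exact hyU)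
          constructor
          · rintro ⟨h1, h2, h3 | h3⟩
            · exact ⟨h2, Or.inl h3⟩
            · exact ⟨h2, Or.inr ⟨h1, h3⟩⟩
          · rintro ⟨h1, h2 | ⟨h2, h3⟩⟩
            · exact ⟨by rw [h2]; exact this, h1, Or.inl h2⟩
            · exact ⟨h2, h1, Or.inr h3⟩
      have hs1 := hsep t
      have hs2 := hsep (t + 2)
      rw [fin3_a] at hs2
      rw [hD, ih (U.erase (y t)).card (by rw [← hn]; exact card_erase_lt_of_mem hyU)
        (U.erase (y t)) (Function.update y t u) rfl, hprod]
      · simp only [W', mul_assoc]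
      · intro s
        by_cases e : s = t
        · subst e; rw [Function.update_self]; exact huT
        · rw [Function.update_of_ne e]; exact hyT s
      · exact (erase_subset _ _).trans hU
      · intro s h
        exact hpU s (mem_of_mem_erase h)
      · intro s v hv h1 h2 h3
        by_cases e : s = t
        · subst e
          rw [Function.update_self] at h1 h2
          refine mem_erase.2 ⟨?_, hreg s v hv (hco.1.trans h1) (h2.trans hco.2.1) h3⟩
          intro e
          rw [e] at h1 h2
          omega
        · rw [Function.update_of_ne e] at h1 h2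
          refine mem_erase.2 ⟨?_, hreg s v hv h1 h2 h3⟩
          intro e'
          subst e'
          rcases fin3_cases t s with e'' | e'' | e''
          · exact e e''
          · subst e''
            rw [fin3_d] at h2
            omega
          · subst e''
            omega
      · intro s
        rcases fin3_cases t s with e | e | e
        · subst e
          rw [Function.update_self, Function.update_of_ne ht1]
          omega
        · subst e
          rw [fin3_c, Function.update_of_ne ht1, Function.update_of_ne ht2]
          have := hsep (t + 1)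
          rw [fin3_c] at this
          exact this
        · subst e
          rw [fin3_a, Function.update_self, Function.update_of_ne ht2]
          omega
    · rw [if_neg, N'_eq_zero huT]
      · ring
      · intro h
        have := h t
        rw [st_off, huu] at this
        rcases mem_insert.1 (mem_of_mem_erase this) with h' | h'
        · exact huT (by rw [h']; exact pc_mem m _)
        · exact huT (hU h')

end Pool.Agent.R730.Bz
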