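import Pool.Agent.R730.Bz.Out

set_option autoImplicit false

/-!
Evaluation of the weighted number of tilings of the outward region, part 2.
-/

namespace Pool.Agent.R730.Bz

open Finset

variable {K : Type*} [CommRing K]

/-- the tilings which contain a given tile -/
theorem sum_with (w : Tl → K) (D : Fin 3 → Finset Pt) (τ : Tl) [DecidablePred (fun M : Finset Tl => τ ∈ M)] :
    ∑ M ∈ (tilings D).filter (fun M => τ ∈ M), ∏ σ ∈ M, w σ
    = if (∀ t, X t τ ∈ D t) then w τ * Z w (fun t => (D t).erase (X t τ)) else 0 := by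
  classical
  split_ifs with hc
  · unfold Z
    rw [Finset.mul_sum]
    symm
    apply Finset.sum_bij (fun M _ => insert τ M)
    · intro M hM
      rw [mem_tilings] at hM
      have := Cov.insert (τ := τ) (D := D) hc hM
      rw [mem_filter, mem_tilings]
      exact ⟨this.1, mem_insert_self _ _⟩
    · intro M hM M' hM' e
      rw [mem_tilings] at hM hM'
      have a1 := (Cov.insert (τ := τ) (D := D) hc hM).2
      have a2 := (Cov.insert (τ := τ) (D := D) hc hM').2
      rw [← erase_insert a1, ← erase_insert a2, e]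
    · intro M hM
      rw [mem_filter, mem_tilings] at hM
      refine ⟨M.erase τ, ?_, insert_erase hM.2⟩
      rw [mem_tilings]
      exact hM.1.erase hM.2
    · intro M hM
      rw [mem_tilings] at hM
      rw [Finset.prod_insert (Cov.insert (τ := τ) (D := D) hc hM).2]
  · apply Finset.sum_eq_zero
    intro M hM
    rw [mem_filter, mem_tilings] at hM
    exact absurd (fun t' => hM.1.mem hM.2 t') hc

lemma jo_zero (k : Fin 5) : ∃ t, jo k t = 0 := by
  fin_cases k
  · exact ⟨2, rfl⟩
  · exact ⟨0, rfl⟩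
  · exact ⟨0, rfl⟩
  · exact ⟨1, rfl⟩
  · exact ⟨2, rfl⟩

/-- the triangle without its corners -/
noncomputable def Uc (m : ℕ) : Finset Pt := (T m).filter (fun v => ∀ t, v ≠ pc m t)

lemma Dout_eq {m : ℕ} (hm : 1 ≤ m) (t : Fin 3) : Dout m t = insert (pc m (t + 1)) (Uc m) := by
  ext v
  unfold Dout Uc
  simp only [mem_erase, mem_insert, mem_filter]
  have h1 : pc m (t + 1) ≠ pc m t := pc_ne hm (by fin_cases t <;> decide)
  have h2 : pc m (t + 1) ≠ pc m (t + 2) := pc_ne hm (by fin_cases t <;> decide)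
  constructor
  · rintro ⟨h3, h4, h5⟩
    by_cases e : v = pc m (t + 1)
    · exact Or.inl e
    · refine Or.inr ⟨h5, fun t' => ?_⟩
      rcases fin3_cases t t' with e' | e' | e'
      · rw [e']; exact h4
      · rw [e']; exact e
      · rw [e']; exact h3
  · rintro (rfl | ⟨h3, h4⟩)
    · exact ⟨h2, h1, pc_mem m _⟩
    · exact ⟨h4 _, h4 _, h3⟩

lemma co_pc_le {m : ℕ} (t : Fin 3) {v : Pt} (hv : v ∈ T m) :
    co t (pc m t) ≤ co t v ∧ co t (pc m (t + 2)) ≤ co t v := by
  rw [mem_T] at hv
  fin_cases t <;> simp [co, pc] <;> omega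

/-- the contribution of the junction tile `J` -/
lemma junction_term {m : ℕ} (hm : 1 ≤ m) (x : Fin 3 → K) (w : K) {J : Tl} (hJ : Ju J) :
    (if (∀ t, X t J ∈ Dout m t) then Z (fun τ => Wt x w τ.1) (fun t => (Dout m t).erase (X t J))
      else 0) = ∏ t, N' m x w t (X t J) := by
  classical
  split_ifs with hc
  · have h1 : Z (fun τ => Wt x w τ.1) (fun t => (Dout m t).erase (X t J))
        = Z (fun τ => W' x w τ.1) (fun t => (Dout m t).erase (X t J)) := by
      apply Z_congr
      intro M hM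
      obtain ⟨hM1, hM2⟩ := Cov.insert (τ := J) (D := Dout m) hc hM
      obtain ⟨J0, hJ0, hJJ0, huniq⟩ := one_ju hm hM1
      have hJe : J = J0 := huniq J (mem_insert_self _ _) hJ
      apply Finset.prod_congr rfl
      intro τ hτ
      have hnj : ¬ Ju τ := by
        intro hj
        have := huniq τ (mem_insert_of_mem hτ) hj
        rw [← hJe] at this
        exact hM2 (this ▸ hτ)
      obtain ⟨sh, v⟩ := τ
      rcases sh with _ | ⟨t, k⟩ | k
      · rfl
      · rfl
      · exact absurd ⟨k, rfl⟩ hnj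
    rw [h1]
    have h2 : (fun t => (Dout m t).erase (X t J)) = FSD m (Uc m) (fun t => X t J) := by
      funext t
      unfold FSD
      rw [Dout_eq hm]
    have hyT : ∀ t, X t J ∈ T m := fun t => mem_of_mem_erase (mem_of_mem_erase (hc t))
    have hsep : ∀ t, co t (X (t + 1) J) < co t (X t J) := fun t => ju_lt t hJ
    rw [h2, FS_eval hm x w (Uc m).card (Uc m) (fun t => X t J) rfl hyT (filter_subset _ _)
      (fun t h => (mem_filter.1 h).2 t rfl) ?_ hsep]
    intro t v hv h3 h4 h5
    refine mem_filter.2 ⟨hv, fun t' e => ?_⟩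
    subst e
    have h6 := hsep t
    have h7 := co_pc_le t (hyT (t + 1))
    rcases fin3_cases t t' with e' | e' | e'
    · subst e'
      omega
    · exact h5 (by rw [e'])
    · subst e'
      omega
  · by_cases hT : ∀ t, X t J ∈ T m
    · exfalso
      apply hc
      intro t
      have h6 := ju_lt t hJ
      have h7 := co_pc_le t (hT (t + 1))
      refine mem_erase.2 ⟨?_, mem_erase.2 ⟨?_, hT t⟩⟩
      · intro e; rw [e] at h6; omega
      · intro e; rw [e] at h6; omega
    · push Not at hT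
      obtain ⟨t, ht⟩ := hT
      symm
      exact Finset.prod_eq_zero (mem_univ t) (N'_eq_zero ht)

theorem Z_out_T {m : ℕ} (hm : 1 ≤ m) (x : Fin 3 → K) (w : K) :
    Z (fun τ => Wt x w τ.1) (Dout m)
      = ∑ k : Fin 5, Wt x w (Sh.j k) * ∑ v ∈ T m, ∏ t, N' m x w t (v + jo k t) := by
  classical
  have h1 : Z (fun τ => Wt x w τ.1) (Dout m)
      = ∑ M ∈ tilings (Dout m), ∑ p ∈ (univ : Finset (Fin 5)) ×ˢ (T m),
        if ((Sh.j p.1, p.2) : Tl) ∈ M then ∏ τ ∈ M, Wt x w τ.1 else 0 := by
    unfold Z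
    apply Finset.sum_congr rfl
    intro M hM
    rw [mem_tilings] at hM
    obtain ⟨J, hJ, hJJ, huniq⟩ := one_ju hm hM
    obtain ⟨⟨shJ, v⟩, k, hk⟩ : ∃ J' : Tl, ∃ k, J'.1 = Sh.j k ∧ J' = J := by
      obtain ⟨k, hk⟩ := hJJ
      exact ⟨J, k, hk, rfl⟩
    obtain ⟨hk1, hk2⟩ := hk
    simp only at hk1
    subst hk1
    subst hk2
    rw [Finset.sum_eq_single (k, v)]
    · rw [if_pos hJ]
    · rintro ⟨k', v'⟩ _ hne
      rw [if_neg]
      intro h
      have := huniq _ h ⟨k', rfl⟩
      apply hne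
      simp only [Prod.mk.injEq, Sh.j.injEq] at this
      rw [this.1, this.2]
    · intro h
      exfalso
      apply h
      rw [mem_product]
      refine ⟨mem_univ _, ?_⟩
      obtain ⟨t, ht⟩ := jo_zero k
      have := hM.mem hJ t
      have e : X t ((Sh.j k, v) : Tl) = v := by
        show v + jo k t = v
        rw [ht, add_zero]
      rw [e] at this
      exact mem_of_mem_erase (mem_of_mem_erase this)
  rw [h1, Finset.sum_comm, Finset.sum_product]
  apply Finset.sum_congr rfl
  intro k _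
  rw [Finset.mul_sum]
  apply Finset.sum_congr rfl
  intro v _
  rw [← Finset.sum_filter, sum_with]
  have h2 := junction_term hm x w (J := (Sh.j k, v)) ⟨k, rfl⟩
  have h3 : ∀ t, X t ((Sh.j k, v) : Tl) = v + jo k t := fun t => rfl
  have h4 : ∏ t, N' m x w t (v + jo k t) = ∏ t, N' m x w t (X t (Sh.j k, v)) := rfl
  rw [h4, ← h2]
  split_ifs
  · rfl
  · rw [mul_zero]

lemma sum_T_shift {m m' : ℕ} (u : Pt) (f : Pt → K) (hsub : ∀ v ∈ T m', v + u ∈ T m)
    (h0 : ∀ v ∈ T m, v - u ∉ T m' → f v = 0) : ∑ v ∈ T m, f v = ∑ v ∈ T m', f (v + u) := by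
  classical
  have h1 : ∑ v ∈ T m', f (v + u) = ∑ v ∈ (T m').image (fun v => v + u), f v := by
    rw [Finset.sum_image]
    intro a _ b _ e
    exact add_right_cancel e
  rw [h1]
  symm
  apply Finset.sum_subset
  · intro v hv
    obtain ⟨a, ha, rfl⟩ := mem_image.1 hv
    exact hsub a ha
  · intro v hv hv'
    apply h0 v hv
    intro h
    exact hv' (mem_image.2 ⟨v - u, h, sub_add_cancel _ _⟩)

end Pool.Agent.R730.Bz
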