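import Pool.Agent.R730.Bz.Out2

set_option autoImplicit false

/-!
The outward formula.
-/

namespace Pool.Agent.R730.Bz

open Finset

variable {K : Type*} [CommRing K]

/-- sum over the triples of natural numbers with sum `n` -/
def TS (n : ℕ) (f : ℕ → ℕ → ℕ → K) : K :=
  ∑ p ∈ Finset.HasAntidiagonal.antidiagonal n, ∑ q ∈ Finset.HasAntidiagonal.antidiagonal p.2,
    f p.1 q.1 q.2

lemma TS_congr {n : ℕ} {f g : ℕ → ℕ → ℕ → K} (h : ∀ a b c, a + b + c = n → f a b c = g a b c) :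
    TS n f = TS n g := by
  unfold TS
  apply Finset.sum_congr rfl
  rintro ⟨a, d⟩ h1
  apply Finset.sum_congr rfl
  rintro ⟨b, c⟩ h2
  rw [Finset.HasAntidiagonal.mem_antidiagonal] at h1 h2
  simp only at h1 h2
  exact h a b c (by omega)

lemma sum_T_TS (n : ℕ) (f : Pt → K) : ∑ v ∈ T n, f v = TS n (fun a b _ => f ((a : ℤ), (b : ℤ))) :=
  sum_T n f

lemma Q_aux {m : ℕ} (n : ℕ) (u : Pt) (k : Fin 5) (x : Fin 3 → K) (w : K)
    (g : ℕ → ℕ → ℕ → K)
    (hsub : ∀ v ∈ T n, v + u ∈ T m)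
    (h0 : ∀ v : Pt, (∀ t, v + jo k t ∈ T m) → v - u ∈ T n)
    (hg : ∀ a b c : ℕ, a + b + c = n →
      ∏ t, N' m x w t (((a : ℤ), (b : ℤ)) + u + jo k t) = g a b c) :
    ∑ v ∈ T m, ∏ t, N' m x w t (v + jo k t) = TS n g := by
  rw [sum_T_shift (m' := n) u _ hsub, sum_T_TS]
  · exact TS_congr hg
  · intro v _ h
    have : ¬ ∀ t, v + jo k t ∈ T m := fun h' => h (h0 v h')
    push Not at this
    obtain ⟨t, ht⟩ := this
    exact Finset.prod_eq_zero (mem_univ t) (N'_eq_zero ht)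

lemma N'_val {m : ℕ} (x : Fin 3 → K) (w : K) (t : Fin 3) (v : Pt) (a b : ℕ)
    (h0 : 0 ≤ cp m t v) (ha : cp m (t + 2) v = a) (hb : cp m (t + 1) v = b) :
    N' m x w t v = R (x t) w a b := by
  unfold N'
  rw [if_pos h0, ha, hb, Rz_nat]

lemma Q0 (n : ℕ) (x : Fin 3 → K) (w : K) :
    ∑ v ∈ T (n + 1), ∏ t, N' (n + 1) x w t (v + jo 0 t)
      = TS n (fun a b c => R (x 0) w c b * R (x 1) w a c * R (x 2) w b a) := by
  apply Q_aux n (0, 0) 0 x w
  · intro v hv
    rw [mem_T] at hv ⊢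
    simp only [Prod.fst_add, Prod.snd_add, Nat.cast_add, Nat.cast_one]
    omega
  · intro v hv
    have h0 := hv 0
    have h1 := hv 1
    have h2 := hv 2
    rw [mem_T] at h0 h1 h2 ⊢
    simp only [jo, Prod.fst_add, Prod.snd_add, Nat.cast_add, Nat.cast_one, Prod.fst_sub,
      Prod.snd_sub] at h0 h1 h2 ⊢
    omega
  · intro a b c h
    rw [Fin.prod_univ_three]
    congr 1
    · congr 1
      · apply N'_val
        · simp [cp, jo]; omega
        · simp [cp, jo]; omega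
        · simp [cp, jo]
      · apply N'_val
        · simp [cp, jo]; omega
        · simp [cp, jo]
        · simp [cp, jo]; omega
    · apply N'_val
      · simp [cp, jo]; omega
      · simp [cp, jo]
      · simp [cp, jo]

lemma Q1 (n : ℕ) (x : Fin 3 → K) (w : K) :
    ∑ v ∈ T (n + 2), ∏ t, N' (n + 2) x w t (v + jo 1 t)
      = TS n (fun a b c => R (x 0) w c (b + 1) * R (x 1) w a (c + 1) * R (x 2) w b (a + 1)) := by
  apply Q_aux n (1, 1) 1 x w
  · intro v hv
    rw [mem_T] at hv ⊢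
    simp only [Prod.fst_add, Prod.snd_add, Nat.cast_add, Nat.cast_ofNat]
    omega
  · intro v hv
    have h0 := hv 0
    have h1 := hv 1
    have h2 := hv 2
    rw [mem_T] at h0 h1 h2 ⊢
    simp only [jo, Prod.fst_add, Prod.snd_add, Nat.cast_add, Nat.cast_ofNat, Prod.fst_sub,
      Prod.snd_sub] at h0 h1 h2 ⊢
    omega
  · intro a b c h
    rw [Fin.prod_univ_three]
    congr 1
    · congr 1
      · apply N'_val <;> simp [cp, jo] <;> omega
      · apply N'_val <;> simp [cp, jo] <;> omega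
    · apply N'_val <;> simp [cp, jo] <;> omega

lemma Q2 (n : ℕ) (x : Fin 3 → K) (w : K) :
    ∑ v ∈ T (n + 2), ∏ t, N' (n + 2) x w t (v + jo 2 t)
      = TS n (fun a b c => R (x 0) w c b * R (x 1) w a (c + 1) * R (x 2) w b (a + 1)) := by
  apply Q_aux n (2, 0) 2 x w
  · intro v hv
    rw [mem_T] at hv ⊢
    simp only [Prod.fst_add, Prod.snd_add, Nat.cast_add, Nat.cast_ofNat]
    omega
  · intro v hv
    have h0 := hv 0
    have h1 := hv 1
    have h2 := hv 2
    rw [mem_T] at h0 h1 h2 ⊢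
    simp only [jo, Prod.fst_add, Prod.snd_add, Nat.cast_add, Nat.cast_ofNat, Prod.fst_sub,
      Prod.snd_sub] at h0 h1 h2 ⊢
    omega
  · intro a b c h
    rw [Fin.prod_univ_three]
    congr 1
    · congr 1
      · apply N'_val <;> simp [cp, jo] <;> omega
      · apply N'_val <;> simp [cp, jo] <;> omega
    · apply N'_val <;> simp [cp, jo] <;> omega

lemma Q3 (n : ℕ) (x : Fin 3 → K) (w : K) :
    ∑ v ∈ T (n + 2), ∏ t, N' (n + 2) x w t (v + jo 3 t)
      = TS n (fun a b c => R (x 0) w c (b + 1) * R (x 1) w a c * R (x 2) w b (a + 1)) := by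
  apply Q_aux n (0, 2) 3 x w
  · intro v hv
    rw [mem_T] at hv ⊢
    simp only [Prod.fst_add, Prod.snd_add, Nat.cast_add, Nat.cast_ofNat]
    omega
  · intro v hv
    have h0 := hv 0
    have h1 := hv 1
    have h2 := hv 2
    rw [mem_T] at h0 h1 h2 ⊢
    simp only [jo, Prod.fst_add, Prod.snd_add, Nat.cast_add, Nat.cast_ofNat, Prod.fst_sub,
      Prod.snd_sub] at h0 h1 h2 ⊢
    omega
  · intro a b c h
    rw [Fin.prod_univ_three]
    congr 1
    · congr 1
      · apply N'_val <;> simp [cp, jo] <;> omega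
      · apply N'_val <;> simp [cp, jo] <;> omega
    · apply N'_val <;> simp [cp, jo] <;> omega

lemma Q4 (n : ℕ) (x : Fin 3 → K) (w : K) :
    ∑ v ∈ T (n + 2), ∏ t, N' (n + 2) x w t (v + jo 4 t)
      = TS n (fun a b c => R (x 0) w c (b + 1) * R (x 1) w a (c + 1) * R (x 2) w b a) := by
  apply Q_aux n (0, 0) 4 x w
  · intro v hv
    rw [mem_T] at hv ⊢
    simp only [Prod.fst_add, Prod.snd_add, Nat.cast_add, Nat.cast_ofNat]
    omega
  · intro v hv
    have h0 := hv 0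
    have h1 := hv 1
    have h2 := hv 2
    rw [mem_T] at h0 h1 h2 ⊢
    simp only [jo, Prod.fst_add, Prod.snd_add, Nat.cast_add, Nat.cast_ofNat, Prod.fst_sub,
      Prod.snd_sub] at h0 h1 h2 ⊢
    omega
  · intro a b c h
    rw [Fin.prod_univ_three]
    congr 1
    · congr 1
      · apply N'_val <;> simp [cp, jo] <;> omega
      · apply N'_val <;> simp [cp, jo] <;> omega
    · apply N'_val <;> simp [cp, jo] <;> omega

/-- the outward sum for the `(n+4, 2n+4)`-benzel -/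
def OUTs (x₀ x₁ x₂ w : K) (n : ℕ) : K :=
  TS (n + 1) (fun a b c => R x₀ w c b * R x₁ w a c * R x₂ w b a)
  + TS n (fun a b c => R x₀ w c (b + 1) * R x₁ w a (c + 1) * R x₂ w b (a + 1))
  + x₂ * TS n (fun a b c => R x₀ w c b * R x₁ w a (c + 1) * R x₂ w b (a + 1))
  + x₀ * TS n (fun a b c => R x₀ w c (b + 1) * R x₁ w a c * R x₂ w b (a + 1))
  + x₁ * TS n (fun a b c => R x₀ w c (b + 1) * R x₁ w a (c + 1) * R x₂ w b a)

theorem Z_out (n : ℕ) (x : Fin 3 → K) (w : K) :
    Z (fun τ => Wt x w τ.1) (Dout (n + 2)) = OUTs (x 0) (x 1) (x 2) w n := by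
  rw [Z_out_T (by omega), Fin.sum_univ_five, Q1, Q2, Q3, Q4]
  have := Q0 (n + 1) x w
  rw [show n + 2 = n + 1 + 1 from rfl, this]
  unfold OUTs
  simp only [Wt]
  ring

theorem Z_out_one (x : Fin 3 → K) (w : K) :
    Z (fun τ => Wt x w τ.1) (Dout 1) = 1 := by
  rw [Z_out_T le_rfl, Fin.sum_univ_five]
  have h : ∀ k : Fin 5, k ≠ 0 → ∑ v ∈ T 1, ∏ t, N' 1 x w t (v + jo k t) = 0 := by
    intro k hk
    apply Finset.sum_eq_zero
    intro v _
    have : ¬ ∀ t, v + jo k t ∈ T 1 := by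
      intro h
      have h0 := h 0
      have h1 := h 1
      have h2 := h 2
      rw [mem_T] at h0 h1 h2
      fin_cases k <;> simp [jo] at hk h0 h1 h2 <;> omega
    push Not at this
    obtain ⟨t, ht⟩ := this
    exact Finset.prod_eq_zero (mem_univ t) (N'_eq_zero ht)
  have h0 := Q0 0 x w
  simp only [zero_add] at h0
  rw [h 1 (by decide), h 2 (by decide), h 3 (by decide), h 4 (by decide), h0]
  simp [Wt, TS, R]

end Pool.Agent.R730.Bz
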