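import Mathlib

set_option autoImplicit false

/-!
Weighted left factors of Schroeder paths and the two sums which count the stone-and-bone tilings of
the `(m+2, 2m+1)`-benzel and of the `(m+2, 2m)`-benzel.
-/

namespace Pool.Agent.R730.Bz

variable {K : Type*} [CommRing K]

/-- `R x w a b`: paths with `a` downs ending at height `b`, never below height `0`, steps
up `(+1)` and down `(-1)` of weight `x`, level steps (which count as one up and one down) of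
weight `w`. -/
def R (x w : K) : ℕ → ℕ → K
  | 0, b => x ^ b
  | a + 1, 0 => x * R x w a 1 + w * R x w a 0
  | a + 1, b + 1 => x * R x w (a + 1) b + x * R x w a (b + 2) + w * R x w a (b + 1)
termination_by a b => (a, b)

/-- `Rm x w a b = R x w (a-1) b`, and `0` if `a = 0`. -/
def Rm (x w : K) : ℕ → ℕ → K
  | 0, _ => 0
  | a + 1, b => R x w a b

/-- the inward sum for the `(m+2, 2m+1)`-benzel -/
def INs (x₁ x₂ x₃ w : K) (m : ℕ) : K :=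
  ∑ p ∈ Finset.HasAntidiagonal.antidiagonal m, ∑ q ∈ Finset.HasAntidiagonal.antidiagonal p.2,
    (R x₁ w p.1 q.1 * R x₂ w q.1 q.2 * R x₃ w q.2 p.1
      - x₁ * x₂ * (R x₁ w p.1 q.1 * R x₂ w q.1 q.2 * Rm x₃ w q.2 p.1)
      - x₂ * x₃ * (Rm x₁ w p.1 q.1 * R x₂ w q.1 q.2 * R x₃ w q.2 p.1)
      - x₃ * x₁ * (R x₁ w p.1 q.1 * Rm x₂ w q.1 q.2 * R x₃ w q.2 p.1))

/-- `F w m` is `INs` with all bone weights `1` -/
def F (w : ℤ) (m : ℕ) : ℤ :=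
  ∑ p ∈ Finset.HasAntidiagonal.antidiagonal m, ∑ q ∈ Finset.HasAntidiagonal.antidiagonal p.2,
    (R 1 w p.1 q.1 * R 1 w q.1 q.2 * (R 1 w q.2 p.1 - 3 * Rm 1 w q.2 p.1))

/-- the outward sum for the `(m+4, 2m+4)`-benzel, all bone weights `1` -/
def G (w : ℤ) (m : ℕ) : ℤ :=
  (∑ p ∈ Finset.HasAntidiagonal.antidiagonal (m + 1), ∑ q ∈ Finset.HasAntidiagonal.antidiagonal p.2,
    R 1 w p.1 q.1 * R 1 w q.1 q.2 * R 1 w q.2 p.1)
  + ∑ p ∈ Finset.HasAntidiagonal.antidiagonal m, ∑ q ∈ Finset.HasAntidiagonal.antidiagonal p.2,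
    (R 1 w p.1 (q.1 + 1) * R 1 w q.1 (q.2 + 1) * R 1 w q.2 (p.1 + 1)
      + 3 * (R 1 w p.1 q.1 * R 1 w q.1 (q.2 + 1) * R 1 w q.2 (p.1 + 1)))

/-- 2-adic continuity on `{n : n0 ≤ n}` -/
def TwoAdic (f : ℕ → ℤ) (n0 : ℕ) : Prop :=
  ∀ k : ℕ, ∃ m : ℕ, ∀ n n' : ℕ, n0 ≤ n → n0 ≤ n' → n ≡ n' [MOD 2 ^ m] →
    f n ≡ f n' [ZMOD 2 ^ k]

end Pool.Agent.R730.Bz
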