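import Pool.Agent.R730.Bz.NoJu
import Pool.Agent.R730.Bz.RDef

set_option autoImplicit false

/-!
Evaluation of the weighted number of tilings when three separated paths have to be completed.
-/

namespace Pool.Agent.R730.Bz

open Finset

variable {K : Type*} [CommRing K]

/-- weight of the step `k` of type `t` -/
def wk (x : Fin 3 → K) (w : K) (t k : Fin 3) : K := if k = 2 then w else x t

/-- weights without junction tiles -/
def W' (x : Fin 3 → K) (w : K) : Sh → K
  | Sh.z => 1
  | Sh.s t k => wk x w t k
  | Sh.j _ => 0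

/-- extension of `R` by zero to the integers -/
def Rz (x w : K) (a b : ℤ) : K := if 0 ≤ a ∧ 0 ≤ b then R x w a.toNat b.toNat else 0

lemma Rz_neg_left (x w : K) {a : ℤ} (b : ℤ) (h : a < 0) : Rz x w a b = 0 := by
  unfold Rz; rw [if_neg]; omega

lemma Rz_neg_right (x w : K) (a : ℤ) {b : ℤ} (h : b < 0) : Rz x w a b = 0 := by
  unfold Rz; rw [if_neg]; omega

lemma Rz_nat (x w : K) (a b : ℕ) : Rz x w a b = R x w a b := by
  unfold Rz; rw [if_pos]
  · simp
  · omega

lemma Rz_rec (x w : K) {a b : ℤ} (ha : 0 ≤ a) (hb : 0 ≤ b) (h : ¬ (a = 0 ∧ b = 0)) :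
    Rz x w a b = x * Rz x w a (b - 1) + x * Rz x w (a - 1) (b + 1) + w * Rz x w (a - 1) b := by
  obtain ⟨a, rfl⟩ := Int.eq_ofNat_of_zero_le ha
  obtain ⟨b, rfl⟩ := Int.eq_ofNat_of_zero_le hb
  rcases a with _ | a
  · rcases b with _ | b
    · exact absurd ⟨rfl, rfl⟩ h
    · rw [Rz_nat, Rz_neg_left x w _ (show (((0 : ℕ) : ℤ) - 1) < 0 by norm_num),
        Rz_neg_left x w _ (show (((0 : ℕ) : ℤ) - 1) < 0 by norm_num),
        show (((b + 1 : ℕ) : ℤ) - 1) = (b : ℤ) by push_cast; ring, Rz_nat, R, R, pow_succ]
      ring
  · rcases b with _ | b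
    · rw [Rz_nat, Rz_neg_right x w _ (show (((0 : ℕ) : ℤ) - 1) < 0 by norm_num),
        show (((a + 1 : ℕ) : ℤ) - 1) = (a : ℤ) by push_cast; ring,
        show (((0 : ℕ) : ℤ) + 1) = ((1 : ℕ) : ℤ) by norm_num, Rz_nat, Rz_nat, R]
      ring
    · rw [Rz_nat, show (((a + 1 : ℕ) : ℤ) - 1) = (a : ℤ) by push_cast; ring,
        show (((b + 1 : ℕ) : ℤ) - 1) = (b : ℤ) by push_cast; ring,
        show (((b + 1 : ℕ) : ℤ) + 1) = ((b + 2 : ℕ) : ℤ) by push_cast; ring,
        Rz_nat, Rz_nat, Rz_nat, R]

/-- the three nonnegative coordinates -/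
def cp (m : ℕ) : Fin 3 → Pt → ℤ
  | 0, v => v.1
  | 1, v => v.2
  | 2, v => m - v.1 - v.2

/-- weighted number of paths of type `t` from the corner `pc m t` to `v` -/
def N (m : ℕ) (x : Fin 3 → K) (w : K) (t : Fin 3) (v : Pt) : K :=
  if 0 ≤ cp m (t + 2) v then Rz (x t) w (cp m t v) (cp m (t + 1) v) else 0

lemma N_eq_zero {m : ℕ} {x : Fin 3 → K} {w : K} {t : Fin 3} {v : Pt} (h : v ∉ T m) :
    N m x w t v = 0 := by
  unfold N Rz
  split_ifs with h1 h2
  · exfalso
    apply h
    rw [mem_T]
    fin_cases t <;> simp [cp] at h1 h2 ⊢ <;> omega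
  · rfl
  · rfl

lemma N_pc (m : ℕ) (x : Fin 3 → K) (w : K) (t : Fin 3) : N m x w t (pc m t) = 1 := by
  fin_cases t <;> simp [N, cp, pc, Rz, R]

lemma N_rec {m : ℕ} (x : Fin 3 → K) (w : K) (t : Fin 3) {v : Pt} (h : v ∈ T m) (hv : v ≠ pc m t) :
    N m x w t v = ∑ k : Fin 3, wk x w t k * N m x w t (v - stp t k) := by
  rw [mem_T] at h
  obtain ⟨a, b⟩ := v
  simp only at h
  rw [Fin.sum_univ_three]
  have hc : ¬ (cp m t (a, b) = 0 ∧ cp m (t + 1) (a, b) = 0) := by
    rintro ⟨h1, h2⟩
    apply hv
    fin_cases t <;> simp [cp, pc] at h1 h2 ⊢ <;> omega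
  have h0 : 0 ≤ cp m (t + 2) (a, b) := by fin_cases t <;> simp [cp] <;> omega
  have h1 : 0 ≤ cp m t (a, b) := by fin_cases t <;> simp [cp] <;> omega
  have h2 : 0 ≤ cp m (t + 1) (a, b) := by fin_cases t <;> simp [cp] <;> omega
  have e0 : N m x w t ((a, b) - stp t 0) = Rz (x t) w (cp m t (a, b)) (cp m (t + 1) (a, b) - 1) := by
    unfold N
    rw [if_pos (by fin_cases t <;> simp [cp, stp] at h0 ⊢ <;> omega)]
    congr 1 <;> fin_cases t <;> simp [cp, stp] <;> ring
  have e1 : N m x w t ((a, b) - stp t 1)
      = Rz (x t) w (cp m t (a, b) - 1) (cp m (t + 1) (a, b) + 1) := by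
    unfold N
    rw [if_pos (by fin_cases t <;> simp [cp, stp] at h0 ⊢ <;> omega)]
    congr 1 <;> fin_cases t <;> simp [cp, stp] <;> ring
  have e2 : N m x w t ((a, b) - stp t 2) = Rz (x t) w (cp m t (a, b) - 1) (cp m (t + 1) (a, b)) := by
    unfold N
    rw [if_pos (by fin_cases t <;> simp [cp, stp] at h0 ⊢ <;> omega)]
    congr 1 <;> fin_cases t <;> simp [cp, stp] <;> ring
  rw [e0, e1, e2]
  have e : N m x w t (a, b) = Rz (x t) w (cp m t (a, b)) (cp m (t + 1) (a, b)) := by
    unfold N; rw [if_pos h0]
  rw [e, Rz_rec (x t) w h1 h2 hc]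
  simp [wk]

/-- all tiles of a tiling of a full region are right stones -/
lemma full_z {U : Finset Pt} {M : Finset Tl} (h : Cov M (fun _ => U)) : ∀ τ ∈ M, τ.1 = Sh.z := by
  have hs : ∀ t s : Fin 3, ∑ τ ∈ M, co t (X s τ) = ∑ v ∈ U, co t v := by
    intro t s
    have e : M.image (X s) = U := (h s).1
    rw [← e, Finset.sum_image (fun a ha b hb e => (h s).2 ha hb e)]
  have h0 : ∀ t : Fin 3, ∀ τ ∈ M, co t (X t τ) - co t (X (t + 1) τ) = 0 := by
    intro t
    have : ∑ τ ∈ M, (co t (X t τ) - co t (X (t + 1) τ)) = 0 := by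
      rw [Finset.sum_sub_distrib, hs, hs, sub_self]
    exact (Finset.sum_eq_zero_iff_of_nonneg (fun τ _ => by have := gap_le t τ; omega)).1 this
  intro τ hτ
  rcases hsh : τ.1 with _ | ⟨t, k⟩ | k
  · rfl
  · exfalso
    have hst : St t τ := ⟨k, hsh⟩
    have hx := st_X hst
    have hc := st_co hst
    have h1 := h0 t τ hτ
    have h2 := h0 (t + 2) τ hτ
    rw [fin3_a, hx.2] at h2
    rw [hx.1] at h1
    omega
  · exfalso
    have := ju_lt 0 (τ := τ) ⟨k, hsh⟩
    have := h0 0 τ hτ
    omega

lemma Z_full (x : Fin 3 → K) (w : K) (U : Finset Pt) :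
    Z (fun τ => W' x w τ.1) (fun _ => U) = 1 := by
  classical
  have hX : ∀ t v, X t ((Sh.z, v) : Tl) = v := by intro t v; simp [X, off]
  have h1 : tilings (fun _ => U) = {U.image (fun v => ((Sh.z, v) : Tl))} := by
    ext M
    rw [mem_tilings, mem_singleton]
    constructor
    · intro h
      have hz := full_z h
      ext τ
      rw [mem_image]
      constructor
      · intro hτ
        refine ⟨τ.2, ?_, ?_⟩
        · have := h.mem hτ 0
          have e : τ = (Sh.z, τ.2) := Prod.ext (hz τ hτ) rfl
          rw [e, hX] at this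
          exact this
        · exact Prod.ext (hz τ hτ).symm rfl
      · rintro ⟨v, hv, rfl⟩
        obtain ⟨τ, hτ, e⟩ := h.exists (t := 0) hv
        have e' : τ = (Sh.z, τ.2) := Prod.ext (hz τ hτ) rfl
        rw [e', hX] at e
        rw [← e, ← e']; exact hτ
    · rintro rfl
      intro t
      constructor
      · rw [image_image]
        ext v
        simp [hX]
      · intro a ha b hb e
        rw [coe_image] at ha hb
        obtain ⟨v, _, rfl⟩ := ha
        obtain ⟨v', _, rfl⟩ := hb
        rw [hX, hX] at e
        rw [e]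
  unfold Z
  rw [h1, sum_singleton]
  apply Finset.prod_eq_one
  intro τ hτ
  rw [mem_image] at hτ
  obtain ⟨v, _, rfl⟩ := hτ
  rfl

/-- the region: `U`, the extra cells `(t, q t)`, without the corner cells `(t, pc m t)` -/
def PSD (m : ℕ) (U : Finset Pt) (q : Fin 3 → Pt) (t : Fin 3) : Finset Pt :=
  (insert (q t) U).erase (pc m t)

lemma st_off (t k : Fin 3) : off (Sh.s t k) t = stp t k := by simp [off]

lemma st_off' {t t' : Fin 3} (k : Fin 3) (h : t' ≠ t) : off (Sh.s t k) t' = 0 := by
  simp [off, h]

lemma stp_co (t k : Fin 3) (v : Pt) : co t (v - stp t k) ≤ co t v ∧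
    co (t + 2) v ≤ co (t + 2) (v - stp t k) ∧
    co t (v - stp t k) - co (t + 2) (v - stp t k) < co t v - co (t + 2) v := by
  fin_cases t <;> fin_cases k <;> simp [co, stp] <;> omega

/-- evaluation of the sum over shapes when only steps of type `t` into `q t` are possible -/
lemma sum_sh (t : Fin 3) (f : Sh → K) (hz : f Sh.z = 0) (hj : ∀ k, f (Sh.j k) = 0)
    (hs : ∀ t' k, t' ≠ t → f (Sh.s t' k) = 0) : ∑ sh : Sh, f sh = ∑ k : Fin 3, f (Sh.s t k) := by
  classical
  have : ∑ sh : Sh, f sh = ∑ sh ∈ (Finset.univ : Finset (Fin 3)).image (fun k => Sh.s t k), f sh := by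
    symm
    apply Finset.sum_subset (subset_univ _)
    intro sh _ hsh
    rcases sh with _ | ⟨t', k⟩ | k
    · exact hz
    · by_cases e : t' = t
      · subst e
        exact absurd (mem_image.2 ⟨k, mem_univ _, rfl⟩) hsh
      · exact hs t' k e
    · exact hj k
  rw [this, Finset.sum_image]
  intro a _ b _ e
  simpa using e

theorem PS_eval {m : ℕ} (x : Fin 3 → K) (w : K) : ∀ (n : ℕ) (U : Finset Pt) (q : Fin 3 → Pt),
    U.card = n → (∀ t, q t ∈ T m) → U ⊆ T m → (∀ t, q t ∉ U) →
    (∀ t, ∀ v ∈ T m, co t v ≤ co t (q t) → co (t + 2) (q t) ≤ co (t + 2) v → v ≠ q t → v ∈ U) →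
    (∀ t, co t (q t) < co t (q (t + 1))) →
    Z (fun τ => W' x w τ.1) (PSD m U q) = ∏ t, N m x w t (q t) := by
  classical
  intro n
  induction n using Nat.strong_induction_on with
  | _ n ih =>
  intro U q hn hqT hU hqU hreg hsep
  have hinj : ∀ t t', t ≠ t' → q t ≠ q t' := by
    intro t t' h e
    have h0 := hsep 0
    have h1 := hsep 1
    have h2 := hsep 2
    simp only [show (0 : Fin 3) + 1 = 1 from rfl, show (1 : Fin 3) + 1 = 2 from rfl,
      show (2 : Fin 3) + 1 = 0 from rfl] at h0 h1 h2
    fin_cases t <;> fin_cases t' <;> simp at h e <;> (try rw [e] at h0) <;> (try rw [e] at h1) <;>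
      (try rw [e] at h2) <;> omega
  by_cases hall : ∀ t, q t = pc m t
  · have e1 : PSD m U q = fun _ => U := by
      funext t
      unfold PSD
      rw [hall t, erase_insert]
      rw [← hall t]; exact hqU t
    rw [e1, Z_full]
    symm
    apply Finset.prod_eq_one
    intro t _
    rw [hall t, N_pc]
  · push Not at hall
    obtain ⟨t, ht⟩ := hall
    have hpcT : ∀ s, pc m s ∈ T m := by
      intro s; rw [mem_T]; fin_cases s <;> simp [pc]
    have hmem : q t ∈ PSD m U q t := mem_erase.2 ⟨ht, mem_insert_self _ _⟩
    have hnot : ∀ s, s ≠ t → q t ∉ PSD m U q s := by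
      intro s hs h
      rcases mem_insert.1 (mem_of_mem_erase h) with h | h
      · exact hinj _ _ hs h.symm
      · exact hqU t h
    rw [Z_rec _ _ hmem]
    have ht1 : t + 1 ≠ t := by fin_cases t <;> decide
    have ht2 : t + 2 ≠ t := by fin_cases t <;> decide
    rw [sum_sh t]
    rotate_left
    · rw [if_neg]
      intro h
      have := h (t + 1)
      simp only [off, sub_add_cancel] at this
      exact hnot _ ht1 this
    · intro k
      split_ifs with h
      · simp [W']
      · rfl
    · intro t' k hne
      rw [if_neg]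
      intro h
      -- the third type
      have hh : ∃ s, s ≠ t ∧ s ≠ t' := by
        fin_cases t <;> fin_cases t' <;> simp at hne ⊢ <;> decide
      obtain ⟨s, hs1, hs2⟩ := hh
      have := h s
      rw [st_off' k hs2, st_off' k (Ne.symm hne)] at this
      simp only [sub_zero, add_zero] at this
      exact hnot s hs1 this
    -- the product
    have hprod : ∀ u : Pt, ∏ s, N m x w s (Function.update q t u s)
        = N m x w t u * ∏ s ∈ univ.erase t, N m x w s (q s) := by
      intro u
      rw [← Finset.mul_prod_erase univ _ (mem_univ t), Function.update_self]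
      congr 1
      apply Finset.prod_congr rfl
      intro s hs
      rw [Function.update_of_ne (ne_of_mem_erase hs)]
    rw [← Finset.mul_prod_erase univ _ (mem_univ t), N_rec x w t (hqT t) ht, Finset.sum_mul]
    apply Finset.sum_congr rfl
    intro k _
    rw [st_off]
    set u := q t - stp t k with hu
    have hco := stp_co t k (q t)
    rw [← hu] at hco
    by_cases huT : u ∈ T m
    · have huq : u ≠ q t := by
        intro e; rw [e] at hco; omega
      have huU : u ∈ U := hreg t u huT hco.1 hco.2.1 huq
      have hsept := hsep t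
      have hsep2 := hsep (t + 2)
      rw [fin3_a] at hsep2
      have hp1 : u ≠ pc m (t + 1) := by
        intro e
        have h1 : co t (q (t + 1)) ≤ co t (pc m (t + 1)) := by
          have := mem_T.1 (hqT (t + 1))
          fin_cases t <;> simp [co, pc] at this ⊢ <;> omega
        rw [e] at hco
        omega
      have hp2 : u ≠ pc m (t + 2) := by
        intro e
        have h1 : co (t + 2) (pc m (t + 2)) ≤ co (t + 2) (q (t + 2)) := by
          have := mem_T.1 (hqT (t + 2))
          fin_cases t <;> simp [co, pc] at this ⊢ <;> omega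
        rw [e] at hco
        omega
      have hcond : ∀ t', u + off (Sh.s t k) t' ∈ PSD m U q t' := by
        intro t'
        by_cases e : t' = t
        · subst e
          rw [st_off, hu, sub_add_cancel]; exact hmem
        · rw [st_off' k e, add_zero]
          refine mem_erase.2 ⟨?_, mem_insert_of_mem huU⟩
          have : t' = t + 1 ∨ t' = t + 2 := by
            fin_cases t <;> fin_cases t' <;> simp at e ⊢
          rcases this with e' | e'
          · rw [e']; exact hp1
          · rw [e']; exact hp2
      rw [if_pos hcond]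
      have hD : (fun t' => (PSD m U q t').erase (u + off (Sh.s t k) t'))
          = PSD m (U.erase u) (Function.update q t u) := by
        funext t'
        by_cases e : t' = t
        · subst e
          rw [st_off, hu, sub_add_cancel, ← hu]
          unfold PSD
          rw [Function.update_self, insert_erase huU]
          ext v
          simp only [mem_erase, mem_insert]
          constructor
          · rintro ⟨h1, h2, h3 | h3⟩
            · exact absurd h3 h1
            · exact ⟨h2, h3⟩
          · rintro ⟨h1, h2⟩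
            exact ⟨fun e => hqU t' (e ▸ h2), h1, Or.inr h2⟩
        · rw [st_off' k e, add_zero]
          unfold PSD
          rw [Function.update_of_ne e]
          ext v
          simp only [mem_erase, mem_insert]
          have : q t' ≠ u := fun e' => hqU t' (by rw [e']; exact huU)
          constructor
          · rintro ⟨h1, h2, h3 | h3⟩
            · exact ⟨h2, Or.inl h3⟩
            · exact ⟨h2, Or.inr ⟨h1, h3⟩⟩
          · rintro ⟨h1, h2 | ⟨h2, h3⟩⟩
            · exact ⟨by rw [h2]; exact this, h1, Or.inl h2⟩
            · exact ⟨h2, h1, Or.inr h3⟩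
      rw [hD, ih (U.erase u).card (by rw [← hn]; exact card_erase_lt_of_mem huU) (U.erase u)
        (Function.update q t u) rfl, hprod]
      · simp only [W', mul_assoc]
      · intro s
        by_cases e : s = t
        · subst e; rw [Function.update_self]; exact huT
        · rw [Function.update_of_ne e]; exact hqT s
      · exact (erase_subset _ _).trans hU
      · intro s
        by_cases e : s = t
        · subst e; rw [Function.update_self]; exact notMem_erase _ _
        · rw [Function.update_of_ne e]
          intro h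
          exact hqU s (mem_of_mem_erase h)
      · intro s v hv h1 h2 h3
        by_cases e : s = t
        · subst e
          rw [Function.update_self] at h1 h2 h3
          have hvq : v ≠ q s := by
            intro e; rw [e] at h1 h2; omega
          exact mem_erase.2 ⟨h3, hreg s v hv (h1.trans hco.1) (hco.2.1.trans h2) hvq⟩
        · rw [Function.update_of_ne e] at h1 h2 h3
          refine mem_erase.2 ⟨?_, hreg s v hv h1 h2 h3⟩
          intro e'
          subst e'
          have : s = t + 1 ∨ s = t + 2 := by
            fin_cases t <;> fin_cases s <;> simp at e ⊢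
          rcases this with e'' | e''
          · subst e''
            rw [fin3_d] at h2
            omega
          · subst e''
            omega
      · intro s
        by_cases e : s = t
        · subst e
          rw [Function.update_self, Function.update_of_ne ht1]
          omega
        · rw [Function.update_of_ne e]
          by_cases e2 : s + 1 = t
          · rw [e2, Function.update_self]
            have : s = t + 2 := by
              fin_cases t <;> fin_cases s <;> simp at e2 ⊢
            subst this
            omega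
          · rw [Function.update_of_ne e2]; exact hsep s
    · rw [if_neg, N_eq_zero huT]
      · ring
      · intro h
        have := h (t + 1)
        rw [st_off' k ht1, add_zero] at this
        rcases mem_insert.1 (mem_of_mem_erase this) with h' | h'
        · exact huT (by rw [h']; exact hqT _)
        · exact huT (hU h')

end Pool.Agent.R730.Bz
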