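import Pool.Agent.R730.Bz.Model
import Pool.Agent.R730.Bz.Out3

set_option autoImplicit false

/-!
Translation between tilings of benzels and tilings of the internal model.
-/

namespace Pool.Agent.R730.Bz

open Finset

variable {K : Type*} [CommRing K]

/-- the cell of type `t` at the point `v` -/
def cell (m : ℕ) : Fin 3 → Pt → Cell
  | 0, v => (m - 2 * v.1 - v.2 + 1, v.1 - v.2, v.1 + 2 * v.2 - m)
  | 1, v => (m - 2 * v.1 - v.2, v.1 - v.2 + 1, v.1 + 2 * v.2 - m)
  | 2, v => (m - 2 * v.1 - v.2, v.1 - v.2, v.1 + 2 * v.2 - m + 1)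

lemma cell_sum (m : ℕ) (t : Fin 3) (v : Pt) :
    (cell m t v).1 + (cell m t v).2.1 + (cell m t v).2.2 = 1 := by
  fin_cases t <;> simp [cell] <;> ring

lemma cell_inj {m : ℕ} {t t' : Fin 3} {v v' : Pt} (h : cell m t v = cell m t' v') :
    t = t' ∧ v = v' := by
  obtain ⟨a, b⟩ := v
  obtain ⟨c, d⟩ := v'
  fin_cases t <;> fin_cases t' <;> simp [cell] at h ⊢ <;> omega

lemma cell_surj (m : ℕ) {c : Cell} (h : c.1 + c.2.1 + c.2.2 = 1) : ∃ t v, cell m t v = c := by
  obtain ⟨i, j, k⟩ := c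
  simp only at h
  have h3 : (j - i + m) % 3 = 0 ∨ (j - i + m) % 3 = 1 ∨ (j - i + m) % 3 = 2 := by omega
  rcases h3 with h3 | h3 | h3
  · refine ⟨2, ((j - i + m) / 3, (k - 1 - j + m) / 3), ?_⟩
    simp only [cell, Prod.mk.injEq]
    omega
  · refine ⟨1, ((j - 1 - i + m) / 3, (k - j + 1 + m) / 3), ?_⟩
    simp only [cell, Prod.mk.injEq]
    omega
  · refine ⟨0, ((j - i + 1 + m) / 3, (k - j + m) / 3), ?_⟩
    simp only [cell, Prod.mk.injEq]
    omega

/-- the set of cells of a tile -/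
def Ph (m : ℕ) (τ : Tl) : Finset Cell :=
  {cell m 0 (X 0 τ), cell m 1 (X 1 τ), cell m 2 (X 2 τ)}

lemma mem_Ph {m : ℕ} {τ : Tl} {c : Cell} : c ∈ Ph m τ ↔ ∃ t, c = cell m t (X t τ) := by
  unfold Ph
  simp only [mem_insert, mem_singleton]
  constructor
  · rintro (h | h | h)
    · exact ⟨0, h⟩
    · exact ⟨1, h⟩
    · exact ⟨2, h⟩
  · rintro ⟨t, h⟩
    fin_cases t
    · exact Or.inl h
    · exact Or.inr (Or.inl h)
    · exact Or.inr (Or.inr h)

lemma cell_mem_Ph {m : ℕ} {τ : Tl} {t : Fin 3} {v : Pt} : cell m t v ∈ Ph m τ ↔ v = X t τ := by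
  rw [mem_Ph]
  constructor
  · rintro ⟨t', h⟩
    obtain ⟨rfl, h2⟩ := cell_inj h
    exact h2
  · rintro rfl
    exact ⟨t, rfl⟩

lemma off_inj : ∀ sh sh' : Sh, off sh 1 - off sh 0 = off sh' 1 - off sh' 0 →
    off sh 2 - off sh 0 = off sh' 2 - off sh' 0 → sh = sh' := by
  decide

lemma Ph_inj {m : ℕ} {τ τ' : Tl} (h : Ph m τ = Ph m τ') : τ = τ' := by
  have hX : ∀ t, X t τ = X t τ' := by
    intro t
    rw [← cell_mem_Ph (m := m), ← h, cell_mem_Ph]
  obtain ⟨sh, v⟩ := τ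
  obtain ⟨sh', v'⟩ := τ'
  have h0 := hX 0
  have h1 := hX 1
  have h2 := hX 2
  simp only [X] at h0 h1 h2
  have e : sh = sh' := by
    apply off_inj
    · have : off sh 1 - off sh 0 = (v + off sh 1) - (v + off sh 0) := by abel
      rw [this, h0, h1]; abel
    · have : off sh 2 - off sh 0 = (v + off sh 2) - (v + off sh 0) := by abel
      rw [this, h0, h2]; abel
  subst e
  have := add_right_cancel h0
  rw [this]

/-- kinds of tiles -/
inductive Kd
  | r : Kd
  | l : Kd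
  | b : Fin 3 → Kd
  deriving DecidableEq

def kd : Sh → Kd
  | Sh.z => Kd.r
  | Sh.s t k => if k = 2 then Kd.l else Kd.b t
  | Sh.j 0 => Kd.r
  | Sh.j 1 => Kd.r
  | Sh.j 2 => Kd.b 2
  | Sh.j 3 => Kd.b 0
  | Sh.j 4 => Kd.b 1

def IsKd : Kd → Finset Cell → Prop
  | Kd.r => IsRight
  | Kd.l => IsLeft
  | Kd.b t => IsBone t

lemma set_abc {a b c a' b' c' : Cell} (h1 : a = a') (h2 : b = b') (h3 : c = c') :
    ({a, b, c} : Finset Cell) = {a', b', c'} := by rw [h1, h2, h3]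

lemma set_acb {a b c a' b' c' : Cell} (h1 : a = a') (h2 : b = c') (h3 : c = b') :
    ({a, b, c} : Finset Cell) = {a', b', c'} := by
  subst h1 h2 h3; ext v; simp only [mem_insert, mem_singleton]; tauto

lemma set_bac {a b c a' b' c' : Cell} (h1 : a = b') (h2 : b = a') (h3 : c = c') :
    ({a, b, c} : Finset Cell) = {a', b', c'} := by
  subst h1 h2 h3; ext v; simp only [mem_insert, mem_singleton]; tauto

lemma set_bca {a b c a' b' c' : Cell} (h1 : a = b') (h2 : b = c') (h3 : c = a') :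
    ({a, b, c} : Finset Cell) = {a', b', c'} := by
  subst h1 h2 h3; ext v; simp only [mem_insert, mem_singleton]; tauto

lemma set_cab {a b c a' b' c' : Cell} (h1 : a = c') (h2 : b = a') (h3 : c = b') :
    ({a, b, c} : Finset Cell) = {a', b', c'} := by
  subst h1 h2 h3; ext v; simp only [mem_insert, mem_singleton]; tauto

lemma set_cba {a b c a' b' c' : Cell} (h1 : a = c') (h2 : b = b') (h3 : c = a') :
    ({a, b, c} : Finset Cell) = {a', b', c'} := by
  subst h1 h2 h3; ext v; simp only [mem_insert, mem_singleton]; tauto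

lemma Ph_kd (m : ℕ) (τ : Tl) : IsKd (kd τ.1) (Ph m τ) := by
  obtain ⟨sh, ⟨a, b⟩⟩ := τ
  rcases sh with _ | ⟨t, k⟩ | k
  · refine ⟨m - 2 * a - b, a - b, a + 2 * b - m, by ring, ?_⟩
    apply set_abc <;> simp [X, off, cell, stp, jo, dir] <;> omega
  · fin_cases t <;> fin_cases k
    · refine ⟨m - 2 * a - b, a - b - 1, a + 2 * b - m + 2, by ring, ?_⟩
      apply set_acb <;> simp [X, off, cell, stp, jo, dir] <;> omega
    · refine ⟨m - 2 * a - b, a - b, a + 2 * b - m + 1, by ring, ?_⟩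
      apply set_cba <;> simp [X, off, cell, stp, jo, dir] <;> omega
    · refine ⟨m - 2 * a - b, a - b + 1, a + 2 * b - m + 1, by ring, ?_⟩
      apply set_acb <;> simp [X, off, cell, stp, jo, dir] <;> omega
    · refine ⟨m - 2 * a - b + 2, a - b, a + 2 * b - m - 1, by ring, ?_⟩
      apply set_bac <;> simp [X, off, cell, stp, jo, dir] <;> omega
    · refine ⟨m - 2 * a - b + 1, a - b, a + 2 * b - m, by ring, ?_⟩
      apply set_acb <;> simp [X, off, cell, stp, jo, dir] <;> omega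
    · refine ⟨m - 2 * a - b + 1, a - b, a + 2 * b - m + 1, by ring, ?_⟩
      apply set_cba <;> simp [X, off, cell, stp, jo, dir] <;> omega
    · refine ⟨m - 2 * a - b - 1, a - b + 2, a + 2 * b - m, by ring, ?_⟩
      apply set_cba <;> simp [X, off, cell, stp, jo, dir] <;> omega
    · refine ⟨m - 2 * a - b, a - b + 1, a + 2 * b - m, by ring, ?_⟩
      apply set_bac <;> simp [X, off, cell, stp, jo, dir] <;> omega
    · refine ⟨m - 2 * a - b + 1, a - b + 1, a + 2 * b - m, by ring, ?_⟩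
      apply set_bac <;> simp [X, off, cell, stp, jo, dir] <;> omega
  · fin_cases k
    · refine ⟨m - 2 * a - b - 1, a - b, a + 2 * b - m + 1, by ring, ?_⟩
      apply set_bca <;> simp [X, off, cell, stp, jo, dir] <;> omega
    · refine ⟨m - 2 * a - b + 1, a - b, a + 2 * b - m - 1, by ring, ?_⟩
      apply set_cab <;> simp [X, off, cell, stp, jo, dir] <;> omega
    · refine ⟨m - 2 * a - b + 1, a - b, a + 2 * b - m, by ring, ?_⟩
      apply set_acb <;> simp [X, off, cell, stp, jo, dir] <;> omega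
    · refine ⟨m - 2 * a - b, a - b + 1, a + 2 * b - m, by ring, ?_⟩
      apply set_bac <;> simp [X, off, cell, stp, jo, dir] <;> omega
    · refine ⟨m - 2 * a - b, a - b, a + 2 * b - m + 1, by ring, ?_⟩
      apply set_cba <;> simp [X, off, cell, stp, jo, dir] <;> omega

lemma kd_surj (m : ℕ) (κ : Kd) {σ : Finset Cell} (h : IsKd κ σ) :
    ∃ τ : Tl, kd τ.1 = κ ∧ Ph m τ = σ := by
  have h3 : ∀ x y : ℤ, (y - x + m) % 3 = 0 ∨ (y - x + m) % 3 = 1 ∨ (y - x + m) % 3 = 2 := by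
    intro x y; omega
  rcases κ with _ | _ | t
  · obtain ⟨x, y, z, hs, rfl⟩ := h
    rcases h3 x y with h3 | h3 | h3
    · refine ⟨(Sh.z, ((y - x + m) / 3, (z - y + m) / 3)), rfl, ?_⟩
      apply set_abc <;> simp [X, off, cell, stp, jo, dir] <;> omega
    · refine ⟨(Sh.j 0, ((y - x - 1 + m) / 3, (z - 1 - y + m) / 3)), rfl, ?_⟩
      apply set_bca <;> simp [X, off, cell, stp, jo, dir] <;> omega
    · refine ⟨(Sh.j 1, ((y - x + 1 + m) / 3, (z + 1 - y + m) / 3)), rfl, ?_⟩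
      apply set_cab <;> simp [X, off, cell, stp, jo, dir] <;> omega
  · obtain ⟨x, y, z, hs, rfl⟩ := h
    rcases h3 x y with h3 | h3 | h3
    · refine ⟨(Sh.s 2 2, ((y - x + m) / 3, (z - y + 1 + m) / 3)), rfl, ?_⟩
      apply set_bac <;> simp [X, off, cell, stp, jo, dir] <;> omega
    · refine ⟨(Sh.s 0 2, ((y - x - 1 + m) / 3, (z - y + m) / 3)), rfl, ?_⟩
      apply set_acb <;> simp [X, off, cell, stp, jo, dir] <;> omega
    · refine ⟨(Sh.s 1 2, ((y - x + 1 + m) / 3, (z - y - 1 + m) / 3)), rfl, ?_⟩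
      apply set_cba <;> simp [X, off, cell, stp, jo, dir] <;> omega
  · obtain ⟨x, y, z, hs, rfl⟩ := h
    fin_cases t
    · rcases h3 x y with h3 | h3 | h3
      · refine ⟨(Sh.s 0 1, ((y - x + m) / 3, (z - y - 1 + m) / 3)), rfl, ?_⟩
        apply set_cba <;> simp [X, off, cell, stp, jo, dir] <;> omega
      · refine ⟨(Sh.j 3, ((y - x - 1 + m) / 3, (z - y + 1 + m) / 3)), rfl, ?_⟩
        apply set_bac <;> simp [X, off, cell, stp, jo, dir] <;> omega
      · refine ⟨(Sh.s 0 0, ((y - x + 1 + m) / 3, (z - y - 3 + m) / 3)), rfl, ?_⟩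
        apply set_acb <;> simp [X, off, cell, stp, jo, dir] <;> omega
    · rcases h3 x y with h3 | h3 | h3
      · refine ⟨(Sh.j 4, ((y - x + m) / 3, (z - 1 - y + m) / 3)), rfl, ?_⟩
        apply set_cba <;> simp [X, off, cell, stp, jo, dir] <;> omega
      · refine ⟨(Sh.s 1 0, ((y - x + 2 + m) / 3, (z - y + 1 + m) / 3)), rfl, ?_⟩
        apply set_bac <;> simp [X, off, cell, stp, jo, dir] <;> omega
      · refine ⟨(Sh.s 1 1, ((y - x + 1 + m) / 3, (z - y + m) / 3)), rfl, ?_⟩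
        apply set_acb <;> simp [X, off, cell, stp, jo, dir] <;> omega
    · rcases h3 x y with h3 | h3 | h3
      · refine ⟨(Sh.s 2 0, ((y - x - 3 + m) / 3, (z - y + 2 + m) / 3)), rfl, ?_⟩
        apply set_cba <;> simp [X, off, cell, stp, jo, dir] <;> omega
      · refine ⟨(Sh.s 2 1, ((y - x - 1 + m) / 3, (z - y + 1 + m) / 3)), rfl, ?_⟩
        apply set_bac <;> simp [X, off, cell, stp, jo, dir] <;> omega
      · refine ⟨(Sh.j 2, ((y - x + 1 + m) / 3, (z - y + m) / 3)), rfl, ?_⟩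
        apply set_acb <;> simp [X, off, cell, stp, jo, dir] <;> omega

lemma IsKd_Ph {m : ℕ} {κ : Kd} {τ : Tl} : IsKd κ (Ph m τ) ↔ kd τ.1 = κ := by
  constructor
  · intro h
    obtain ⟨τ', h1, h2⟩ := kd_surj m κ h
    rw [← Ph_inj h2, h1]
  · rintro rfl
    exact Ph_kd m τ

end Pool.Agent.R730.Bz
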