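import Pool.Agent.R730.Bz.Trans

set_option autoImplicit false

/-!
Translation between tilings of benzels and tilings of the internal model, part 2.
-/

namespace Pool.Agent.R730.Bz

open Finset

variable {K : Type*} [CommRing K]

lemma anyTile_surj (m : ℕ) {σ : Finset Cell} (h : AnyTile σ) : ∃ τ : Tl, Ph m τ = σ := by
  rcases h with h | h | ⟨t, h⟩
  · obtain ⟨τ, -, e⟩ := kd_surj m Kd.r h; exact ⟨τ, e⟩
  · obtain ⟨τ, -, e⟩ := kd_surj m Kd.l h; exact ⟨τ, e⟩
  · obtain ⟨τ, -, e⟩ := kd_surj m (Kd.b t) h; exact ⟨τ, e⟩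

/-- `D` describes the region `B` -/
def Desc (m : ℕ) (D : Fin 3 → Finset Pt) (B : Set Cell) : Prop :=
  (∀ c ∈ B, c.1 + c.2.1 + c.2.2 = 1) ∧ ∀ t v, cell m t v ∈ B ↔ v ∈ D t

theorem bij {m : ℕ} {D : Fin 3 → Finset Pt} {B : Set Cell} (hD : Desc m D B)
    (P : Finset Cell → Prop) (hP : ∀ σ, P σ → AnyTile σ) :
    Set.BijOn (fun M : Finset Tl => M.image (Ph m)) {M | Cov M D ∧ ∀ τ ∈ M, P (Ph m τ)}
      {M' | IsTiling P B M'} := by
  classical
  have hinj : Function.Injective (Ph m) := fun _ _ h => Ph_inj h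
  refine ⟨?_, ?_, ?_⟩
  · rintro M ⟨hM, hPM⟩
    refine ⟨?_, ?_, ?_⟩
    · intro σ hσ
      obtain ⟨τ, hτ, rfl⟩ := mem_image.1 hσ
      exact hPM τ hτ
    · intro σ hσ σ' hσ' hne
      obtain ⟨τ, hτ, rfl⟩ := mem_image.1 hσ
      obtain ⟨τ', hτ', rfl⟩ := mem_image.1 hσ'
      rw [Finset.disjoint_left]
      intro c hc hc'
      obtain ⟨t, e⟩ := mem_Ph.1 hc
      obtain ⟨t', e'⟩ := mem_Ph.1 hc'
      rw [e] at e'
      obtain ⟨rfl, e2⟩ := cell_inj e'
      exact hne (by rw [hM.uniq hτ hτ' e2])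
    · intro c
      constructor
      · intro hc
        obtain ⟨t, v, rfl⟩ := cell_surj m (hD.1 c hc)
        obtain ⟨τ, hτ, e⟩ := hM.exists ((hD.2 t v).1 hc)
        exact ⟨Ph m τ, mem_image_of_mem _ hτ, cell_mem_Ph.2 e.symm⟩
      · rintro ⟨σ, hσ, hc⟩
        obtain ⟨τ, hτ, rfl⟩ := mem_image.1 hσ
        obtain ⟨t, rfl⟩ := mem_Ph.1 hc
        exact (hD.2 t _).2 (hM.mem hτ t)
  · intro M _ M' _ e
    exact Finset.image_injective hinj e
  · rintro M' ⟨h1, h2, h3⟩
    have hsur : ∀ σ ∈ M', ∃ τ, Ph m τ = σ := fun σ hσ => anyTile_surj m (hP σ (h1 σ hσ))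
    let M : Finset Tl := M'.preimage (Ph m) (fun _ _ _ _ h => hinj h)
    have hMmem : ∀ τ, τ ∈ M ↔ Ph m τ ∈ M' := fun τ => mem_preimage
    have himg : M.image (Ph m) = M' := by
      ext σ
      rw [mem_image]
      constructor
      · rintro ⟨τ, hτ, rfl⟩
        exact (hMmem τ).1 hτ
      · intro hσ
        obtain ⟨τ, rfl⟩ := hsur σ hσ
        exact ⟨τ, (hMmem τ).2 hσ, rfl⟩
    refine ⟨M, ⟨?_, ?_⟩, himg⟩
    · intro t
      constructor
      · ext v
        rw [mem_image]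
        constructor
        · rintro ⟨τ, hτ, rfl⟩
          rw [← hD.2, h3]
          exact ⟨Ph m τ, (hMmem τ).1 hτ, cell_mem_Ph.2 rfl⟩
        · intro hv
          rw [← hD.2, h3] at hv
          obtain ⟨σ, hσ, hc⟩ := hv
          obtain ⟨τ, rfl⟩ := hsur σ hσ
          exact ⟨τ, (hMmem τ).2 hσ, (cell_mem_Ph.1 hc).symm⟩
      · intro τ hτ τ' hτ' e
        by_contra hne
        have hd := h2 (Ph m τ) ((hMmem τ).1 hτ) (Ph m τ') ((hMmem τ').1 hτ')
          (fun e => hne (Ph_inj e))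
        rw [Finset.disjoint_left] at hd
        exact hd (a := cell m t (X t τ)) (cell_mem_Ph.2 rfl) (cell_mem_Ph.2 e)
    · intro τ hτ
      exact h1 _ ((hMmem τ).1 hτ)

open Classical in
/-- counting tilings -/
theorem count_eq {m : ℕ} {D : Fin 3 → Finset Pt} {B : Set Cell} (hD : Desc m D B)
    (P : Finset Cell → Prop) (hP : ∀ σ, P σ → AnyTile σ) :
    (({M' | IsTiling P B M'}.ncard : ℕ) : K)
      = Z (fun τ => if P (Ph m τ) then (1 : K) else 0) D := by
  have h := bij hD P hP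
  rw [← h.image_eq, Set.ncard_image_of_injOn h.injOn]
  have e : {M : Finset Tl | Cov M D ∧ ∀ τ ∈ M, P (Ph m τ)}
      = ((tilings D).filter (fun M => ∀ τ ∈ M, P (Ph m τ)) : Finset (Finset Tl)) := by
    ext M
    simp only [Set.mem_setOf_eq, coe_filter, mem_tilings]
  rw [e, Set.ncard_coe_finset]
  unfold Z
  rw [Finset.card_filter]
  push_cast
  apply Finset.sum_congr rfl
  intro M _
  rw [Finset.prod_ite_zero]
  simp

open Classical in
/-- weighted counting of tilings -/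
theorem weighted_eq {m : ℕ} {D : Fin 3 → Finset Pt} {B : Set Cell} (hD : Desc m D B) (q : ℕ) :
    ((∑ᶠ M ∈ {M' | IsTiling AnyTile B M'}, q ^ stones M : ℕ) : K)
      = Z (fun τ => if IsRight (Ph m τ) ∨ IsLeft (Ph m τ) then (q : K) else 1) D := by
  have h := bij hD AnyTile (fun _ h => h)
  have hall : ∀ τ : Tl, AnyTile (Ph m τ) := by
    intro τ
    have := Ph_kd m τ
    rcases hk : kd τ.1 with _ | _ | t
    · rw [hk] at this; exact Or.inl this
    · rw [hk] at this; exact Or.inr (Or.inl this)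
    · rw [hk] at this; exact Or.inr (Or.inr ⟨t, this⟩)
  have e : {M : Finset Tl | Cov M D ∧ ∀ τ ∈ M, AnyTile (Ph m τ)} = (tilings D : Set (Finset Tl)) := by
    ext M
    simp only [Set.mem_setOf_eq, mem_coe, mem_tilings]
    exact ⟨fun h => h.1, fun h => ⟨h, fun τ _ => hall τ⟩⟩
  rw [e] at h
  rw [← finsum_mem_eq_of_bijOn (f := fun M : Finset Tl => q ^ stones (M.image (Ph m)))
    (fun M : Finset Tl => M.image (Ph m)) h (fun _ _ => rfl), finsum_mem_coe_finset]
  unfold Z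
  push_cast
  apply Finset.sum_congr rfl
  intro M _
  have hs : stones (M.image (Ph m))
      = (M.filter (fun τ => IsRight (Ph m τ) ∨ IsLeft (Ph m τ))).card := by
    unfold stones
    have : {τ | τ ∈ M.image (Ph m) ∧ (IsRight τ ∨ IsLeft τ)}
        = ((M.filter (fun τ => IsRight (Ph m τ) ∨ IsLeft (Ph m τ))).image (Ph m) :
          Finset (Finset Cell)) := by
      ext σ
      simp only [Set.mem_setOf_eq, coe_image, Set.mem_image, mem_coe, mem_filter, mem_image]
      constructor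
      · rintro ⟨⟨τ, hτ, rfl⟩, h⟩
        exact ⟨τ, ⟨hτ, h⟩, rfl⟩
      · rintro ⟨τ, ⟨hτ, h⟩, rfl⟩
        exact ⟨⟨τ, hτ, rfl⟩, h⟩
    rw [this, Set.ncard_coe_finset, Finset.card_image_of_injective _ (fun _ _ h => Ph_inj h)]
  rw [hs, Finset.prod_ite, Finset.prod_const, Finset.prod_const_one, mul_one]

/-- scaling all the weights -/
lemma Z_scale (c : K) (w : Tl → K) (D : Fin 3 → Finset Pt) :
    Z (fun τ => c * w τ) D = c ^ (D 0).card * Z w D := by
  unfold Z
  rw [Finset.mul_sum]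
  apply Finset.sum_congr rfl
  intro M hM
  rw [Finset.prod_mul_distrib, Finset.prod_const, (mem_tilings.1 hM).card 0]

lemma desc_in (m : ℕ) : Desc m (Din m) (benzel ((m : ℤ) + 2) (2 * m + 1)) := by
  refine ⟨fun c hc => hc.1, ?_⟩
  rintro t ⟨a, b⟩
  unfold Din
  rw [mem_erase, mem_T]
  have hs := cell_sum m t (a, b)
  simp only [benzel, Set.mem_setOf_eq, hs, true_and, ne_eq]
  fin_cases t <;> simp [cell, pc] <;> omega

lemma desc_out (m : ℕ) : Desc m (Dout m) (benzel ((m : ℤ) + 2) (2 * m)) := by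
  refine ⟨fun c hc => hc.1, ?_⟩
  rintro t ⟨a, b⟩
  unfold Dout
  rw [mem_erase, mem_erase, mem_T]
  have hs := cell_sum m t (a, b)
  simp only [benzel, Set.mem_setOf_eq, hs, true_and, ne_eq]
  fin_cases t <;> simp [cell, pc] <;> omega

end Pool.Agent.R730.Bz
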